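import Pool.Agent.N980.WQ.Crl
import Pool.Agent.N980.WQ.Stage

/-!
Alternating trilinear forms built from packets.
-/

open MeasureTheory Set Filter Topology
open scoped ContDiff

set_option linter.unusedVariables false

namespace Pool.Agent.N980.WQ

open Pool.Agent.N980.NU
open Pool.Agent.N980.WP
open Pool.Agent.N980.CB (one_le_R R_pos inn out FF)
open Pool.Agent.H356R3.NS (K C3 E3 R3 ex SN Sym RD TT SF SFam Fam cf' at' nk pw fj dS Bf dt)

/-- The data of an antisymmetrized product of three families. -/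
structure W3 (R : ℕ) (ℓ : ℕ → ℝ) where
  a : Fin 3 → ℕ → ℝ
  U : Fin 3 → Fm R ℓ
  Y : Fin 3 → Fm R ℓ
  C : ℝ
  ha : ∀ j n, |a j n| ≤ C * ((R : ℝ) ^ n) ^ 3
  hd : ∀ j, (Y j).Dv

variable {R : ℕ} {ℓ : ℕ → ℝ}

theorem W3.hn (D : W3 R ℓ) (j : Fin 3) (n : ℕ) : |-D.a j n| ≤ D.C * ((R : ℝ) ^ n) ^ 3 := by
  rw [abs_neg]
  exact D.ha j n

/-- The six terms. -/
noncomputable def W3.tr (D : W3 R ℓ) : Fin 6 → Tr R ℓ :=
  ![⟨D.a 0, D.U 0, D.Y 1, D.Y 2, D.C, D.ha 0, D.hd 2⟩,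
    ⟨fun n => -D.a 0 n, D.U 0, D.Y 2, D.Y 1, D.C, D.hn 0, D.hd 1⟩,
    ⟨D.a 1, D.U 1, D.Y 2, D.Y 0, D.C, D.ha 1, D.hd 0⟩,
    ⟨fun n => -D.a 1 n, D.U 1, D.Y 0, D.Y 2, D.C, D.hn 1, D.hd 2⟩,
    ⟨D.a 2, D.U 2, D.Y 0, D.Y 1, D.C, D.ha 2, D.hd 1⟩,
    ⟨fun n => -D.a 2 n, D.U 2, D.Y 1, D.Y 0, D.C, D.hn 2, D.hd 0⟩]

/-- The determinant. -/
noncomputable def W3.tm (D : W3 R ℓ) (u v z : V → V) (n : ℕ) : ℝ :=
  D.a 0 n * (D.U 0).cs u n * ((D.Y 1).cs v n * (D.Y 2).cs z n - (D.Y 2).cs v n * (D.Y 1).cs z n)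
    + D.a 1 n * (D.U 1).cs u n * ((D.Y 2).cs v n * (D.Y 0).cs z n - (D.Y 0).cs v n * (D.Y 2).cs z n)
    + D.a 2 n * (D.U 2).cs u n * ((D.Y 0).cs v n * (D.Y 1).cs z n - (D.Y 1).cs v n * (D.Y 0).cs z n)

/-- The terms of two antisymmetrized products. -/
noncomputable def TW (D : Fin 2 → W3 R ℓ) : Fin 2 × Fin 6 → Tr R ℓ := fun p => (D p.1).tr p.2

theorem TW_form (w : Wd R ℓ) (D : Fin 2 → W3 R ℓ) {u v z : V → V} (hu : SPV u) (hv : SPV v) (hz : SPV z) :
    HasSum (fun n => (D 0).tm u v z n + (D 1).tm u v z n) (ip (KQ (TW D) u v) z) := by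
  refine (ip_KQ (TW D) w hu hv hz).congr_fun fun n => ?_
  simp only [Fintype.sum_prod_type, Fin.sum_univ_two, Fin.sum_univ_six, TW, W3.tr, W3.tm, Matrix.cons_val_zero,
    Matrix.cons_val_one, Matrix.cons_val]
  ring

theorem TW_series (w : Wd R ℓ) (D : Fin 2 → W3 R ℓ) {u v : V → V} (hu : SPV u) (hv : SPV v) (x : V) :
    HasSum (fun n => ∑ i, (
      ((D i).a 0 n * ((D i).U 0).cs u n * ((D i).Y 1).cs v n - (D i).a 1 n * ((D i).U 1).cs u n * ((D i).Y 0).cs v n) •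
        ((D i).Y 2).F n x
      + ((D i).a 1 n * ((D i).U 1).cs u n * ((D i).Y 2).cs v n - (D i).a 2 n * ((D i).U 2).cs u n * ((D i).Y 1).cs v n) •
        ((D i).Y 0).F n x
      + ((D i).a 2 n * ((D i).U 2).cs u n * ((D i).Y 0).cs v n - (D i).a 0 n * ((D i).U 0).cs u n * ((D i).Y 2).cs v n) •
        ((D i).Y 1).F n x)) (KQ (TW D) u v x) := by
  refine (KQ_series (TW D) w hu hv x).congr_fun fun n => ?_
  simp only [Fintype.sum_prod_type, Fin.sum_univ_two, Fin.sum_univ_six, TW, W3.tr, Matrix.cons_val_zero,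
    Matrix.cons_val_one, Matrix.cons_val]
  module

theorem W3.tm_skew (D : W3 R ℓ) (u v z : V → V) (n : ℕ) : D.tm u v z n = -D.tm u z v n := by
  unfold W3.tm
  ring

theorem TW_skew (w : Wd R ℓ) (D : Fin 2 → W3 R ℓ) {u v z : V → V} (hu : SPV u) (hv : SPV v) (hz : SPV z) :
    ip (KQ (TW D) u v) z = -ip v (KQ (TW D) u z) := by
  rw [ip_comm v]
  refine (TW_form w D hu hv hz).unique ((TW_form w D hu hz hv).neg.congr_fun fun n => ?_)
  rw [(D 0).tm_skew u v z, (D 1).tm_skew u v z]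
  ring

theorem TW_bil (w : Wd R ℓ) (D : Fin 2 → W3 R ℓ) : Bil (KQ (TW D)) := KQ_bil (TW D) w fun u v hu hv => by
  have h1 := TW_skew w D hu hv hv
  rw [ip_comm v] at h1
  linarith

/-! ### the families -/

variable (P : Pm)

/-- The curls of the packets. -/
noncomputable def qX : Fm P.R (wd P.L) := crl P.X P.wh.wd

/-- The double curls of the packets. -/
noncomputable def sX : Fm P.R (wd P.L) := crl (qX P) P.wh.wd

noncomputable def qX' : Fm P.R (wd P.L) := (qX P).sh P.wh.wd P.gr P.mono'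

noncomputable def sX' : Fm P.R (wd P.L) := (sX P).sh P.wh.wd P.gr P.mono'

/-- The coefficient on the curl of the packet `n`. -/
noncomputable def qo (u : V → V) (n : ℕ) : ℝ := (qX P).cs u n

/-- The coefficient on the double curl of the packet `n`. -/
noncomputable def so (u : V → V) (n : ℕ) : ℝ := (sX P).cs u n

theorem R1 : (1 : ℝ) ≤ P.R := by
  have := P.wh.hR
  exact_mod_cast (by omega : 1 ≤ P.R)

theorem D0 : 0 ≤ P.D := by
  have h1 := P.hg 0
  have h2 := P.g0 0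
  simp at h1
  linarith

theorem hb0 (n : ℕ) {c : ℝ} (hc0 : 0 ≤ c) (hc : c ≤ P.R) : |c * P.g n| ≤ P.D * P.R * ((P.R : ℝ) ^ n) ^ 3 := by
  have h1 := P.hg n
  have h2 := P.g0 n
  rw [abs_of_nonneg (mul_nonneg hc0 h2)]
  have h3 := D0 P
  have h4 : (0 : ℝ) ≤ ((P.R : ℝ) ^ n) ^ 3 := by positivity
  calc c * P.g n ≤ P.R * (P.D * ((P.R : ℝ) ^ n) ^ 3) := by
        have := R1 P
        gcongr
    _ = _ := by ring

/-- The data of the operator: the product of the packets `n`, `n+1` and of the curl of the packet `n+1`. -/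
noncomputable def kD1 : W3 P.R (wd P.L) where
  a := ![fun n => (P.R : ℝ)⁻¹ * P.g n, fun n => 1 * P.g n, fun n => 1 * P.g n]
  U := ![qX P, qX' P, sX' P]
  Y := ![P.X, P.X', qX' P]
  C := P.D * P.R
  ha := fun j n => by
    have h1 := R1 P
    have h0 : (0 : ℝ) < P.R := by linarith
    have h2 : (P.R : ℝ)⁻¹ ≤ P.R := (inv_le_one_of_one_le₀ h1).trans h1
    fin_cases j
    · exact hb0 P n (by positivity) h2
    · exact hb0 P n zero_le_one h1
    · exact hb0 P n zero_le_one h1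
  hd := fun j => by
    fin_cases j
    · exact P.Dv
    · exact P.Dv'
    · exact fun n k => crl_Dv P.X P.wh.wd (n + 1) k

/-- The data of the operator: the product of the packets `n`, `n+1` and of the curl of the packet `n`. -/
noncomputable def kD2 : W3 P.R (wd P.L) where
  a := ![fun n => P.δ * P.g n, fun n => (P.δ * P.R) * P.g n, fun n => P.δ * P.g n]
  U := ![qX P, qX' P, sX P]
  Y := ![P.X, P.X', qX P]
  C := P.D * P.R
  ha := fun j n => by
    have h1 := R1 P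
    have h0 : (0 : ℝ) < P.R := by linarith
    have h2 := P.δ0
    have h3 := P.δ1
    fin_cases j
    · exact hb0 P n h2 (h3.trans h1)
    · exact hb0 P n (by positivity) (mul_le_of_le_one_left h0.le h3)
    · exact hb0 P n h2 (h3.trans h1)
  hd := fun j => by
    fin_cases j
    · exact P.Dv
    · exact P.Dv'
    · exact crl_Dv P.X P.wh.wd

/-- The terms of the operator. -/
noncomputable def kT : Fin 2 × Fin 6 → Tr P.R (wd P.L) := TW ![kD1 P, kD2 P]

/-- The data of the form. -/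
noncomputable def aD1 : W3 P.R (wd P.L) where
  a := fun _ n => 1 / (2 * Real.pi * (P.R : ℝ) ^ (n + 1)) * P.g n
  U := ![P.X, P.X', qX' P]
  Y := ![P.X, P.X', qX' P]
  C := P.D * P.R
  ha := fun j n => by
    have h1 := R1 P
    have h2 : 1 ≤ 2 * Real.pi * (P.R : ℝ) ^ (n + 1) := by
      have h3 : 1 ≤ (P.R : ℝ) ^ (n + 1) := one_le_pow₀ h1
      nlinarith [Real.pi_gt_three]
    refine hb0 P n (by positivity) (le_trans ?_ h1)
    rw [div_le_one (by linarith)]
    exact h2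
  hd := (kD1 P).hd

/-- The data of the form. -/
noncomputable def aD2 : W3 P.R (wd P.L) where
  a := fun _ n => P.δ / (2 * Real.pi * (P.R : ℝ) ^ n) * P.g n
  U := ![P.X, P.X', qX P]
  Y := ![P.X, P.X', qX P]
  C := P.D * P.R
  ha := fun j n => by
    have h1 := R1 P
    have h2 : 1 ≤ 2 * Real.pi * (P.R : ℝ) ^ n := by
      have h3 : 1 ≤ (P.R : ℝ) ^ n := one_le_pow₀ h1
      nlinarith [Real.pi_gt_three]
    have h3 := P.δ0
    refine hb0 P n (by positivity) (le_trans ?_ h1)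
    rw [div_le_one (by linarith)]
    exact P.δ1.trans h2
  hd := (kD2 P).hd

/-- The terms of the form. -/
noncomputable def aT : Fin 2 × Fin 6 → Tr P.R (wd P.L) := TW ![aD1 P, aD2 P]

/-- The form is alternating. -/
theorem aT_alt {u v z : V → V} (hu : SPV u) (hv : SPV v) (hz : SPV z) :
    ip (KQ (aT P) u v) z = -ip (KQ (aT P) v u) z := by
  refine (TW_form P.wh.wd _ hu hv hz).unique ((TW_form P.wh.wd _ hv hu hz).neg.congr_fun fun n => ?_)
  simp only [W3.tm, aD1, aD2, Matrix.cons_val_zero, Matrix.cons_val_one, Matrix.cons_val]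
  ring

theorem sh_cs {X : Fm R ℓ} {w : Wd R ℓ} {C : ℝ} {hC : ∀ n, ℓ (n + 1) ≤ C * ℓ n} {hm : ∀ n, ℓ n ≤ ℓ (n + 1)}
    (v : V → V) (n : ℕ) : (X.sh w hC hm).cs v n = X.cs v (n + 1) := rfl

/-- The operator is the form applied to the curl. -/
theorem kT_eq {u v : V → V} (hu : SPV u) (hv : SPV v) : KQ (aT P) (curl u) v = KQ (kT P) u v := by
  have w := P.wh.wd
  have hR : (0 : ℝ) < P.R := by have := R1 P; linarith
  have hpi := Real.pi_pos
  have c1 : ∀ n, P.X.cs (curl u) n = 2 * Real.pi * (P.R : ℝ) ^ n * (qX P).cs u n := cs_curl P.X w hu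
  have c2 : ∀ n, (qX P).cs (curl u) n = 2 * Real.pi * (P.R : ℝ) ^ n * (sX P).cs u n := cs_curl (qX P) w hu
  have c1' : ∀ n, P.X'.cs (curl u) n = 2 * Real.pi * (P.R : ℝ) ^ (n + 1) * (qX' P).cs u n := fun n => c1 (n + 1)
  have c2' : ∀ n, (qX' P).cs (curl u) n = 2 * Real.pi * (P.R : ℝ) ^ (n + 1) * (sX' P).cs u n := fun n => c2 (n + 1)
  funext x
  refine (TW_series w _ hu.curl hv x).unique ((TW_series w _ hu hv x).congr_fun fun n => ?_)
  have hRn : (P.R : ℝ) ^ n ≠ 0 := (pow_pos hR n).ne'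
  simp only [Fin.sum_univ_two, aD1, aD2, kD1, kD2, Matrix.cons_val_zero, Matrix.cons_val_one, Matrix.cons_val,
    c1, c2, c1', c2']
  have e1 : 1 / (2 * Real.pi * (P.R : ℝ) ^ (n + 1)) * P.g n * (2 * Real.pi * (P.R : ℝ) ^ n * (qX P).cs u n)
      = (P.R : ℝ)⁻¹ * P.g n * (qX P).cs u n := by
    rw [pow_succ]; field_simp
  have e2 : ∀ c : ℝ, 1 / (2 * Real.pi * (P.R : ℝ) ^ (n + 1)) * P.g n * (2 * Real.pi * (P.R : ℝ) ^ (n + 1) * c)
      = 1 * P.g n * c := by
    intro c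
    field_simp
  have e3 : ∀ c : ℝ, P.δ / (2 * Real.pi * (P.R : ℝ) ^ n) * P.g n * (2 * Real.pi * (P.R : ℝ) ^ n * c)
      = P.δ * P.g n * c := by
    intro c
    field_simp
  have e4 : ∀ c : ℝ, P.δ / (2 * Real.pi * (P.R : ℝ) ^ n) * P.g n * (2 * Real.pi * (P.R : ℝ) ^ (n + 1) * c)
      = P.δ * P.R * P.g n * c := by
    intro c
    rw [pow_succ]; field_simp
  simp only [e1, e2, e3, e4]

/-- The trilinear form of the operator. -/
theorem kT_form {u v z : V → V} (hu : SPV u) (hv : SPV v) (hz : SPV z) :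
    HasSum (fun n => (P.R : ℝ)⁻¹ * P.g n * qo P u n * (P.co v (n + 1) * qo P z (n + 1) - qo P v (n + 1) * P.co z (n + 1))
      + P.g n * qo P u (n + 1) * (qo P v (n + 1) * P.co z n - P.co v n * qo P z (n + 1))
      + P.g n * so P u (n + 1) * (P.co v n * P.co z (n + 1) - P.co v (n + 1) * P.co z n)
      + P.δ * P.g n * qo P u n * (P.co v (n + 1) * qo P z n - qo P v n * P.co z (n + 1))
      + P.δ * P.R * P.g n * qo P u (n + 1) * (qo P v n * P.co z n - P.co v n * qo P z n)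
      + P.δ * P.g n * so P u n * (P.co v n * P.co z (n + 1) - P.co v (n + 1) * P.co z n)) (ip (KQ (kT P) u v) z) := by
  refine (TW_form P.wh.wd _ hu hv hz).congr_fun fun n => ?_
  have c0 : ∀ (v : V → V) n, P.X.cs v n = P.co v n := P.cs_eq
  have c0' : ∀ (v : V → V) n, P.X'.cs v n = P.co v (n + 1) := P.cs_eq'
  have c1 : ∀ (v : V → V) n, (qX' P).cs v n = qo P v (n + 1) := fun _ _ => rfl
  have c2 : ∀ (v : V → V) n, (sX' P).cs v n = so P v (n + 1) := fun _ _ => rfl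
  have c3 : ∀ (v : V → V) n, (qX P).cs v n = qo P v n := fun _ _ => rfl
  have c4 : ∀ (v : V → V) n, (sX P).cs v n = so P v n := fun _ _ => rfl
  simp only [W3.tm, kD1, kD2, Matrix.cons_val_zero, Matrix.cons_val_one, Matrix.cons_val, c0, c0', c1, c2, c3, c4]
  ring

end Pool.Agent.N980.WQ
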