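import Pool.Agent.N980.WQ.Stage5

/-!
The cascade: scaling and induction.
-/

open MeasureTheory Set Filter Topology

namespace Pool.Agent.N980.WQ

open Pool.Agent.N980.CB hiding StageIn Bd Flow Sys St Cond

/-- The chain system attached to a smooth solution. -/
structure Sys (R P Q Λ z G ℓ β T b : ℝ) (N : ℕ) (θ : ℕ → ℝ) (x y : ℕ → ℝ → ℝ) : Prop where
  par : Par Λ z
  hQ : 10 ^ 5 ≤ Q
  hQR : Q ≤ R
  hP : 2 ≤ P
  hR : 2 ≤ R
  hPQ : P * Q = R ^ 2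
  hRΛ : 10 ^ 4 * R ^ 2 ≤ Λ
  hG : 0 < G
  hℓ : 0 < ℓ
  hβ : 0 ≤ β
  θ0 : ∀ k, 0 < θ k
  θ1 : ∀ k, θ k ≤ 3
  cont : ∀ k, ContinuousOn (x k) (Ico 0 T)
  ode : ∀ k, ∀ t ∈ Ioo 0 T, (∀ m, |y m t| ≤ 2 * (b / Q ^ m)) → ∃ e, |e| ≤ β * P ^ (max k N) ∧ HasDerivAt (x k)
    (-(ℓ * (R ^ k) ^ 2 * x k t) + inn (gG G Λ) (z ^ 16) x k t - out (gG G Λ) (z ^ 16) x k t + e) t
  dec : ∀ T1 < T, ∃ C, ∀ k, ∀ t ∈ Icc 0 T1, |x k t| ≤ C / (R ^ k) ^ 2
  ycont : ∀ k, ContinuousOn (y k) (Ico 0 T)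
  yode : ∀ k, ∀ t ∈ Ioo 0 T, ∃ e, |e| ≤ β * P ^ k ∧ HasDerivAt (y k)
    (-(ℓ * (R ^ k) ^ 2 * y k t) + θ k * qi (gG G Λ) (z ^ 16) R⁻¹ R x y k t + e) t
  ydec : ∀ T1 < T, ∃ C, ∀ k, ∀ t ∈ Icc 0 T1, |y k t| ≤ C / (R ^ k) ^ 2

/-- The state at the beginning of a stage. -/
structure St (Q z b : ℝ) (x y : ℕ → ℝ → ℝ) (n : ℕ) (τ A : ℝ) : Prop where
  Apos : 0 < A
  τ0 : 0 ≤ τ
  x0 : x n τ = A
  x1l : 19 / 20 * qq * A ≤ x (n + 1) τ
  x1u : x (n + 1) τ ≤ 21 / 20 * qq * A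
  x2l : -(z ^ 16 * qq / 10) * A ≤ x (n + 2) τ
  x2u : x (n + 2) τ ≤ z ^ 10 * A
  xi : ∀ j, |x (n + 3 + j) τ| ≤ z ^ (24 + 14 * j) * A + (1 + (1 / 2) ^ (j + 1)) * (b / Q ^ (n + 3 + j))
  xm : ∀ m, m < n → |x m τ| ≤ 10000 ^ (n - m) * A
  y0 : ∀ k, |y k τ| ≤ wq n k * (b / Q ^ k)

theorem scale_qi (g : ℕ → ℝ) (δ : ℝ) (x y : ℕ → ℝ → ℝ) {R Q A c b : ℝ} {n : ℕ} (hR : R ≠ 0) (hQ : Q ≠ 0)
    (hA : A ≠ 0) (hg : g n ≠ 0) (hb : b ≠ 0) (hc : c = g n * A) (τ : ℝ) (k : ℕ) (s : ℝ) :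
    qi (fun k => g k / g n) δ (Q / R) (R / Q) (fun k s => x k (τ + s / c) / A)
      (fun k s => y k (τ + s / c) * (Q ^ k / b)) k s
      = qi g δ R⁻¹ R x y k (τ + s / c) * (Q ^ k / b) / c := by
  cases k with
  | zero =>
    simp only [qi]
    rw [hc]
    field_simp
  | succ k =>
    simp only [qi]
    rw [hc]
    field_simp
    ring

/-- The smallness conditions at the beginning of a stage. -/
structure Cond (R P Q Λ z G ℓ β b : ℝ) (N n : ℕ) (A : ℝ) : Prop where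
  N : N ≤ n
  V : 1000 * ℓ * (R ^ (n + 2)) ^ 2 ≤ gG G Λ n * A
  E : β * P ^ (n + 3) ≤ z ^ 40 * (gG G Λ n * A ^ 2)
  B : b / Q ^ (n + 3) ≤ z ^ 40 * A
  F : ∀ k ≥ n, 64 * gG G Λ k * b ≤ ℓ * ((R ^ k) ^ 2 * Q ^ k)

variable {R P Q Λ z G ℓ β T b : ℝ} {N : ℕ} {θ : ℕ → ℝ} {x y : ℕ → ℝ → ℝ}

theorem Sys.R0 (h : Sys R P Q Λ z G ℓ β T b N θ x y) : 0 < R := by
  have := h.hR
  linarith

theorem Sys.gpos (h : Sys R P Q Λ z G ℓ β T b N θ x y) (k : ℕ) : 0 < gG G Λ k :=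
  mul_pos h.hG (pow_pos h.par.hΛ0 k)

/-- The normalized system. -/
theorem Sys.stageIn (h : Sys R P Q Λ z G ℓ β T b N θ x y) (hb : 0 < b) (hβb : 8 * β ≤ ℓ * b) {n : ℕ} {τ A : ℝ}
    (hs : St Q z b x y n τ A) (hC : Cond R P Q Λ z G ℓ β b N n A) (hT : τ + 5 / (gG G Λ n * A) < T) :
    StageIn Λ z n (fun k => gG G Λ k / gG G Λ n) (fun k => ℓ * (R ^ k) ^ 2 / (gG G Λ n * A))
      (fun k => β * P ^ (max k N) / (A * (gG G Λ n * A))) (fun k => b / Q ^ k / A)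
      (fun k s => x k (τ + s / (gG G Λ n * A)) / A) θ (Q / R) (R / Q)
      (fun k s => y k (τ + s / (gG G Λ n * A)) * (Q ^ k / b)) := by
  have hA := hs.Apos
  have hg := h.gpos n
  set c := gG G Λ n * A with hc
  have hc0 : 0 < c := mul_pos hg hA
  have hR0 := h.R0
  have hR := h.hR
  have hR1 : 1 ≤ R := by linarith
  have hQ := h.hQ
  have hQ1 : 1 ≤ Q := by linarith [show (1:ℝ) ≤ 10 ^ 5 by norm_num]
  have hQ0 : 0 < Q := by linarith
  have hP := h.hP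
  have hP1 : 1 ≤ P := by linarith
  have hP0 : 0 < P := by linarith
  have hPQ : ∀ k : ℕ, P ^ k * Q ^ k = (R ^ k) ^ 2 := by
    intro k
    rw [← mul_pow, h.hPQ]; ring
  have hℓ := h.hℓ
  have hΛ := h.par.hΛ0
  have hz := h.par.hz
  have hmap : ∀ s ∈ Icc (0 : ℝ) 5, τ + s / c ∈ Ico 0 T := by
    intro s hs'
    have h1 : 0 ≤ s / c := div_nonneg hs'.1 hc0.le
    have h2 : s / c ≤ 5 / c := by gcongr; exact hs'.2
    exact ⟨by linarith [hs.τ0], by linarith⟩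
  have hmap' : ∀ s ∈ Ioo (0 : ℝ) 5, τ + s / c ∈ Ioo 0 T := by
    intro s hs'
    have h1 : 0 < s / c := div_pos hs'.1 hc0
    exact ⟨by linarith [hs.τ0], (hmap s ⟨hs'.1.le, hs'.2.le⟩).2⟩
  have hmono : ∀ m k : ℕ, m ≤ k → R ^ m ≤ R ^ k := fun m k hmk => pow_le_pow_right₀ hR1 hmk
  have hmonoP : ∀ m k : ℕ, m ≤ k → P ^ m ≤ P ^ k := fun m k hmk => pow_le_pow_right₀ hP1 hmk
  have hQk : ∀ k : ℕ, 0 < Q ^ k := fun k => pow_pos hQ0 k
  refine ⟨h.par, div_self hg.ne', ?_, ⟨?_, ?_⟩, ?_, ?_, ?_, ?_, ?_, ?_, ?_, ?_, ?_, ?_, ?_, ?_, ?_, ?_, ?_,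
    ?_, ?_, ?_, ?_, ?_, ?_, h.θ0, h.θ1, by positivity, ?_, by positivity, ?_, ?_, ?_, ?_, ?_⟩
  · intro k
    show gG G Λ (k + 1) / gG G Λ n = Λ * (gG G Λ k / gG G Λ n)
    unfold gG
    rw [pow_succ]
    ring
  · intro k
    refine ContinuousOn.div_const ?_ _
    exact (h.cont k).comp (by fun_prop) hmap
  · intro k s hs' hyb
    obtain ⟨e, he, hd⟩ := h.ode k (τ + s / c) (hmap' s hs') (fun m => by
      have h1 := hyb m
      rw [abs_mul, abs_of_pos (div_pos (hQk m) hb), ← mul_div_assoc, div_le_iff₀ hb] at h1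
      rw [← mul_div_assoc, le_div_iff₀ (hQk m)]
      exact h1)
    refine ⟨e / (A * c), ?_, ?_⟩
    · rw [abs_div, abs_of_pos (mul_pos hA hc0)]
      gcongr
    · have h1 : HasDerivAt (fun s => τ + s / c) (1 / c) s := ((hasDerivAt_id' s).div_const c).const_add τ
      have h2 := (hd.comp s h1).div_const A
      refine h2.congr_deriv ?_
      rw [scale_inn _ _ _ _ hA.ne' hg.ne' hc, scale_out _ _ _ _ hA.ne' hg.ne' hc]
      field_simp
  · show x n (τ + 0 / c) / A = 1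
    rw [zero_div, add_zero, hs.x0, div_self hA.ne']
  · show _ ≤ x (n + 1) (τ + 0 / c) / A
    rw [zero_div, add_zero, le_div_iff₀ hA]
    exact hs.x1l
  · show x (n + 1) (τ + 0 / c) / A ≤ _
    rw [zero_div, add_zero, div_le_iff₀ hA]
    exact hs.x1u
  · show _ ≤ x (n + 2) (τ + 0 / c) / A
    rw [zero_div, add_zero, le_div_iff₀ hA]
    exact hs.x2l
  · show x (n + 2) (τ + 0 / c) / A ≤ _
    rw [zero_div, add_zero, div_le_iff₀ hA]
    exact hs.x2u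
  · intro j
    show |x (n + 3 + j) (τ + 0 / c) / A| ≤ z ^ (24 + 14 * j) + (1 + (1 / 2) ^ (j + 1)) * (b / Q ^ (n + 3 + j) / A)
    rw [zero_div, add_zero, abs_div, abs_of_pos hA, div_le_iff₀ hA]
    refine (hs.xi j).trans (le_of_eq ?_)
    field_simp
  · intro m hm
    show |x m (τ + 0 / c) / A| ≤ _
    rw [zero_div, add_zero, abs_div, abs_of_pos hA, div_le_iff₀ hA]
    exact hs.xm m hm
  · obtain ⟨C, hC'⟩ := h.dec (τ + 5 / c) hT
    obtain ⟨J, hJ⟩ := pow_unbounded_of_one_lt (C / b) (show 1 < P by linarith)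
    refine ⟨J, fun k hk s hs' => ?_⟩
    show |x k (τ + s / c) / A| ≤ b / Q ^ k / A
    rw [abs_div, abs_of_pos hA]
    refine div_le_div_of_nonneg_right ?_ hA.le
    refine (hC' k (τ + s / c) ⟨(hmap s hs').1, ?_⟩).trans ?_
    · have : s / c ≤ 5 / c := by gcongr; exact hs'.2
      linarith
    · have h1 : 0 < Q ^ k := pow_pos hQ0 k
      have h1R : 0 < R ^ k := pow_pos hR0 k
      have h2 : C / b ≤ P ^ k := hJ.le.trans (hmonoP _ _ hk)
      rw [div_le_iff₀ hb] at h2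
      rw [div_le_div_iff₀ (by positivity) h1]
      calc C * Q ^ k ≤ (P ^ k * b) * Q ^ k := by gcongr
        _ = b * (P ^ k * Q ^ k) := by ring
        _ = b * (R ^ k) ^ 2 := by rw [hPQ k]
  · intro k
    positivity
  · intro k
    show ℓ * (R ^ k) ^ 2 / c ≤ ℓ * (R ^ (k + 1)) ^ 2 / c
    have := hmono k (k + 1) (by omega)
    gcongr
  · show ℓ * (R ^ n) ^ 2 / c ≤ 1 / 1000
    rw [div_le_iff₀ hc0]
    have h1 := hC.V
    have h2 : ℓ * (R ^ n) ^ 2 ≤ ℓ * (R ^ (n + 2)) ^ 2 := by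
      have := hmono n (n + 2) (by omega)
      gcongr
    linarith
  · show ℓ * (R ^ (n + 1)) ^ 2 / c ≤ 1 / 1000
    rw [div_le_iff₀ hc0]
    have h1 := hC.V
    have h2 : ℓ * (R ^ (n + 1)) ^ 2 ≤ ℓ * (R ^ (n + 2)) ^ 2 := by
      have := hmono (n + 1) (n + 2) (by omega)
      gcongr
    linarith
  · show ℓ * (R ^ (n + 2)) ^ 2 / c ≤ Λ * qq / 1000
    rw [div_le_iff₀ hc0]
    have h1 := hC.V
    have h2 : 1 ≤ Λ * qq := by
      have h3 := h.par.hΛ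
      have h4 : (1 : ℝ) ≤ 10 ^ 14 * qq := by unfold qq; norm_num
      have h5 : 10 ^ 14 * qq ≤ Λ * qq := by have := qq_pos; gcongr
      linarith
    have h3 : 1 * c ≤ Λ * qq * c := by gcongr
    linarith
  · intro k
    have := h.hβ
    positivity
  · intro k hk
    show β * P ^ (max k N) / (A * c) ≤ z ^ 40
    rw [div_le_iff₀ (mul_pos hA hc0)]
    have h1 : β * P ^ (max k N) ≤ β * P ^ (n + 3) :=
      mul_le_mul_of_nonneg_left (hmonoP _ _ (by have := hC.N; omega)) h.hβ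
    have h2 := hC.E
    have h3 : gG G Λ n * A ^ 2 = A * c := by rw [hc]; ring
    rw [h3] at h2
    exact h1.trans h2
  · intro k
    positivity
  · show b / Q ^ (n + 3) / A ≤ z ^ 40
    rw [div_le_iff₀ hA]
    exact hC.B
  · intro k
    show b / Q ^ (k + 1) / A ≤ b / Q ^ k / A / 10 ^ 5
    rw [pow_succ, div_div, div_div, div_div, div_le_div_iff₀ (by positivity) (by positivity)]
    have h1 : 0 < b * (Q ^ k * A) := by positivity
    have h2 : b * (Q ^ k * A) * 10 ^ 5 ≤ b * (Q ^ k * A) * Q := by gcongr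
    calc b * (Q ^ k * (A * 10 ^ 5)) = b * (Q ^ k * A) * 10 ^ 5 := by ring
      _ ≤ b * (Q ^ k * A) * Q := h2
      _ = b * (Q ^ k * Q * A) := by ring
  · intro k hk
    show β * P ^ (max k N) / (A * c) ≤ ℓ * (R ^ k) ^ 2 / c * (b / Q ^ k / A) / 8
    have emax : max k N = k := max_eq_left (by have := hC.N; omega)
    rw [emax]
    have h1 : ℓ * (R ^ k) ^ 2 / c * (b / Q ^ k / A) / 8 = (ℓ * b) * P ^ k / (A * c) / 8 := by
      have : Q ^ k ≠ 0 := (pow_pos hQ0 k).ne'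
      rw [← hPQ k]
      field_simp
    rw [h1, div_div, div_le_div_iff₀ (by positivity) (by positivity)]
    have h2 : 0 < P ^ k * (A * c) := by positivity
    nlinarith
  · intro k hk
    show 64 * (gG G Λ k / gG G Λ n) * (b / Q ^ k / A) ≤ ℓ * (R ^ k) ^ 2 / c
    have h1 := hC.F k (by omega)
    have hRk : 0 < Q ^ k := pow_pos hQ0 k
    have e1 : 64 * (gG G Λ k / gG G Λ n) * (b / Q ^ k / A) = (64 * gG G Λ k * b) / (Q ^ k * c) := by
      rw [hc]; field_simp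
    rw [e1, div_le_div_iff₀ (by positivity) hc0]
    calc 64 * gG G Λ k * b * c ≤ ℓ * ((R ^ k) ^ 2 * Q ^ k) * c := by gcongr
      _ = ℓ * (R ^ k) ^ 2 * (Q ^ k * c) := by ring
  · intro k
    show ℓ * (R ^ k) ^ 2 / c * (b / Q ^ k / A) ≤ ℓ * (R ^ (k + 1)) ^ 2 / c * (b / Q ^ (k + 1) / A)
    have e : ∀ k, ℓ * (R ^ k) ^ 2 / c * (b / Q ^ k / A) = ℓ * b / (c * A) * P ^ k := by
      intro k
      have : Q ^ k ≠ 0 := (pow_pos hQ0 k).ne'
      rw [← hPQ k]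
      field_simp
    rw [e, e]
    have := hmonoP k (k + 1) (by omega)
    gcongr
  · rw [div_le_one hR0]
    exact h.hQR
  · have h1 : R / Q ≤ R := div_le_self hR0.le hQ1
    have h2 := h.hRΛ
    nlinarith
  · intro k
    refine ContinuousOn.mul_const ?_ _
    exact (h.ycont k).comp (by fun_prop) hmap
  · intro k s hs'
    obtain ⟨e, he, hd⟩ := h.yode k (τ + s / c) (hmap' s hs')
    refine ⟨e * (Q ^ k / b) / c, ?_, ?_⟩
    · have h1 := hQk k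
      rw [abs_div, abs_mul, abs_of_pos (div_pos h1 hb), abs_of_pos hc0]
      have h2 : |e| * (Q ^ k / b) / c ≤ β * P ^ k * (Q ^ k / b) / c := by gcongr
      refine h2.trans ?_
      have e1 : β * P ^ k * (Q ^ k / b) / c = β * (P ^ k * Q ^ k) / (b * c) := by field_simp
      rw [e1, hPQ k, div_div, div_le_div_iff₀ (mul_pos hb hc0) (mul_pos hc0 (by norm_num))]
      have h3 : 0 ≤ (R ^ k) ^ 2 * c := by positivity
      nlinarith
    · have h1 : HasDerivAt (fun s => τ + s / c) (1 / c) s := ((hasDerivAt_id' s).div_const c).const_add τ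
      have h2 := (hd.comp s h1).mul_const (Q ^ k / b)
      refine h2.congr_deriv ?_
      rw [scale_qi _ _ _ _ hR0.ne' hQ0.ne' hA.ne' hg.ne' hb.ne' hc]
      field_simp
  · intro k
    show |y k (τ + 0 / c) * (Q ^ k / b)| ≤ _
    have h1 := hs.y0 k
    rw [zero_div, add_zero, abs_mul, abs_of_pos (div_pos (hQk k) hb), ← mul_div_assoc, div_le_iff₀ hb]
    have h2 := mul_le_mul_of_nonneg_right h1 (hQk k).le
    refine h2.trans (le_of_eq ?_)
    have := (hQk k).ne'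
    field_simp
  · obtain ⟨C, hC'⟩ := h.ydec (τ + 5 / c) hT
    obtain ⟨J, hJ⟩ := pow_unbounded_of_one_lt (C / b) (show 1 < P by linarith)
    refine ⟨J, fun k hk s hs' => ?_⟩
    show |y k (τ + s / c) * (Q ^ k / b)| ≤ 2
    rw [abs_mul, abs_of_pos (div_pos (hQk k) hb)]
    have h3 := hC' k (τ + s / c) ⟨(hmap s hs').1, by
      have : s / c ≤ 5 / c := by gcongr; exact hs'.2
      linarith⟩
    have h1 : 0 < Q ^ k := pow_pos hQ0 k
    have h1P : 0 < P ^ k := pow_pos hP0 k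
    have h2 : C / b ≤ P ^ k := hJ.le.trans (hmonoP _ _ hk)
    rw [div_le_iff₀ hb] at h2
    rw [← hPQ k] at h3
    have h4 : |y k (τ + s / c)| * (Q ^ k / b) ≤ C / (P ^ k * Q ^ k) * (Q ^ k / b) := by
      have := (div_pos h1 hb).le
      gcongr
    have e1 : C / (P ^ k * Q ^ k) * (Q ^ k / b) = C / (P ^ k * b) := by field_simp
    rw [e1] at h4
    refine h4.trans ?_
    rw [div_le_iff₀ (by positivity)]
    have : 0 < P ^ k * b := by positivity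
    linarith

/-- One step of the induction. -/
theorem Sys.step (h : Sys R P Q Λ z G ℓ β T b N θ x y) (hb : 0 < b) (hβb : 8 * β ≤ ℓ * b) {n : ℕ} {τ A : ℝ}
    (hs : St Q z b x y n τ A) (hC : Cond R P Q Λ z G ℓ β b N n A) (hT : τ + 10 / (gG G Λ n * A) < T) :
    ∃ τ' A', St Q z b x y (n + 1) τ' A' ∧ Cond R P Q Λ z G ℓ β b N (n + 1) A' ∧
      τ' + 10 / (gG G Λ (n + 1) * A') ≤ τ + 10 / (gG G Λ n * A) ∧ 9 / 10 * qq * A ≤ A' := by
  have hA := hs.Apos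
  have hg := h.gpos n
  set c := gG G Λ n * A with hc
  have hc0 : 0 < c := mul_pos hg hA
  have hR0 := h.R0
  have hR := h.hR
  have hQ := h.hQ
  have hQ0 : 0 < Q := by linarith [show (0:ℝ) < 10 ^ 5 by norm_num]
  have hP := h.hP
  have hP0 : 0 < P := by linarith
  have hΛ := h.par.hΛ0
  have hz := h.par.hz
  have hqq := qq_pos
  have hqs : qq = 1 / 5000 := rfl
  have h5 : 5 / c ≤ 10 / c := by gcongr; norm_num
  have hst := h.stageIn hb hβb hs hC (by rw [← hc]; linarith)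
  rw [← hc] at hst
  obtain ⟨t, ht, a1, a2, a3, a4, a5, a6, a7, a8⟩ := hst.stage
  set τ' := τ + t / c with hτ'
  set A' := x (n + 1) τ' with hA'
  have hA1 : 9 / 10 * qq * A ≤ A' := by
    rw [le_div_iff₀ hA] at a1
    exact a1
  have hA'0 : 0 < A' := lt_of_lt_of_le (by positivity) hA1
  have hτ0 : 0 ≤ τ' := by
    have : 0 < t / c := div_pos ht.1 hc0
    linarith [hs.τ0]
  refine ⟨τ', A', ⟨hA'0, hτ0, rfl, ?_, ?_, ?_, ?_, ?_, ?_, ?_⟩, ⟨by have := hC.N; omega, ?_, ?_, ?_, ?_⟩, ?_, hA1⟩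
  · have e : x (n + 2) τ' = qq * A' := by
      have := a3
      rw [← mul_div_assoc, div_left_inj' hA.ne'] at this
      exact this
    show 19 / 20 * qq * A' ≤ x (n + 2) τ'
    rw [e]
    nlinarith [mul_pos hqq hA'0]
  · have e : x (n + 2) τ' = qq * A' := by
      have := a3
      rw [← mul_div_assoc, div_left_inj' hA.ne'] at this
      exact this
    show x (n + 2) τ' ≤ 21 / 20 * qq * A'
    rw [e]
    nlinarith [mul_pos hqq hA'0]
  · show -(z ^ 16 * qq / 10) * A' ≤ x (n + 3) τ'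
    rw [← mul_div_assoc, div_le_div_iff_of_pos_right hA] at a4
    exact a4
  · show x (n + 3) τ' ≤ z ^ 10 * A'
    rw [← mul_div_assoc, div_le_div_iff_of_pos_right hA] at a5
    exact a5
  · intro j
    have e : n + 1 + 3 + j = n + 4 + j := by omega
    rw [e]
    have := a6 j
    rw [abs_div, abs_of_pos hA, div_le_iff₀ hA] at this
    refine this.trans (le_of_eq ?_)
    field_simp
  · intro m hm
    have := a7 m (by omega)
    rw [abs_div, abs_of_pos hA, div_le_iff₀ hA] at this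
    refine this.trans (le_of_eq ?_)
    field_simp
  · intro k
    have h1 := a8 k
    have h2 : 0 < Q ^ k := pow_pos hQ0 k
    rw [abs_mul, abs_of_pos (div_pos h2 hb), ← mul_div_assoc, div_le_iff₀ hb] at h1
    show |y k τ'| ≤ _
    rw [← mul_div_assoc, le_div_iff₀ h2]
    exact h1
  · -- V
    have h1 := hC.V
    have h2 : R ^ 2 * A ≤ Λ * A' := by
      have h3 : 10 ^ 4 * R ^ 2 * (9 / 10 * qq * A) ≤ Λ * A' := by
        have := h.hRΛ
        gcongr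
      have h4 : R ^ 2 * A ≤ 10 ^ 4 * R ^ 2 * (9 / 10 * qq * A) := by
        have : 0 < R ^ 2 * A := by positivity
        rw [hqs]; linarith
      linarith
    have e1 : gG G Λ (n + 1) * A' = gG G Λ n * (Λ * A') := by unfold gG; ring
    have e2 : 1000 * ℓ * (R ^ (n + 1 + 2)) ^ 2 = R ^ 2 * (1000 * ℓ * (R ^ (n + 2)) ^ 2) := by ring
    rw [e1, e2]
    calc R ^ 2 * (1000 * ℓ * (R ^ (n + 2)) ^ 2) ≤ R ^ 2 * (gG G Λ n * A) := by gcongr
      _ = gG G Λ n * (R ^ 2 * A) := by ring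
      _ ≤ gG G Λ n * (Λ * A') := by gcongr
  · -- E
    have h1 := hC.E
    have hR2 : P * 10 ^ 5 ≤ R ^ 2 := by rw [← h.hPQ]; gcongr
    have h2 : P * A ^ 2 ≤ Λ * A' ^ 2 := by
      have h3 : 10 ^ 4 * R ^ 2 * (9 / 10 * qq * A) ^ 2 ≤ Λ * A' ^ 2 := by
        have := h.hRΛ
        gcongr
      have h4 : P * A ^ 2 ≤ 10 ^ 4 * R ^ 2 * (9 / 10 * qq * A) ^ 2 := by
        have h5 : 10 ^ 4 * R ^ 2 * (9 / 10 * qq * A) ^ 2 = R ^ 2 * (10 ^ 4 * (9 / 10 * qq) ^ 2 * A ^ 2) := by ring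
        rw [h5]
        have h6 : P * 10 ^ 5 * (10 ^ 4 * (9 / 10 * qq) ^ 2 * A ^ 2) ≤ R ^ 2 * (10 ^ 4 * (9 / 10 * qq) ^ 2 * A ^ 2) := by
          gcongr
        refine le_trans ?_ h6
        have h7 : P * 10 ^ 5 * (10 ^ 4 * (9 / 10 * qq) ^ 2 * A ^ 2) = (10 ^ 9 * (9 / 10 * qq) ^ 2) * (P * A ^ 2) := by
          ring
        have h8 : (1 : ℝ) ≤ 10 ^ 9 * (9 / 10 * qq) ^ 2 := by rw [hqs]; norm_num
        have : 0 < P * A ^ 2 := by positivity
        rw [h7]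
        nlinarith
      linarith
    have e1 : z ^ 40 * (gG G Λ (n + 1) * A' ^ 2) = z ^ 40 * (gG G Λ n * (Λ * A' ^ 2)) := by unfold gG; ring
    have e2 : β * P ^ (n + 1 + 3) = P * (β * P ^ (n + 3)) := by ring
    rw [e1, e2]
    calc P * (β * P ^ (n + 3)) ≤ P * (z ^ 40 * (gG G Λ n * A ^ 2)) := by gcongr
      _ = z ^ 40 * (gG G Λ n * (P * A ^ 2)) := by ring
      _ ≤ z ^ 40 * (gG G Λ n * (Λ * A' ^ 2)) := by gcongr
  · -- B
    have h1 := hC.B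
    have h2 : A ≤ Q * A' := by
      have h3 : 10 ^ 5 * (9 / 10 * qq * A) ≤ Q * A' := by gcongr
      have h4 : A ≤ 10 ^ 5 * (9 / 10 * qq * A) := by rw [hqs]; linarith
      linarith
    have e2 : b / Q ^ (n + 1 + 3) = (b / Q ^ (n + 3)) / Q := by rw [div_div]; ring
    rw [e2, div_le_iff₀ hQ0]
    calc b / Q ^ (n + 3) ≤ z ^ 40 * A := h1
      _ ≤ z ^ 40 * (Q * A') := by gcongr
      _ = z ^ 40 * A' * Q := by ring
  · intro k hk
    exact hC.F k (by omega)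
  · -- time
    have e1 : gG G Λ (n + 1) * A' = gG G Λ n * (Λ * A') := by unfold gG; ring
    have h2 : 2 * A ≤ Λ * A' := by
      have h3 : 10 ^ 14 * (9 / 10 * qq * A) ≤ Λ * A' := by
        have := h.par.hΛ
        gcongr
      have h4 : 2 * A ≤ 10 ^ 14 * (9 / 10 * qq * A) := by rw [hqs]; linarith
      linarith
    have h3 : 2 * c ≤ gG G Λ (n + 1) * A' := by
      rw [e1, hc]
      have : gG G Λ n * (2 * A) ≤ gG G Λ n * (Λ * A') := by gcongr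
      linarith
    have h4 : 10 / (gG G Λ (n + 1) * A') ≤ 10 / (2 * c) := by gcongr
    have h5 : t / c ≤ 5 / c := by gcongr; exact ht.2
    have h6 : 10 / (2 * c) = 5 / c := by field_simp; norm_num
    have h7 : 5 / c + 5 / c = 10 / c := by ring
    rw [hτ']
    linarith

/-- The cascade reaches infinite frequency before the time `T`. -/
theorem Sys.blowup (h : Sys R P Q Λ z G ℓ β T b N θ x y) (hb : 0 < b) (hβb : 8 * β ≤ ℓ * b) {n0 : ℕ} {A0 : ℝ}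
    (hs : St Q z b x y n0 0 A0) (hC : Cond R P Q Λ z G ℓ β b N n0 A0) (hT : 10 / (gG G Λ n0 * A0) < T) : False := by
  have hqq := qq_pos
  have hqs : qq = 1 / 5000 := rfl
  have hR0 := h.R0
  have key : ∀ k : ℕ, ∃ τ A, St Q z b x y (n0 + k) τ A ∧ Cond R P Q Λ z G ℓ β b N (n0 + k) A ∧
      τ + 10 / (gG G Λ (n0 + k) * A) ≤ 10 / (gG G Λ n0 * A0) ∧ (9 / 10 * qq) ^ k * A0 ≤ A := by
    intro k
    induction k with
    | zero => exact ⟨0, A0, hs, hC, by simp, by simp⟩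
    | succ k ih =>
      obtain ⟨τ, A, h1, h2, h3, h4⟩ := ih
      obtain ⟨τ', A', g1, g2, g3, g4⟩ := h.step hb hβb h1 h2 (lt_of_le_of_lt h3 hT)
      refine ⟨τ', A', g1, g2, g3.trans h3, ?_⟩
      calc (9 / 10 * qq) ^ (k + 1) * A0 = 9 / 10 * qq * ((9 / 10 * qq) ^ k * A0) := by ring
        _ ≤ 9 / 10 * qq * A := by gcongr
        _ ≤ A' := g4
  obtain ⟨C, hCd⟩ := h.dec (10 / (gG G Λ n0 * A0)) hT
  have hA0 := hs.Apos
  have hbound : ∀ k : ℕ, (2 : ℝ) ^ k * (A0 * (R ^ n0) ^ 2) ≤ C := by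
    intro k
    obtain ⟨τ, A, h1, _, h3, h4⟩ := key k
    have hg := h.gpos (n0 + k)
    have hτ : τ ∈ Icc 0 (10 / (gG G Λ n0 * A0)) := by
      refine ⟨h1.τ0, ?_⟩
      have : 0 < 10 / (gG G Λ (n0 + k) * A) := div_pos (by norm_num) (mul_pos hg h1.Apos)
      linarith
    have h5 := hCd (n0 + k) τ hτ
    rw [h1.x0, abs_of_pos h1.Apos, le_div_iff₀ (by positivity)] at h5
    have h6 : (2 : ℝ) ^ k * (A0 * (R ^ n0) ^ 2) ≤ (9 / 10 * qq) ^ k * A0 * (R ^ (n0 + k)) ^ 2 := by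
      have e : (9 / 10 * qq) ^ k * A0 * (R ^ (n0 + k)) ^ 2 = (9 / 10 * qq * R ^ 2) ^ k * (A0 * (R ^ n0) ^ 2) := by
        rw [mul_pow, pow_add]
        ring
      rw [e]
      have h7 : (2 : ℝ) ≤ 9 / 10 * qq * R ^ 2 := by
        have h8 : 9 / 10 * qq * (2 * 10 ^ 5) ≤ 9 / 10 * qq * R ^ 2 := by
          have := h.hP
          have := h.hQ
          rw [← h.hPQ]
          gcongr
        have h9 : (2 : ℝ) ≤ 9 / 10 * qq * (2 * 10 ^ 5) := by rw [hqs]; norm_num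
        linarith
      gcongr
    calc (2 : ℝ) ^ k * (A0 * (R ^ n0) ^ 2) ≤ (9 / 10 * qq) ^ k * A0 * (R ^ (n0 + k)) ^ 2 := h6
      _ ≤ A * (R ^ (n0 + k)) ^ 2 := by gcongr
      _ ≤ C := h5
  obtain ⟨k, hk⟩ := pow_unbounded_of_one_lt (C / (A0 * (R ^ n0) ^ 2)) (show (1 : ℝ) < 2 by norm_num)
  rw [div_lt_iff₀ (by positivity)] at hk
  exact absurd (hbound k) (not_le.2 hk)

end Pool.Agent.N980.WQ
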