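import Pool.Agent.N980.WQ.Alt
import Pool.Agent.N980.WP.Der

/-!
The coefficients of the packets, of their curls and double curls.
-/

open MeasureTheory Set Filter Topology
open scoped ContDiff

set_option linter.unusedVariables false

namespace Pool.Agent.N980.WQ

open Pool.Agent.N980.NU
open Pool.Agent.N980.WP
open Pool.Agent.N980.CB (one_le_R R_pos inn out FF energy_nonneg parseval)
open Pool.Agent.H356R3.NS (K C3 E3 R3 ex SN Sym RD TT SF SFam Fam cf' at' nk pw fj dS Bf dt)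

variable (P : Pm)

theorem psi_eq (n : ℕ) (k : K) : P.X.ψ n k = ![0, 0, (pc (P.R ^ n) (P.L n) k : ℂ)] := by
  show pψ (P.R ^ n) (P.L n) k = _
  funext i
  fin_cases i <;> simp [pψ]

theorem qpsi_eq (n : ℕ) (k : K) : (qX P).ψ n k
    = ![Complex.I * ((k 1 : ℂ) * (pc (P.R ^ n) (P.L n) k : ℂ)) / (P.R : ℂ) ^ n,
      -(Complex.I * ((k 0 : ℂ) * (pc (P.R ^ n) (P.L n) k : ℂ)) / (P.R : ℂ) ^ n), 0] := by
  show cl ((P.R : ℝ) ^ n) k (P.X.ψ n k) = _
  rw [psi_eq]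
  funext i
  fin_cases i
  · simp [cl]
  · simp [cl]
    ring
  · simp [cl]

theorem spsi_eq (n : ℕ) (k : K) : (sX P).ψ n k
    = ![0, 0, ((((k 0 : ℝ) ^ 2 + (k 1 : ℝ) ^ 2) / ((P.R : ℝ) ^ n) ^ 2 * pc (P.R ^ n) (P.L n) k : ℝ) : ℂ)] := by
  show cl ((P.R : ℝ) ^ n) k ((qX P).ψ n k) = _
  rw [qpsi_eq]
  have hR : (P.R : ℂ) ^ n ≠ 0 := by
    have := R_pos P.wh.wd.hR n
    exact_mod_cast this.ne'
  by_cases hk : pc (P.R ^ n) (P.L n) k = 0
  · funext i
    rw [hk]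
    fin_cases i <;> simp [cl]
  · have h2 := (P.wh.supp hk).2.2.2
    funext i
    fin_cases i
    · simp [cl, h2]
    · simp [cl, h2]
    · simp only [cl, h2, Fin.reduceFinMk, Matrix.cons_val, Matrix.cons_val_zero, Matrix.cons_val_one]
      push_cast
      field_simp
      ring_nf
      rw [Complex.I_sq]
      ring

/-! ### orthogonality -/

theorem fco_F' {R : ℕ} {ℓ : ℕ → ℝ} (X : Fm R ℓ) (Y : Fm R ℓ) (m n : ℕ) :
    Y.cs (X.F m) n = (∑' k, ∑ i, X.ψ m k i * star (Y.ψ n k i)).re := by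
  rw [Y.cs_eq (X.spv m).cont, X.fco_F]
  rfl

theorem co_q (m n : ℕ) : P.co ((qX P).F m) n = 0 := by
  rw [← P.cs_eq, fco_F']
  have : ∀ k : K, ∑ i, (qX P).ψ m k i * star (P.X.ψ n k i) = 0 := by
    intro k
    rw [qpsi_eq, psi_eq, Fin.sum_univ_three]
    simp
  rw [tsum_congr this, tsum_zero, Complex.zero_re]

theorem qo_p (m n : ℕ) : qo P (P.X.F m) n = 0 := by
  unfold qo
  rw [fco_F']
  have : ∀ k : K, ∑ i, P.X.ψ m k i * star ((qX P).ψ n k i) = 0 := by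
    intro k
    rw [qpsi_eq, psi_eq, Fin.sum_univ_three]
    simp
  rw [tsum_congr this, tsum_zero, Complex.zero_re]

/-- The square of the norm of the curl of the packet. -/
noncomputable def th (n : ℕ) : ℝ := qo P ((qX P).F n) n

theorem qo_q (m n : ℕ) : qo P ((qX P).F m) n = if m = n then th P n else 0 := by
  by_cases hmn : m = n
  · subst hmn; rw [if_pos rfl]; rfl
  · rw [if_neg hmn]
    unfold qo
    rw [fco_F']
    have : ∀ k : K, ∑ i, (qX P).ψ m k i * star ((qX P).ψ n k i) = 0 := by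
      intro k
      by_cases h1 : (qX P).ψ m k = 0
      · rw [h1]; simp
      · by_cases h2 : (qX P).ψ n k = 0
        · rw [h2]; simp
        · exact absurd (((qX P).lv m k h1).1.symm.trans ((qX P).lv n k h2).1) hmn
    rw [tsum_congr this, tsum_zero, Complex.zero_re]

theorem qpsi_sq (n : ℕ) (k : K) : ∑ i, ‖(qX P).ψ n k i‖ ^ 2
    = ((k 0 : ℝ) ^ 2 + (k 1 : ℝ) ^ 2) / ((P.R : ℝ) ^ n) ^ 2 * pc (P.R ^ n) (P.L n) k ^ 2 := by
  rw [qpsi_eq, Fin.sum_univ_three]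
  have hR := R_pos P.wh.wd.hR n
  have hp := pc_nonneg (P.R ^ n) (P.L n) k
  simp only [Matrix.cons_val_zero, Matrix.cons_val_one, Matrix.cons_val, norm_neg, norm_div, norm_mul, Complex.norm_I,
    one_mul, Complex.norm_intCast, norm_pow, Complex.norm_natCast, norm_zero, Complex.norm_real, Real.norm_eq_abs]
  rw [abs_of_nonneg hp, div_pow, div_pow, mul_pow, mul_pow, sq_abs, sq_abs]
  ring

theorem kk_bd (n : ℕ) {k : K} (hk : pc (P.R ^ n) (P.L n) k ≠ 0) :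
    1 / 4 ≤ ((k 0 : ℝ) ^ 2 + (k 1 : ℝ) ^ 2) / ((P.R : ℝ) ^ n) ^ 2 ∧
      ((k 0 : ℝ) ^ 2 + (k 1 : ℝ) ^ 2) / ((P.R : ℝ) ^ n) ^ 2 ≤ 5 / 2 := by
  obtain ⟨h1, h2, h3, h4⟩ := P.wh.suppR hk
  have hR := R_pos P.wh.wd.hR n
  have a0 := abs_nonneg (k 0 : ℝ)
  have a1 := abs_nonneg (k 1 : ℝ)
  rw [← sq_abs (k 0 : ℝ), ← sq_abs (k 1 : ℝ)]
  constructor
  · rw [le_div_iff₀ (by positivity)]
    nlinarith
  · rw [div_le_iff₀ (by positivity)]
    nlinarith

theorem th_eq (n : ℕ) : th P n = ∑' k, ∑ i, ‖(qX P).ψ n k i‖ ^ 2 := by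
  unfold th qo
  rw [fco_F']
  have : ∀ k : K, ∑ i, (qX P).ψ n k i * star ((qX P).ψ n k i) = ((∑ i, ‖(qX P).ψ n k i‖ ^ 2 : ℝ) : ℂ) := by
    intro k
    rw [Complex.ofReal_sum]
    refine Finset.sum_congr rfl fun i _ => ?_
    rw [Complex.star_def, Complex.mul_conj, Complex.normSq_eq_norm_sq]
  rw [tsum_congr this, ← Complex.ofReal_tsum, Complex.ofReal_re]

theorem pc_summ (n : ℕ) : Summable fun k : K => pc (P.R ^ n) (P.L n) k ^ 2 := by
  have h := P.X.summ n (fun k v => ‖v 2‖ ^ 2) (by simp)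
  refine h.congr fun k => ?_
  rw [psi_eq]
  simp

theorem th_le (n : ℕ) : th P n ≤ 5 / 2 := by
  rw [th_eq]
  simp only [qpsi_sq]
  have h1 := pc_l2 (P.wh.lt n)
  have h2 := pc_summ P n
  have h3 : ∀ k : K, ((k 0 : ℝ) ^ 2 + (k 1 : ℝ) ^ 2) / ((P.R : ℝ) ^ n) ^ 2 * pc (P.R ^ n) (P.L n) k ^ 2
      ≤ 5 / 2 * pc (P.R ^ n) (P.L n) k ^ 2 := by
    intro k
    by_cases hk : pc (P.R ^ n) (P.L n) k = 0
    · rw [hk]; simp
    · have := (kk_bd P n hk).2
      gcongr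
  have h4 : Summable fun k : K => ((k 0 : ℝ) ^ 2 + (k 1 : ℝ) ^ 2) / ((P.R : ℝ) ^ n) ^ 2 * pc (P.R ^ n) (P.L n) k ^ 2 :=
    (h2.mul_left (5 / 2)).of_nonneg_of_le (fun k => by positivity) h3
  refine (h4.tsum_le_tsum h3 (h2.mul_left _)).trans ?_
  rw [tsum_mul_left, h1, mul_one]

theorem th_ge (n : ℕ) : 1 / 4 ≤ th P n := by
  rw [th_eq]
  simp only [qpsi_sq]
  have h1 := pc_l2 (P.wh.lt n)
  have h2 := pc_summ P n
  have h3 : ∀ k : K, ((k 0 : ℝ) ^ 2 + (k 1 : ℝ) ^ 2) / ((P.R : ℝ) ^ n) ^ 2 * pc (P.R ^ n) (P.L n) k ^ 2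
      ≤ 5 / 2 * pc (P.R ^ n) (P.L n) k ^ 2 := by
    intro k
    by_cases hk : pc (P.R ^ n) (P.L n) k = 0
    · rw [hk]; simp
    · have := (kk_bd P n hk).2
      gcongr
  have h3' : ∀ k : K, 1 / 4 * pc (P.R ^ n) (P.L n) k ^ 2
      ≤ ((k 0 : ℝ) ^ 2 + (k 1 : ℝ) ^ 2) / ((P.R : ℝ) ^ n) ^ 2 * pc (P.R ^ n) (P.L n) k ^ 2 := by
    intro k
    by_cases hk : pc (P.R ^ n) (P.L n) k = 0
    · rw [hk]; simp
    · have := (kk_bd P n hk).1
      gcongr
  have h4 : Summable fun k : K => ((k 0 : ℝ) ^ 2 + (k 1 : ℝ) ^ 2) / ((P.R : ℝ) ^ n) ^ 2 * pc (P.R ^ n) (P.L n) k ^ 2 :=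
    (h2.mul_left (5 / 2)).of_nonneg_of_le (fun k => by positivity) h3
  refine le_trans ?_ ((h2.mul_left _).tsum_le_tsum h3' h4)
  rw [tsum_mul_left, h1, mul_one]

/-! ### the equations of the coefficients -/

theorem hasSum_z {A B : ℕ → ℝ} {S : ℝ}
    (h : HasSum (fun n => A n * (if 0 = n + 1 then (1 : ℝ) else 0) + B n * (if 0 = n then (1 : ℝ) else 0)) S) :
    S = B 0 := by
  have h2 := hasSum_single (f := fun n => A n * (if 0 = n + 1 then (1 : ℝ) else 0) + B n * (if 0 = n then (1 : ℝ) else 0))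
    0 fun n hn => by
      have a1 : ¬(0 = n + 1) := by omega
      have a2 : ¬(0 = n) := by omega
      simp only [if_neg a1, if_neg a2]; ring
  rw [h.unique h2]
  simp

theorem hasSum_s {A B : ℕ → ℝ} {S : ℝ} {m : ℕ}
    (h : HasSum (fun n => A n * (if m + 1 = n + 1 then (1 : ℝ) else 0) + B n * (if m + 1 = n then (1 : ℝ) else 0)) S) :
    S = A m + B (m + 1) := by
  have h2 : HasSum (fun n => A n * (if m + 1 = n + 1 then (1 : ℝ) else 0) + B n * (if m + 1 = n then (1 : ℝ) else 0))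
      (∑ n ∈ ({m, m + 1} : Finset ℕ), (A n * (if m + 1 = n + 1 then (1 : ℝ) else 0)
        + B n * (if m + 1 = n then (1 : ℝ) else 0))) := by
    refine hasSum_sum_of_ne_finset_zero fun n hn => ?_
    have h3 : n ≠ m := fun h => hn (by simp [h])
    have h4 : n ≠ m + 1 := fun h => hn (by simp [h])
    have a1 : ¬(m + 1 = n + 1) := by omega
    have a2 : ¬(m + 1 = n) := by omega
    simp only [if_neg a1, if_neg a2]
    ring
  rw [h.unique h2, Finset.sum_pair (by omega)]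
  have a1 : ¬(m + 1 = m) := by omega
  have a2 : ¬(m + 1 = m + 1 + 1) := by omega
  simp only [if_true, if_neg a1, if_neg a2]
  ring

/-- The error of the first family of coefficients. -/
noncomputable def eP (g1 g0 δ Ri R p0 p1 p2 q0 q1 q2 s0 s1 s2 : ℝ) : ℝ :=
  -(g1 * ((s2 - p2) * p2)) - δ * (g1 * ((s1 - p1) * p2)) + (g0 * ((s1 - p1) * p0) + δ * (g0 * ((s0 - p0) * p0)))
    + (g1 * q2 ^ 2 + δ * R * g1 * (q2 * q1)) + (-(Ri * (g0 * (q0 * q1))) - δ * (g0 * q0 ^ 2))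

theorem eP_le {g1 g0 δ Ri R p0 p1 p2 q0 q1 q2 s0 s1 s2 : ℝ} (hg1 : 0 ≤ g1) (hg2 : 0 ≤ g0) (hδ0 : 0 ≤ δ)
    (hδ1 : δ ≤ 1) (hRi0 : 0 ≤ Ri) (hRi : Ri ≤ 1) (hR : 0 ≤ R) :
    |eP g1 g0 δ Ri R p0 p1 p2 q0 q1 q2 s0 s1 s2| ≤ g1 * (|s2 - p2| * |p2|) + g1 * (|s1 - p1| * |p2|)
      + (g0 * (|s1 - p1| * |p0|) + g0 * (|s0 - p0| * |p0|)) + (g1 * q2 ^ 2 + δ * R * g1 * (|q2| * |q1|))
      + (g0 * (|q0| * |q1|) + g0 * q0 ^ 2) := by
  unfold eP
  have b1 : |-(g1 * ((s2 - p2) * p2))| ≤ g1 * (|s2 - p2| * |p2|) := by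
    rw [abs_neg, abs_mul, abs_mul, abs_of_nonneg hg1]
  have b2 : |δ * (g1 * ((s1 - p1) * p2))| ≤ g1 * (|s1 - p1| * |p2|) := by
    rw [abs_mul, abs_mul, abs_mul, abs_of_nonneg hg1, abs_of_nonneg hδ0]
    exact mul_le_of_le_one_left (by positivity) hδ1
  have b3 : |g0 * ((s1 - p1) * p0)| ≤ g0 * (|s1 - p1| * |p0|) := by
    rw [abs_mul, abs_mul, abs_of_nonneg hg2]
  have b4 : |δ * (g0 * ((s0 - p0) * p0))| ≤ g0 * (|s0 - p0| * |p0|) := by
    rw [abs_mul, abs_mul, abs_mul, abs_of_nonneg hg2, abs_of_nonneg hδ0]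
    exact mul_le_of_le_one_left (by positivity) hδ1
  have b5 : |g1 * q2 ^ 2| ≤ g1 * q2 ^ 2 := by
    rw [abs_of_nonneg (mul_nonneg hg1 (sq_nonneg _))]
  have b6 : |δ * R * g1 * (q2 * q1)| ≤ δ * R * g1 * (|q2| * |q1|) := by
    rw [abs_mul, abs_mul q2, abs_of_nonneg (by positivity)]
  have b7 : |Ri * (g0 * (q0 * q1))| ≤ g0 * (|q0| * |q1|) := by
    rw [abs_mul, abs_mul, abs_mul, abs_of_nonneg hg2, abs_of_nonneg hRi0]
    exact mul_le_of_le_one_left (by positivity) hRi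
  have b8 : |δ * (g0 * q0 ^ 2)| ≤ g0 * q0 ^ 2 := by
    rw [abs_mul, abs_mul, abs_of_nonneg hg2, abs_of_nonneg hδ0, abs_of_nonneg (sq_nonneg q0)]
    exact mul_le_of_le_one_left (by positivity) hδ1
  rw [abs_neg] at b1
  rw [abs_le] at b1 b2 b3 b4 b5 b6 b7 b8 ⊢
  constructor
  · linarith [b1.1, b1.2, b2.1, b2.2, b3.1, b3.2, b4.1, b4.2, b5.1, b5.2, b6.1, b6.2, b7.1, b7.2, b8.1, b8.2]
  · linarith [b1.1, b1.2, b2.1, b2.2, b3.1, b3.2, b4.1, b4.2, b5.1, b5.2, b6.1, b6.2, b7.1, b7.2, b8.1, b8.2]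

theorem kT_co0 {u : V → V} (hu : SPV u) :
    ip (KQ (kT P) u u) (P.X.F 0) = -(P.g 0 * (P.δ * P.co u 0 + P.co u 1) * P.co u 1)
      + eP (P.g 0) 0 P.δ (P.R : ℝ)⁻¹ P.R 0 (P.co u 0) (P.co u 1) 0 (qo P u 0) (qo P u 1) 0 (so P u 0) (so P u 1) := by
  have h1 := kT_form P hu hu (P.X.spv 0)
  simp only [P.co_F, qo_p, mul_zero, sub_zero, zero_sub] at h1
  generalize P.co u = p at h1 ⊢
  generalize qo P u = q at h1 ⊢
  generalize so P u = s at h1 ⊢
  have h2 := hasSum_z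
    (A := fun n => -((P.R : ℝ)⁻¹ * P.g n * q n * q (n + 1)) + P.g n * s (n + 1) * p n - P.δ * P.g n * q n * q n
      + P.δ * P.g n * s n * p n)
    (B := fun n => P.g n * q (n + 1) * q (n + 1) - P.g n * s (n + 1) * p (n + 1)
      + P.δ * P.R * P.g n * q (n + 1) * q n - P.δ * P.g n * s n * p (n + 1)) (h1.congr_fun fun n => by ring)
  rw [h2]
  unfold eP
  simp only [zero_add]
  ring

theorem kT_co1 {u : V → V} (hu : SPV u) (m : ℕ) :
    ip (KQ (kT P) u u) (P.X.F (m + 1)) = P.g m * (P.δ * P.co u m + P.co u (m + 1)) * P.co u m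
      - P.g (m + 1) * (P.δ * P.co u (m + 1) + P.co u (m + 2)) * P.co u (m + 2)
      + eP (P.g (m + 1)) (P.g m) P.δ (P.R : ℝ)⁻¹ P.R (P.co u m) (P.co u (m + 1)) (P.co u (m + 2))
        (qo P u m) (qo P u (m + 1)) (qo P u (m + 2)) (so P u m) (so P u (m + 1)) (so P u (m + 2)) := by
  have h1 := kT_form P hu hu (P.X.spv (m + 1))
  simp only [P.co_F, qo_p, mul_zero, sub_zero, zero_sub] at h1
  generalize P.co u = p at h1 ⊢
  generalize qo P u = q at h1 ⊢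
  generalize so P u = s at h1 ⊢
  have h2 := hasSum_s
    (A := fun n => -((P.R : ℝ)⁻¹ * P.g n * q n * q (n + 1)) + P.g n * s (n + 1) * p n - P.δ * P.g n * q n * q n
      + P.δ * P.g n * s n * p n)
    (B := fun n => P.g n * q (n + 1) * q (n + 1) - P.g n * s (n + 1) * p (n + 1)
      + P.δ * P.R * P.g n * q (n + 1) * q n - P.δ * P.g n * s n * p (n + 1)) (h1.congr_fun fun n => by ring)
  rw [h2]
  have e2 : m + 1 + 1 = m + 2 := rfl
  rw [e2]
  unfold eP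
  ring

theorem kT_qo {u : ℝ → V → V} {t : ℝ} (hu : SPV (u t)) (m : ℕ) :
    ip (KQ (kT P) (u t) (u t)) ((qX P).F m)
      = th P m * qi P.g P.δ (P.R : ℝ)⁻¹ P.R (fun k s => P.co (u s) k) (fun k s => qo P (u s) k) m t := by
  have h1 := kT_form P hu hu ((qX P).spv m)
  simp only [co_q, qo_q, mul_zero, sub_zero, zero_sub] at h1
  have hth : ∀ n, (if m = n then th P n else 0) = th P m * (if m = n then (1 : ℝ) else 0) := by
    intro n
    split_ifs with h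
    · rw [h, mul_one]
    · rw [mul_zero]
  simp only [hth] at h1
  cases m with
  | zero =>
    simp only [qi]
    show _ = th P 0 * (P.δ * P.g 0 * (P.co (u t) 1 * qo P (u t) 0 - P.R * (P.co (u t) 0 * qo P (u t) 1)))
    generalize P.co (u t) = p at h1 ⊢
    generalize qo P (u t) = q at h1 ⊢
    have h2 := hasSum_z
      (A := fun n => (P.R : ℝ)⁻¹ * P.g n * q n * (p (n + 1) * th P 0) - P.g n * q (n + 1) * (p n * th P 0))
      (B := fun n => P.δ * P.g n * q n * (p (n + 1) * th P 0) - P.δ * P.R * P.g n * q (n + 1) * (p n * th P 0))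
      (h1.congr_fun fun n => by ring)
    rw [h2]
    simp only [zero_add]
    ring
  | succ m =>
    simp only [qi]
    show _ = th P (m + 1) * (P.g m * ((P.R : ℝ)⁻¹ * (P.co (u t) (m + 1) * qo P (u t) m) - P.co (u t) m * qo P (u t) (m + 1))
      + P.δ * P.g (m + 1) * (P.co (u t) (m + 2) * qo P (u t) (m + 1) - P.R * (P.co (u t) (m + 1) * qo P (u t) (m + 2))))
    generalize P.co (u t) = p at h1 ⊢
    generalize qo P (u t) = q at h1 ⊢
    have h2 := hasSum_s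
      (A := fun n => (P.R : ℝ)⁻¹ * P.g n * q n * (p (n + 1) * th P (m + 1)) - P.g n * q (n + 1) * (p n * th P (m + 1)))
      (B := fun n => P.δ * P.g n * q n * (p (n + 1) * th P (m + 1))
        - P.δ * P.R * P.g n * q (n + 1) * (p n * th P (m + 1)))
      (h1.congr_fun fun n => by ring)
    rw [h2]
    have e2 : m + 1 + 1 = m + 2 := rfl
    rw [e2]
    ring

/-! ### the double curl and the Laplacian -/

theorem sX_lap (n : ℕ) : (sX P).F n = (-(1 / (4 * Real.pi ^ 2 * ((P.R : ℝ) ^ n) ^ 2))) • lap (P.X.F n) := by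
  have hR := R_pos P.wh.wd.hR n
  have hpi := Real.pi_pos
  funext x
  have h1 := lap_fd (P.X.fin n) 0 x
  rw [zero_smul, add_zero] at h1
  rw [Pi.smul_apply]
  have h2 : lap (P.X.F n) x = fd (df 0 (P.X.ψ n)) x := h1
  rw [h2]
  funext i
  rw [Pi.smul_apply, smul_eq_mul]
  show (fs (fun k => (sX P).ψ n k i) x).re = _ * (fs (fun k => df 0 (P.X.ψ n) k i) x).re
  rw [← Complex.re_ofReal_mul, ← fs_smul']
  congr 2
  funext k
  unfold df
  by_cases hk : pc (P.R ^ n) (P.L n) k = 0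
  · rw [spsi_eq, psi_eq, hk]
    fin_cases i <;> simp
  · have h2 := (P.wh.supp hk).2.2.2
    have hsq : H356R3.NS.sq k = (k 0 : ℝ) ^ 2 + (k 1 : ℝ) ^ 2 := by
      unfold H356R3.NS.sq
      rw [Fin.sum_univ_three, h2]
      simp
    rw [spsi_eq, psi_eq, hsq]
    have hRc : (P.R : ℂ) ^ n ≠ 0 := by exact_mod_cast hR.ne'
    have hpc : (Real.pi : ℂ) ≠ 0 := by exact_mod_cast hpi.ne'
    fin_cases i
    · simp
    · simp
    · simp only [Fin.reduceFinMk, Matrix.cons_val, Pi.smul_apply, Complex.real_smul]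
      push_cast
      field_simp
      ring

/-- The double curl is close to the packet. -/
theorem so_close {v : V → V} (hv : SPV v) (n : ℕ) :
    |so P v n - P.co v n| ≤ 1 / (4 * Real.pi ^ 2 * ((P.R : ℝ) ^ n) ^ 2)
      * (120 * ((P.R : ℝ) ^ n * wd P.L n) * Real.sqrt (energy v)) := by
  have hR := R_pos P.wh.wd.hR n
  have hpi := Real.pi_pos
  have h1 : so P v n = -(1 / (4 * Real.pi ^ 2 * ((P.R : ℝ) ^ n) ^ 2)) * ip v (lap (P.X.F n)) := by
    unfold so Fm.cs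
    rw [sX_lap, ip_comm, ip_smul, ip_comm]
  have h2 := PX_lap P.wh hv n
  have h3 : (PX P.wh).cs v n = P.co v n := P.cs_eq v n
  rw [h3] at h2
  set μ := 4 * Real.pi ^ 2 * ((P.R : ℝ) ^ n) ^ 2 with hμ
  have hμ0 : 0 < μ := by positivity
  have e : so P v n - P.co v n = -(1 / μ) * (ip v (lap ((PX P.wh).F n)) + μ * P.co v n) := by
    rw [h1]
    have : ip v (lap ((PX P.wh).F n)) = ip v (lap (P.X.F n)) := rfl
    rw [this]
    field_simp
    ring
  rw [e, abs_mul, abs_neg, abs_of_pos (by positivity)]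
  gcongr

theorem df_energy' {a : K → C3} (ha : (Function.support a).Finite) (hs : Sym a) {μ D M : ℝ} (hD : 0 ≤ D)
    (h : ∀ k, a k ≠ 0 → |μ - 4 * Real.pi ^ 2 * H356R3.NS.sq k| ≤ D) (h2 : ∑' k, ∑ i, ‖a k i‖ ^ 2 ≤ M) :
    energy (fd (df μ a)) ≤ D ^ 2 * M := by
  have hfin := df_fin ha μ
  have hspv : SPV (fd (df μ a)) := SPV_fd (fin_RD hfin)
  have hf : fco (fd (df μ a)) = df μ a := by
    funext k i
    exact fco_fs (fin_SN hfin) (df_sym μ hs) k i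
  rw [parseval hspv]
  have e : ∀ k, e2 (fd (df μ a)) k ^ 2 ≤ D ^ 2 * ∑ i, ‖a k i‖ ^ 2 := by
    intro k
    rw [e2_sq, hf, Finset.mul_sum]
    refine Finset.sum_le_sum fun i _ => ?_
    unfold df
    rw [Pi.smul_apply, norm_smul, mul_pow, Real.norm_eq_abs]
    by_cases hk : a k = 0
    · rw [hk]; simp
    · have := h k hk
      gcongr
  have s1 : Summable fun k => ∑ i, ‖a k i‖ ^ 2 := summable_of_hasFiniteSupport (ha.subset fun k hk => by
    intro h0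
    exact hk (by simp [h0]))
  calc ∑' k, e2 (fd (df μ a)) k ^ 2 ≤ ∑' k, D ^ 2 * ∑ i, ‖a k i‖ ^ 2 :=
        (CB.e2_summ hspv).tsum_le_tsum e (s1.mul_left _)
    _ = D ^ 2 * ∑' k, ∑ i, ‖a k i‖ ^ 2 := tsum_mul_left
    _ ≤ D ^ 2 * M := by gcongr

/-- The Laplacian of the curl of a packet tested against a field. -/
theorem qX_lap {v : V → V} (hv : SPV v) (n : ℕ) :
    |ip v (lap ((qX P).F n)) + 4 * Real.pi ^ 2 * ((P.R : ℝ) ^ n) ^ 2 * qo P v n|
      ≤ 240 * ((P.R : ℝ) ^ n * wd P.L n) * Real.sqrt (energy v) := by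
  set μ : ℝ := 4 * Real.pi ^ 2 * ((P.R : ℝ) ^ n) ^ 2 with hμ
  set F := (qX P).F n with hF
  have hFs : SPV F := (qX P).spv n
  have hw := P.wh.wd
  have hR0 := R_pos hw.hR n
  have hwp := hw.pos n
  have e1 : ip v (lap F) + μ * qo P v n = ip v (fd (df μ ((qX P).ψ n))) := by
    have h1 : lap F + μ • F = fd (df μ ((qX P).ψ n)) := by
      funext x
      exact lap_fd ((qX P).fin n) μ x
    rw [← h1, ip_comm v (lap F + μ • F), ip_add (SPV.lap hFs).cont (hFs.cont.const_smul μ) hv.cont,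
      ip_smul, ip_comm (lap F), ip_comm F]
    rfl
  rw [e1]
  have h2 : energy (fd (df μ ((qX P).ψ n))) ≤ (120 * ((P.R : ℝ) ^ n * wd P.L n)) ^ 2 * (5 / 2) := by
    refine df_energy' ((qX P).fin n) ((qX P).sym n) (by positivity) (fun k hk => ?_) ?_
    · refine P.wh.sq_le ?_
      intro h0
      apply hk
      rw [qpsi_eq, h0]
      funext i
      fin_cases i <;> simp
    · rw [← th_eq]
      exact th_le P n
  have h3 := ip_cs hv (SPV_fd (fin_RD (df_fin ((qX P).fin n) μ)))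
  have h4 : Real.sqrt (energy (fd (df μ ((qX P).ψ n)))) ≤ 240 * ((P.R : ℝ) ^ n * wd P.L n) :=
    Real.sqrt_le_iff.2 ⟨by positivity, h2.trans (by nlinarith [mul_pos hR0 hwp])⟩
  calc _ ≤ _ := h3
    _ ≤ Real.sqrt (energy v) * (240 * ((P.R : ℝ) ^ n * wd P.L n)) := by gcongr
    _ = _ := by ring

end Pool.Agent.N980.WQ
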