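import Pool.Agent.N980.WP.Op
import Pool.Agent.N980.NU.Kp2

/-!
The curl of a family of packets.
-/

open MeasureTheory Set Filter Topology
open scoped ContDiff

set_option linter.unusedVariables false

namespace Pool.Agent.N980.WQ

open Pool.Agent.N980.NU
open Pool.Agent.N980.WP
open Pool.Agent.N980.CB (one_le_R R_pos)
open Pool.Agent.H356R3.NS (K C3 E3 R3 ex SN Sym RD TT SF SFam Fam cf' at' nk pw fj dS Bf dt)

/-- The curl on the Fourier side, divided by `2πN`. -/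
noncomputable def cl (N : ℝ) (k : K) (a : C3) : C3 :=
  ![Complex.I * ((k 1 : ℂ) * a 2 - (k 2 : ℂ) * a 1) / N, Complex.I * ((k 2 : ℂ) * a 0 - (k 0 : ℂ) * a 2) / N,
    Complex.I * ((k 0 : ℂ) * a 1 - (k 1 : ℂ) * a 0) / N]

theorem cl_zero (N : ℝ) (k : K) : cl N k 0 = 0 := by
  funext i
  fin_cases i <;> simp [cl]

theorem pair_le {N c : ℝ} (hN : 0 < N) {p q : ℤ} (hp : |(p : ℝ)| ≤ c * N) (hq : |(q : ℝ)| ≤ c * N) (a b : ℂ) :
    ‖Complex.I * ((p : ℂ) * a - (q : ℂ) * b) / N‖ ≤ c * (‖a‖ + ‖b‖) := by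
  rw [norm_div, norm_mul, Complex.norm_I, one_mul, Complex.norm_real, Real.norm_eq_abs, abs_of_pos hN,
    div_le_iff₀ hN]
  calc ‖(p : ℂ) * a - (q : ℂ) * b‖ ≤ ‖(p : ℂ) * a‖ + ‖(q : ℂ) * b‖ := norm_sub_le _ _
    _ = |(p : ℝ)| * ‖a‖ + |(q : ℝ)| * ‖b‖ := by rw [norm_mul, norm_mul, Complex.norm_intCast, Complex.norm_intCast]
    _ ≤ c * N * ‖a‖ + c * N * ‖b‖ := by gcongr
    _ = c * (‖a‖ + ‖b‖) * N := by ring

theorem cl_norm {N c : ℝ} (hN : 0 < N) (hc : 0 ≤ c) {k : K} (hk : ∀ j, |(k j : ℝ)| ≤ c * N) (a : C3) :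
    ‖cl N k a‖ ≤ 2 * c * ‖a‖ := by
  rw [pi_norm_le_iff_of_nonneg (by positivity)]
  have hn : ∀ i, ‖a i‖ ≤ ‖a‖ := fun i => norm_le_pi_norm a i
  intro i
  fin_cases i
  · refine (pair_le hN (hk 1) (hk 2) (a 2) (a 1)).trans ?_
    have := hn 1; have := hn 2
    nlinarith
  · refine (pair_le hN (hk 2) (hk 0) (a 0) (a 2)).trans ?_
    have := hn 0; have := hn 2
    nlinarith
  · refine (pair_le hN (hk 0) (hk 1) (a 1) (a 0)).trans ?_
    have := hn 0; have := hn 1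
    nlinarith

theorem cl_sq {N c : ℝ} (hN : 0 < N) (hc : 0 ≤ c) {k : K} (hk : ∀ j, |(k j : ℝ)| ≤ c * N) (a : C3) :
    ∑ i, ‖cl N k a i‖ ^ 2 ≤ (2 * c) ^ 2 * ∑ i, ‖a i‖ ^ 2 := by
  rw [Fin.sum_univ_three, Fin.sum_univ_three]
  have h0 : ‖cl N k a 0‖ ^ 2 ≤ (c * (‖a 2‖ + ‖a 1‖)) ^ 2 :=
    pow_le_pow_left₀ (norm_nonneg _) (pair_le hN (hk 1) (hk 2) (a 2) (a 1)) 2
  have h1 : ‖cl N k a 1‖ ^ 2 ≤ (c * (‖a 0‖ + ‖a 2‖)) ^ 2 :=
    pow_le_pow_left₀ (norm_nonneg _) (pair_le hN (hk 2) (hk 0) (a 0) (a 2)) 2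
  have h2 : ‖cl N k a 2‖ ^ 2 ≤ (c * (‖a 1‖ + ‖a 0‖)) ^ 2 :=
    pow_le_pow_left₀ (norm_nonneg _) (pair_le hN (hk 0) (hk 1) (a 1) (a 0)) 2
  nlinarith [mul_nonneg (sq_nonneg c) (sq_nonneg (‖a 2‖ - ‖a 1‖)), mul_nonneg (sq_nonneg c) (sq_nonneg (‖a 0‖ - ‖a 2‖)),
    mul_nonneg (sq_nonneg c) (sq_nonneg (‖a 1‖ - ‖a 0‖))]

theorem abs_le_pw (k : K) (j : Fin 3) : |(k j : ℝ)| ≤ pw k := by
  simp only [pw, H356R3.NS.l1, Fin.sum_univ_three]
  have := abs_nonneg (k 0 : ℝ)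
  have := abs_nonneg (k 1 : ℝ)
  have := abs_nonneg (k 2 : ℝ)
  fin_cases j
  · show |(k 0 : ℝ)| ≤ _
    linarith
  · show |(k 1 : ℝ)| ≤ _
    linarith
  · show |(k 2 : ℝ)| ≤ _
    linarith

variable {R : ℕ} {ℓ : ℕ → ℝ}

/-- The curls of the packets. -/
noncomputable def crl (X : Fm R ℓ) (w : Wd R ℓ) : Fm R ℓ where
  ψ := fun n k => cl ((R : ℝ) ^ n) k (X.ψ n k)
  L := X.L
  c := X.c * (2 * X.c + 1)
  lvn := X.lvn
  lv := fun n k hk => by
    have h0 : X.ψ n k ≠ 0 := by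
      intro h0
      rw [h0, cl_zero] at hk
      exact hk rfl
    obtain ⟨h1, h2, h3⟩ := X.lv n k h0
    refine ⟨h1, h2, h3.trans ?_⟩
    have := R_pos w.hR n
    have := X.c0 w
    have : X.c ≤ X.c * (2 * X.c + 1) := by nlinarith
    gcongr
  fin := fun n => (X.fin n).subset fun k hk => by
    intro h0
    apply hk
    show cl _ k (X.ψ n k) = 0
    rw [h0, cl_zero]
  sym := fun n k i => by
    have h := X.sym n k
    show cl ((R : ℝ) ^ n) (-k) (X.ψ n (-k)) i = star (cl ((R : ℝ) ^ n) k (X.ψ n k) i)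
    fin_cases i
    · simp only [cl, h, Pi.neg_apply, Int.cast_neg, Fin.zero_eta, Matrix.cons_val_zero, star_div₀, star_mul',
        star_sub, Complex.star_def, Complex.conj_I, Complex.conj_ofReal, map_intCast, map_pow, Complex.ofReal_pow]
      ring
    · simp only [cl, h, Pi.neg_apply, Int.cast_neg, Fin.mk_one, Matrix.cons_val_one, Matrix.cons_val_zero, star_div₀,
        star_mul', star_sub, Complex.star_def, Complex.conj_I, Complex.conj_ofReal, map_intCast, map_pow,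
        Complex.ofReal_pow]
      ring
    · simp only [cl, h, Pi.neg_apply, Int.cast_neg, Fin.reduceFinMk, Matrix.cons_val, star_div₀, star_mul',
        star_sub, Complex.star_def, Complex.conj_I, Complex.conj_ofReal, map_intCast, map_pow, Complex.ofReal_pow]
      ring
  sup := fun n k => by
    have hR := R_pos w.hR n
    have hc := X.c0 w
    have hl := w.pos n
    by_cases h0 : X.ψ n k = 0
    · rw [h0, cl_zero, norm_zero]; positivity
    · have h1 := cl_norm hR hc (k := k) (fun j => (abs_le_pw k j).trans (X.lv n k h0).2.2) (X.ψ n k)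
      refine h1.trans ?_
      calc 2 * X.c * ‖X.ψ n k‖ ≤ 2 * X.c * (X.c / ℓ n) := by have := X.sup n k; gcongr
        _ = (2 * X.c * X.c) / ℓ n := by ring
        _ ≤ (X.c * (2 * X.c + 1)) / ℓ n := div_le_div_of_nonneg_right (by nlinarith) hl.le
  l1 := fun n => by
    have hR := R_pos w.hR n
    have hc := X.c0 w
    have hl := (w.pos n).le
    have h1 : ∀ k, ‖cl ((R : ℝ) ^ n) k (X.ψ n k)‖ ≤ 2 * X.c * ‖X.ψ n k‖ := by
      intro k
      by_cases h0 : X.ψ n k = 0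
      · rw [h0, cl_zero]; simp
      · exact cl_norm hR hc (k := k) (fun j => (abs_le_pw k j).trans (X.lv n k h0).2.2) (X.ψ n k)
    have h2 : Summable fun k => ‖cl ((R : ℝ) ^ n) k (X.ψ n k)‖ :=
      ((X.sn n).mul_left (2 * X.c)).of_nonneg_of_le (fun _ => norm_nonneg _) h1
    refine (h2.tsum_le_tsum h1 ((X.sn n).mul_left _)).trans ?_
    rw [tsum_mul_left]
    calc 2 * X.c * ∑' k, ‖X.ψ n k‖ ≤ 2 * X.c * (X.c * ℓ n) := by have := X.l1 n; gcongr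
      _ ≤ _ := by nlinarith [mul_nonneg hc hl]
  l2 := fun n => by
    have hR := R_pos w.hR n
    have hc := X.c0 w
    have h1 : ∀ k, ∑ i, ‖cl ((R : ℝ) ^ n) k (X.ψ n k) i‖ ^ 2 ≤ (2 * X.c) ^ 2 * ∑ i, ‖X.ψ n k i‖ ^ 2 := by
      intro k
      by_cases h0 : X.ψ n k = 0
      · rw [h0, cl_zero]; simp
      · exact cl_sq hR hc (k := k) (fun j => (abs_le_pw k j).trans (X.lv n k h0).2.2) (X.ψ n k)
    have h3 : Summable fun k => ∑ i, ‖X.ψ n k i‖ ^ 2 := X.summ n (fun k v => ∑ i, ‖v i‖ ^ 2) (by simp)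
    have h2 : Summable fun k => ∑ i, ‖cl ((R : ℝ) ^ n) k (X.ψ n k) i‖ ^ 2 :=
      (h3.mul_left ((2 * X.c) ^ 2)).of_nonneg_of_le (fun _ => Finset.sum_nonneg fun _ _ => sq_nonneg _) h1
    refine (h2.tsum_le_tsum h1 (h3.mul_left _)).trans ?_
    rw [tsum_mul_left]
    have := X.l2 n
    calc (2 * X.c) ^ 2 * ∑' k, ∑ i, ‖X.ψ n k i‖ ^ 2 ≤ (2 * X.c) ^ 2 * X.c ^ 2 := by gcongr
      _ = (2 * X.c * X.c) ^ 2 := by ring
      _ ≤ (X.c * (2 * X.c + 1)) ^ 2 := pow_le_pow_left₀ (by positivity) (by nlinarith) 2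

theorem crl_Dv (X : Fm R ℓ) (w : Wd R ℓ) : (crl X w).Dv := by
  intro n k
  show dt k (cl ((R : ℝ) ^ n) k (X.ψ n k)) = 0
  unfold H356R3.NS.dt cl
  rw [Fin.sum_univ_three]
  simp only [Matrix.cons_val_zero, Matrix.cons_val_one, Matrix.cons_val]
  ring

/-- The coefficients of a curl. -/
theorem cs_curl (X : Fm R ℓ) (w : Wd R ℓ) {v : V → V} (hv : SPV v) (n : ℕ) :
    X.cs (curl v) n = 2 * Real.pi * (R : ℝ) ^ n * (crl X w).cs v n := by
  rw [X.cs_eq hv.curl.cont, (crl X w).cs_eq hv.cont]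
  unfold Fm.co
  have hR := (R_pos w.hR n).ne'
  have hRc : (R : ℂ) ^ n ≠ 0 := by exact_mod_cast hR
  have e : ∀ k, ∑ i, fco (curl v) k i * star (X.ψ n k i)
      = ((2 * Real.pi * (R : ℝ) ^ n : ℝ) : ℂ) * ∑ i, fco v k i * star ((crl X w).ψ n k i) := by
    intro k
    have hψ : (crl X w).ψ n k = cl ((R : ℝ) ^ n) k (X.ψ n k) := rfl
    rw [fco_curl hv, hψ, Fin.sum_univ_three, Fin.sum_univ_three]
    simp only [cl, Matrix.cons_val_zero, Matrix.cons_val_one, Matrix.cons_val, H356R3.NS.fj, star_div₀, star_mul',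
      star_sub, Complex.star_def, Complex.conj_I, Complex.conj_ofReal, map_intCast, map_pow, Complex.ofReal_pow]
    push_cast
    field_simp
    ring
  rw [tsum_congr e, tsum_mul_left, Complex.re_ofReal_mul]

/-- The curl of a field given by its coefficients. -/
theorem curl_fd {a : K → C3} (h : ∀ i, RD (cst fun k => a k i)) :
    curl (fd a) = fd fun k => ![fj k 1 * a k 2 - fj k 2 * a k 1, fj k 2 * a k 0 - fj k 0 * a k 2,
      fj k 0 * a k 1 - fj k 1 * a k 0] := by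
  funext x
  have hpd : ∀ i j, pd j (fun y => (fs (fun k => a k i) y).re) x
      = (fs (fun k => fj k j * a k i) x).re := fun i j => pd_fs (h i) j x
  have hsm : ∀ i j, Summable fun k => fj k j * a k i * ex k x := by
    intro i j
    refine Summable.of_norm_bounded (RD_summ (RD_fj (h i) j)) fun k => ?_
    rw [norm_mul, H356R3.NS.norm_ex, mul_one]
  have hsub : ∀ i j i' j', (fs (fun k => fj k j * a k i) x).re
      - (fs (fun k => fj k j' * a k i') x).re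
      = (fs (fun k => fj k j * a k i - fj k j' * a k i') x).re := by
    intro i j i' j'
    rw [← Complex.sub_re]
    congr 1
    unfold fs
    rw [← (hsm i j).tsum_sub (hsm i' j')]
    exact tsum_congr fun k => by ring
  funext i
  fin_cases i
  · show pd 1 (fun y => (fs (fun k => a k 2) y).re) x - pd 2 (fun y => (fs (fun k => a k 1) y).re) x = _
    rw [hpd 2 1, hpd 1 2, hsub]
    rfl
  · show pd 2 (fun y => (fs (fun k => a k 0) y).re) x - pd 0 (fun y => (fs (fun k => a k 2) y).re) x = _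
    rw [hpd 0 2, hpd 2 0, hsub]
    rfl
  · show pd 0 (fun y => (fs (fun k => a k 1) y).re) x - pd 1 (fun y => (fs (fun k => a k 0) y).re) x = _
    rw [hpd 1 0, hpd 0 1, hsub]
    rfl

/-- The curls of the packets as fields. -/
theorem crl_F (X : Fm R ℓ) (w : Wd R ℓ) (n : ℕ) :
    (crl X w).F n = (1 / (2 * Real.pi * (R : ℝ) ^ n)) • curl (X.F n) := by
  have hR := R_pos w.hR n
  have hpi := Real.pi_pos
  have h1 : curl (X.F n) = fd fun k => ![fj k 1 * X.ψ n k 2 - fj k 2 * X.ψ n k 1,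
      fj k 2 * X.ψ n k 0 - fj k 0 * X.ψ n k 2, fj k 0 * X.ψ n k 1 - fj k 1 * X.ψ n k 0] := curl_fd (X.RD n)
  rw [h1]
  have hRc : ((R : ℝ) : ℂ) ^ n ≠ 0 := by exact_mod_cast hR.ne'
  have hRc' : (R : ℂ) ^ n ≠ 0 := by exact_mod_cast hR.ne'
  have hpc : (Real.pi : ℂ) ≠ 0 := by exact_mod_cast hpi.ne'
  funext x i
  show (fs (fun k => cl ((R : ℝ) ^ n) k (X.ψ n k) i) x).re = 1 / (2 * Real.pi * (R : ℝ) ^ n) *
    (fs (fun k => (![fj k 1 * X.ψ n k 2 - fj k 2 * X.ψ n k 1,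
      fj k 2 * X.ψ n k 0 - fj k 0 * X.ψ n k 2, fj k 0 * X.ψ n k 1 - fj k 1 * X.ψ n k 0] : C3) i) x).re
  rw [← Complex.re_ofReal_mul, ← fs_smul']
  congr 2
  funext k
  fin_cases i
  · show Complex.I * ((k 1 : ℂ) * X.ψ n k 2 - (k 2 : ℂ) * X.ψ n k 1) / (((R : ℝ) ^ n : ℝ) : ℂ)
      = ((1 / (2 * Real.pi * (R : ℝ) ^ n) : ℝ) : ℂ) * (fj k 1 * X.ψ n k 2 - fj k 2 * X.ψ n k 1)
    simp only [H356R3.NS.fj]
    push_cast
    field_simp
  · show Complex.I * ((k 2 : ℂ) * X.ψ n k 0 - (k 0 : ℂ) * X.ψ n k 2) / (((R : ℝ) ^ n : ℝ) : ℂ)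
      = ((1 / (2 * Real.pi * (R : ℝ) ^ n) : ℝ) : ℂ) * (fj k 2 * X.ψ n k 0 - fj k 0 * X.ψ n k 2)
    simp only [H356R3.NS.fj]
    push_cast
    field_simp
  · show Complex.I * ((k 0 : ℂ) * X.ψ n k 1 - (k 1 : ℂ) * X.ψ n k 0) / (((R : ℝ) ^ n : ℝ) : ℂ)
      = ((1 / (2 * Real.pi * (R : ℝ) ^ n) : ℝ) : ℂ) * (fj k 0 * X.ψ n k 1 - fj k 1 * X.ψ n k 0)
    simp only [H356R3.NS.fj]
    push_cast
    field_simp

end Pool.Agent.N980.WQ
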