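import Pool.Agent.N980.WQ.Sy

/-!
The chain system of a smooth solution: conclusion.
-/

open MeasureTheory Set Filter Topology
open scoped ContDiff

set_option linter.unusedVariables false

namespace Pool.Agent.N980.WQ

open Pool.Agent.N980.NU
open Pool.Agent.N980.WP hiding Sys St Cond Good
open Pool.Agent.N980.CB (one_le_R R_pos inn out FF gG Par zz zz16 par_zz energy_nonneg rpow_swap)

variable {R : ℕ} {σ κ ν T G : ℝ} {u : ℝ → V → V} {p : ℝ → V → ℝ}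

/-- The error of the Laplacian and of the convection term. -/
theorem ns_err (h : PD R σ κ) (hG : 0 < G) {v F : V → V} (hv : SPV v) (hF : SPV F) {E : ℝ} (hE : energy v ≤ E)
    (hν : 0 < ν) (k : ℕ) {q : ℝ}
    (h1 : |ip v (lap F) + 4 * Real.pi ^ 2 * ((R : ℝ) ^ k) ^ 2 * q| ≤ 240 * ((R : ℝ) ^ k * wd (Lw R κ) k) * Real.sqrt (energy v))
    (h2 : ∀ x i j, |pd j (fun y => F y i) x| ≤ 3087 * ((R : ℝ) ^ k * wd (Lw R κ) k)) :
    |ν * (ip v (lap F) + 4 * Real.pi ^ 2 * ((R : ℝ) ^ k) ^ 2 * q) + cvt v F|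
      ≤ 3 / 2 * (240 * ν * Real.sqrt E + 9261 * E) * ((R : ℝ) ^ (σ - κ)) ^ k := by
  have e3 := h.pc.RW k
  have hE0 : 0 ≤ E := (energy_nonneg _).trans hE
  have hR0 : (0 : ℝ) < (R : ℝ) ^ k := pow_pos h.pc.R0 k
  have hw := (h.pc.wh.wd.pos k)
  have e4 := cvt_le hv hF h2
  have hsq : Real.sqrt (energy v) ≤ Real.sqrt E := Real.sqrt_le_sqrt hE
  have hPP : ((R : ℝ) ^ (2 - κ)) ^ k ≤ ((R : ℝ) ^ (σ - κ)) ^ k :=
    pow_le_pow_left₀ (Real.rpow_nonneg h.pc.R0.le _) h.P' k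
  have hP0 : (0 : ℝ) ≤ ((R : ℝ) ^ (2 - κ)) ^ k := pow_nonneg (Real.rpow_nonneg h.pc.R0.le _) k
  have f1 : |ν * (ip v (lap F) + 4 * Real.pi ^ 2 * ((R : ℝ) ^ k) ^ 2 * q)|
      ≤ ν * (240 * ((R : ℝ) ^ k * wd (Lw R κ) k) * Real.sqrt E) := by
    rw [abs_mul, abs_of_pos hν]
    refine mul_le_mul_of_nonneg_left (h1.trans ?_) hν.le
    gcongr
  have f2 : |cvt v F| ≤ 9261 * E * ((R : ℝ) ^ k * wd (Lw R κ) k) := by
    refine e4.trans ?_
    calc 3 * (3087 * ((R : ℝ) ^ k * wd (Lw R κ) k)) * energy v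
        ≤ 3 * (3087 * ((R : ℝ) ^ k * wd (Lw R κ) k)) * E := by gcongr
      _ = _ := by ring
  have hc : 0 ≤ 240 * ν * Real.sqrt E + 9261 * E := by have := Real.sqrt_nonneg E; positivity
  calc _ ≤ ν * (240 * ((R : ℝ) ^ k * wd (Lw R κ) k) * Real.sqrt E) + 9261 * E * ((R : ℝ) ^ k * wd (Lw R κ) k) :=
        (abs_add_le _ _).trans (add_le_add f1 f2)
    _ = (240 * ν * Real.sqrt E + 9261 * E) * ((R : ℝ) ^ k * wd (Lw R κ) k) := by ring
    _ ≤ (240 * ν * Real.sqrt E + 9261 * E) * (3 / 2 * ((R : ℝ) ^ (2 - κ)) ^ k) := by gcongr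
    _ ≤ (240 * ν * Real.sqrt E + 9261 * E) * (3 / 2 * ((R : ℝ) ^ (σ - κ)) ^ k) := by gcongr
    _ = _ := by ring

/-- The chain system of a smooth solution. -/
theorem Sol.sysq (h : PD R σ κ) (hG : 0 < G) (hs : Sol ν (KQ (kT (h.pc.pm hG))) T u p) (hν : 0 < ν) {E b : ℝ}
    (hE : energy (u 0) ≤ E) (hb : 0 < b) {N : ℕ}
    (hN : ∀ k : ℕ, 16 * G * b ^ 2 * HH R σ κ ^ k ≤ b0 ν G E * ((R : ℝ) ^ (σ - κ)) ^ (max k N)) :
    Sys R ((R : ℝ) ^ (σ - κ)) ((R : ℝ) ^ (2 - σ + κ)) ((R : ℝ) ^ σ) (zz ((R : ℝ) ^ σ)) G (4 * Real.pi ^ 2 * ν)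
      (2 * b0 ν G E) T b N (th (h.pc.pm hG)) (fun n t => (h.pc.pm hG).co (u t) n)
      (fun n t => qo (h.pc.pm hG) (u t) n) := by
  set P := h.pc.pm hG with hP
  have hE0 : 0 ≤ E := (energy_nonneg _).trans hE
  have hpi := Real.pi_pos
  have hw := h.pc.wh.wd
  have hO := (TW_bil P.wh.wd ![kD1 P, kD2 P]).opr
  have hOk : Opr (KQ (kT P)) := hO
  have hb00 : 0 ≤ b0 ν G E := by
    unfold b0
    have := Real.sqrt_nonneg E
    positivity
  have hA1 : 1 ≤ (R : ℝ) ^ (σ - κ) := by linarith [h.P2]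
  have hPR : P.R = R := rfl
  have hPL : P.L = Lw R κ := rfl
  have hδ : P.δ = zz ((R : ℝ) ^ σ) ^ 16 := (zz16 _).symm
  have hg : P.g = gG G ((R : ℝ) ^ σ) := rfl
  refine ⟨h.pc.par, h.RQ', h.QR, h.P2, ?_, h.PQ, h.pc.RΛ, hG, by positivity, by positivity, ?_,
    fun n => (th_le P n).trans (by norm_num), ?_, ?_, ?_,
    ?_, ?_, ?_⟩
  · have := h.pc.R4
    exact_mod_cast (by omega : 2 ≤ R)
  · intro k
    have := th_ge P k
    linarith
  · intro k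
    exact hs.ip_cont (F := pF (R ^ k) (Lw R κ k)) (by have := P.X.spv k; rwa [P.F_eq] at this)
  · intro k t ht hy
    have hI : t ∈ Ico 0 T := ⟨ht.1.le, ht.2⟩
    have hspv := hs.spv hI
    have hFs := P.X.spv k
    have hdF : ∀ x, dv (P.X.F k) x = 0 := fun x => dv_fd (P.X.RD k) (fun q => P.Dv k q) x
    have hd := hs.ip_deriv hOk hFs hdF ht
    have hen := (hs.energy_le hOk hν hI).trans hE
    have e1 := PX_lap h.pc.wh hspv k
    have e3 : (PX h.pc.wh).cs (u t) k = P.co (u t) k := P.cs_eq (u t) k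
    rw [e3] at e1
    have hRk : (0 : ℝ) < (R : ℝ) ^ k := pow_pos h.pc.R0 k
    have hwk := hw.pos k
    have e1' : |ip (u t) (lap (P.X.F k)) + 4 * Real.pi ^ 2 * ((R : ℝ) ^ k) ^ 2 * P.co (u t) k|
        ≤ 240 * ((R : ℝ) ^ k * wd (Lw R κ) k) * Real.sqrt (energy (u t)) := by
      refine e1.trans ?_
      have := Real.sqrt_nonneg (energy (u t))
      gcongr
      norm_num
    have e2 : ∀ x i j, |pd j (fun y => P.X.F k y i) x| ≤ 3087 * ((R : ℝ) ^ k * wd (Lw R κ) k) := by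
      intro x i j
      have h1 : |pd j (fun y => P.X.F k y i) x| ≤ 7 * (3 * (R : ℝ) ^ k) * (3 * wd (Lw R κ) k) :=
        P.X.pd_le hw k x i j
      have : (0 : ℝ) ≤ (R : ℝ) ^ k * wd (Lw R κ) k := by positivity
      linarith
    have e5 := ns_err h hG hspv hFs hen hν k e1' e2
    have hEP := eP_bound h hG hspv hen hb hy
    rw [← hP] at hEP
    have hfin : ∀ e' : ℝ, |e'| ≤ 24 * (G * E) * ((R : ℝ) ^ (σ - κ)) ^ k + 16 * G * b ^ 2 * HH R σ κ ^ k →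
        |ν * (ip (u t) (lap (P.X.F k)) + 4 * Real.pi ^ 2 * ((R : ℝ) ^ k) ^ 2 * P.co (u t) k) + cvt (u t) (P.X.F k) + e'|
          ≤ 2 * b0 ν G E * ((R : ℝ) ^ (σ - κ)) ^ (max k N) := by
      intro e' he'
      have h1 : ((R : ℝ) ^ (σ - κ)) ^ k ≤ ((R : ℝ) ^ (σ - κ)) ^ (max k N) :=
        pow_le_pow_right₀ hA1 (le_max_left _ _)
      have h2 := hN k
      have h3 : b0 ν G E * ((R : ℝ) ^ (σ - κ)) ^ k ≤ b0 ν G E * ((R : ℝ) ^ (σ - κ)) ^ (max k N) := by gcongr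
      have h4 : b0 ν G E * ((R : ℝ) ^ (σ - κ)) ^ k
          = 3 / 2 * (240 * ν * Real.sqrt E + 9261 * E) * ((R : ℝ) ^ (σ - κ)) ^ k
            + 24 * (G * E) * ((R : ℝ) ^ (σ - κ)) ^ k := by unfold b0; ring
      have h5 := abs_add_le (ν * (ip (u t) (lap (P.X.F k)) + 4 * Real.pi ^ 2 * ((R : ℝ) ^ k) ^ 2 * P.co (u t) k)
        + cvt (u t) (P.X.F k)) e'
      linarith
    have e6 : (fun s => ip (u s) (P.X.F k)) = fun s => P.co (u s) k := funext fun s => P.cs_eq (u s) k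
    rw [e6] at hd
    cases k with
    | zero =>
      have hk : ip (KQ (kT P) (u t) (u t)) (P.X.F 0)
          = -(gG G ((R : ℝ) ^ σ) 0 * (P.δ * P.co (u t) 0 + P.co (u t) 1) * P.co (u t) 1)
      + eP (gG G ((R : ℝ) ^ σ) 0) 0 P.δ (R : ℝ)⁻¹ R 0 (P.co (u t) 0) (P.co (u t) 1) 0 (qo P (u t) 0)
        (qo P (u t) 1) 0 (so P (u t) 0) (so P (u t) 1) := kT_co0 P hspv
      refine ⟨_, hfin _ hEP.2, hd.congr_deriv ?_⟩
      rw [hk]
      simp only [inn, out, FF]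
      rw [hδ]
      simp only [zero_add]
      ring
    | succ m =>
      have hk : ip (KQ (kT P) (u t) (u t)) (P.X.F (m + 1))
          = gG G ((R : ℝ) ^ σ) m * (P.δ * P.co (u t) m + P.co (u t) (m + 1)) * P.co (u t) m
      - gG G ((R : ℝ) ^ σ) (m + 1) * (P.δ * P.co (u t) (m + 1) + P.co (u t) (m + 2)) * P.co (u t) (m + 2)
      + eP (gG G ((R : ℝ) ^ σ) (m + 1)) (gG G ((R : ℝ) ^ σ) m) P.δ (R : ℝ)⁻¹ R (P.co (u t) m) (P.co (u t) (m + 1))
        (P.co (u t) (m + 2)) (qo P (u t) m) (qo P (u t) (m + 1)) (qo P (u t) (m + 2)) (so P (u t) m)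
        (so P (u t) (m + 1)) (so P (u t) (m + 2)) := kT_co1 P hspv m
      refine ⟨_, hfin _ (hEP.1 m), hd.congr_deriv ?_⟩
      rw [hk]
      simp only [inn, out, FF]
      have e7 : m + 1 + 1 = m + 2 := rfl
      rw [hδ, e7]
      ring
  · intro T1 hT1
    obtain ⟨D, hD0, hD⟩ := hs.cs_dec P.X hw hT1 2
    refine ⟨D, fun k t ht => ?_⟩
    rw [le_div_iff₀ (by have := h.pc.R0; positivity)]
    have := hD t ht k
    rw [P.cs_eq] at this
    exact this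
  · intro k
    exact hs.ip_cont (F := (qX P).F k) ((qX P).spv k)
  · intro k t ht
    have hI : t ∈ Ico 0 T := ⟨ht.1.le, ht.2⟩
    have hspv := hs.spv hI
    have hFs := (qX P).spv k
    have hdF : ∀ x, dv ((qX P).F k) x = 0 := fun x => dv_fd ((qX P).RD k) (fun q => crl_Dv P.X P.wh.wd k q) x
    have hd := hs.ip_deriv hOk hFs hdF ht
    have hen := (hs.energy_le hOk hν hI).trans hE
    have e1 := qX_lap P hspv k
    have hRk : (0 : ℝ) < (R : ℝ) ^ k := pow_pos h.pc.R0 k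
    have hwk := hw.pos k
    have e2 : ∀ x i j, |pd j (fun y => (qX P).F k y i) x| ≤ 3087 * ((R : ℝ) ^ k * wd (Lw R κ) k) := by
      intro x i j
      have h1 : |pd j (fun y => (qX P).F k y i) x|
          ≤ 7 * ((3 * (2 * 3 + 1)) * (R : ℝ) ^ k) * ((3 * (2 * 3 + 1)) * wd (Lw R κ) k) :=
        (qX P).pd_le hw k x i j
      have : (0 : ℝ) ≤ (R : ℝ) ^ k * wd (Lw R κ) k := by positivity
      linarith
    have e5 := ns_err h hG hspv hFs hen hν k e1 e2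
    refine ⟨_, e5.trans ?_, hd.congr_deriv ?_⟩
    · have h4 : 3 / 2 * (240 * ν * Real.sqrt E + 9261 * E) ≤ b0 ν G E := by
        unfold b0
        have : 0 ≤ 24 * (G * E) := by positivity
        linarith
      have h5 : 0 ≤ ((R : ℝ) ^ (σ - κ)) ^ k := by positivity
      nlinarith
    · have hk : ip (KQ (kT P) (u t) (u t)) ((qX P).F k)
          = th P k * qi (gG G ((R : ℝ) ^ σ)) P.δ (R : ℝ)⁻¹ R (fun k s => P.co (u s) k) (fun k s => qo P (u s) k) k t :=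
        kT_qo P hspv k
      rw [hk, hδ]
      ring
  · intro T1 hT1
    obtain ⟨D, hD0, hD⟩ := hs.cs_dec (qX P) hw hT1 2
    refine ⟨D, fun k t ht => ?_⟩
    rw [le_div_iff₀ (by have := h.pc.R0; positivity)]
    exact hD t ht k

end Pool.Agent.N980.WQ
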