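import Pool.Agent.N980.WQ.Lb2
import Pool.Agent.N980.WQ.Sys

/-!
The data.
-/

open MeasureTheory Set Filter Topology
open scoped ContDiff

set_option linter.unusedVariables false

namespace Pool.Agent.N980.WQ

open Pool.Agent.N980.NU
open Pool.Agent.N980.WP hiding Sys St Cond
open Pool.Agent.N980.CB (gG Par zz qq qq_pos Rap ev_pow)

variable {R : ℕ} {σ κ G ν : ℝ}

/-- The threshold index. -/
theorem N_exists {c H P : ℝ} (hH : 1 ≤ H) (hP : H < P) (hc : 0 ≤ c) : ∃ N : ℕ, ∀ k : ℕ, c * H ^ k ≤ P ^ (max k N) := by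
  have hP0 : 0 < P := by linarith
  have hr : 1 < P / H := by rw [one_lt_div (by linarith)]; exact hP
  obtain ⟨N, hN⟩ := (ev_pow hr one_pos c).exists_forall_of_atTop
  have h1 : ∀ k, N ≤ k → c * H ^ k ≤ P ^ k := by
    intro k hk
    have h2 := hN k hk
    rw [one_mul, div_pow, le_div_iff₀ (by positivity)] at h2
    exact h2
  refine ⟨N, fun k => ?_⟩
  rcases le_total N k with h | h
  · rw [max_eq_left h]; exact h1 k h
  · rw [max_eq_right h]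
    refine le_trans ?_ (h1 N le_rfl)
    have : H ^ k ≤ H ^ N := pow_le_pow_right₀ hH h
    gcongr

/-- The conditions on the first scale are satisfied eventually. -/
theorem good_ev2 {P Q Λ : ℝ} (hpar : Par Λ (zz Λ)) (hR1 : (1 : ℝ) < R) (hQ5 : 10 ^ 5 ≤ Q) (hQR : Q ≤ R) (hP0 : 0 < P)
    (hPΛ : 10 ^ 4 * P ≤ Λ) (hRΛ : 10 ^ 4 * (R : ℝ) ^ 2 ≤ Λ) (hr3 : 1 < (R : ℝ) ^ 2 * Q / Λ)
    {ℓ β b a T : ℝ} (hG : 0 < G) (hℓ : 0 < ℓ) (hb : 0 < b) (ha : 0 < a) (hT : 0 < T)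
    {y : ℕ → ℝ} (hy : Rap R y) :
    ∀ᶠ n in atTop, Good R P Q Λ (zz Λ) G ℓ β b a T y n := by
  set z := zz Λ with hzd
  have hz := hpar.hz
  have hΛ0 := hpar.hΛ0
  have hqq := qq_pos
  have hR0 : (0 : ℝ) < R := by linarith
  have hQ1 : 1 < Q := by linarith [show (1 : ℝ) < 10 ^ 5 by norm_num]
  have hQ0 : 0 < Q := by linarith
  obtain ⟨C, hC⟩ := hy 2
  have hC0 : 0 ≤ C := le_trans (by positivity) (hC 0)
  -- elementary form of the conditions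
  have f1 := ev_pow (c := z ^ 16 * qq * a / 40) hR1 (by positivity) C
  have f2 := ev_pow (c := 1 / 2) hR1 (by norm_num) C
  have f3 := ev_pow (ρ := 10000) (c := a / 4) (by norm_num) (by positivity) C
  have f4 := ev_pow (ρ := 10 ^ 4) (c := G * (a / 2)) (by norm_num) (by positivity) (1000 * ℓ * (R : ℝ) ^ 4)
  have f5 := ev_pow (ρ := 10 ^ 4) (c := z ^ 40 * (G * (a / 2) ^ 2)) (by norm_num) (by positivity) (|β| * P ^ 3)
  have f6 := ev_pow (c := z ^ 40 * (a / 2)) hQ1 (by positivity) b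
  have f7 := ev_pow hr3 hℓ (64 * G * b)
  have hΛ1 : 1 < Λ := by nlinarith
  have f8 := ev_pow (ρ := Λ) (c := G * (a / 2)) hΛ1 (by positivity) (10 / T + 1)
  obtain ⟨n1, hn1⟩ := f1.exists_forall_of_atTop
  obtain ⟨n2, hn2⟩ := f2.exists_forall_of_atTop
  obtain ⟨n7, hn7⟩ := f7.exists_forall_of_atTop
  filter_upwards [f3, f4, f5, f6, f8, eventually_ge_atTop n1, eventually_ge_atTop n2, eventually_ge_atTop n7] with
    n g3 g4 g5 g6 g8 k1 k2 k7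
  have hpR : ∀ m : ℕ, (0 : ℝ) < (R : ℝ) ^ m := fun m => pow_pos hR0 m
  have hpR1 : ∀ m : ℕ, (1 : ℝ) ≤ (R : ℝ) ^ m := fun m => one_le_pow₀ hR1.le
  refine ⟨?_, ?_, ?_, ?_, ?_, ?_, ?_, ?_⟩
  · intro m hm
    have h1 := hC m
    have h2 := hn1 m (k1.trans hm)
    have h3 : |y m| * (R : ℝ) ^ m ≤ z ^ 16 * qq * a / 40 * (R : ℝ) ^ m := by
      refine le_trans ?_ h2
      refine le_trans ?_ h1
      have : (R : ℝ) ^ m ≤ ((R : ℝ) ^ m) ^ 2 := by nlinarith [hpR1 m]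
      gcongr
    exact le_of_mul_le_mul_right h3 (hpR m)
  · intro m hm
    have h1 := hC m
    have h2 := hn2 m (k2.trans hm)
    have hQm : Q ^ m ≤ (R : ℝ) ^ m := pow_le_pow_left₀ hQ0.le hQR m
    have h3 : (|y m| * Q ^ m) * (R : ℝ) ^ m ≤ 1 / 2 * (R : ℝ) ^ m := by
      calc (|y m| * Q ^ m) * (R : ℝ) ^ m ≤ (|y m| * (R : ℝ) ^ m) * (R : ℝ) ^ m := by
            have := hpR m
            gcongr
        _ = |y m| * ((R : ℝ) ^ m) ^ 2 := by ring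
        _ ≤ C := h1
        _ ≤ _ := h2
    exact le_of_mul_le_mul_right h3 (hpR m)
  · intro m hm
    have h1 := hC m
    have h2 : (10000 : ℝ) ^ m ≤ ((R : ℝ) ^ m) ^ 2 := by
      have e1 : (10000 : ℝ) ≤ R := by linarith [show (10000 : ℝ) ≤ 10 ^ 5 by norm_num]
      have e2 : (10000 : ℝ) ^ m ≤ (R : ℝ) ^ m := by gcongr
      nlinarith [hpR1 m]
    have h3 : |y m| * 10000 ^ m ≤ (10000 ^ (n - m) * a / 4) * 10000 ^ m := by
      calc |y m| * 10000 ^ m ≤ |y m| * ((R : ℝ) ^ m) ^ 2 := by gcongr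
        _ ≤ C := h1
        _ ≤ a / 4 * 10000 ^ n := g3
        _ = (10000 ^ (n - m) * a / 4) * 10000 ^ m := by
          have : (10000 : ℝ) ^ n = 10000 ^ (n - m) * 10000 ^ m := by
            rw [← pow_add, Nat.sub_add_cancel hm.le]
          rw [this]; ring
    exact le_of_mul_le_mul_right h3 (by positivity)
  · have h1 : (10 ^ 4 : ℝ) ^ n * ((R : ℝ) ^ n) ^ 2 ≤ Λ ^ n := by
      calc (10 ^ 4 : ℝ) ^ n * ((R : ℝ) ^ n) ^ 2 = (10 ^ 4 * (R : ℝ) ^ 2) ^ n := by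
            rw [mul_pow, ← pow_mul, ← pow_mul (R : ℝ) n 2, mul_comm n 2, pow_mul (R : ℝ) 2 n, pow_mul]
        _ ≤ Λ ^ n := by gcongr
    unfold gG
    calc 1000 * ℓ * ((R : ℝ) ^ (n + 2)) ^ 2 = (1000 * ℓ * (R : ℝ) ^ 4) * ((R : ℝ) ^ n) ^ 2 := by
          rw [pow_add, mul_pow]; ring
      _ ≤ (G * (a / 2) * (10 ^ 4) ^ n) * ((R : ℝ) ^ n) ^ 2 := by gcongr
      _ = G * (a / 2) * ((10 ^ 4) ^ n * ((R : ℝ) ^ n) ^ 2) := by ring
      _ ≤ G * (a / 2) * Λ ^ n := by gcongr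
      _ = G * Λ ^ n * (a / 2) := by ring
  · have h1 : (10 ^ 4 : ℝ) ^ n * P ^ n ≤ Λ ^ n := by
      calc (10 ^ 4 : ℝ) ^ n * P ^ n = (10 ^ 4 * P) ^ n := by rw [mul_pow]
        _ ≤ Λ ^ n := by gcongr
    unfold gG
    calc β * P ^ (n + 3) ≤ |β| * P ^ (n + 3) := by
          have := le_abs_self β
          gcongr
      _ = (|β| * P ^ 3) * P ^ n := by rw [pow_add]; ring
      _ ≤ (z ^ 40 * (G * (a / 2) ^ 2) * (10 ^ 4) ^ n) * P ^ n := by gcongr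
      _ = z ^ 40 * (G * (a / 2) ^ 2) * ((10 ^ 4) ^ n * P ^ n) := by ring
      _ ≤ z ^ 40 * (G * (a / 2) ^ 2) * Λ ^ n := by gcongr
      _ = z ^ 40 * (G * Λ ^ n * (a / 2) ^ 2) := by ring
  · rw [div_le_iff₀ (pow_pos hQ0 _)]
    refine g6.trans ?_
    have : Q ^ n ≤ Q ^ (n + 3) := pow_le_pow_right₀ hQ1.le (by omega)
    gcongr
  · intro k hk
    have h1 := hn7 k (k7.trans hk)
    unfold gG
    have h2 : (64 * G * b) * Λ ^ k ≤ (ℓ * ((R : ℝ) ^ 2 * Q / Λ) ^ k) * Λ ^ k := by gcongr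
    calc 64 * (G * Λ ^ k) * b = (64 * G * b) * Λ ^ k := by ring
      _ ≤ (ℓ * ((R : ℝ) ^ 2 * Q / Λ) ^ k) * Λ ^ k := h2
      _ = ℓ * (((R : ℝ) ^ k) ^ 2 * Q ^ k) := by
        rw [mul_assoc, ← mul_pow, div_mul_cancel₀ _ hΛ0.ne', mul_pow, ← pow_mul, ← pow_mul, mul_comm 2 k]
  · have h0 : 0 < gG G Λ n * (a / 2) := by unfold gG; positivity
    rw [div_lt_iff₀ h0]
    have h1 : 10 / T + 1 ≤ gG G Λ n * (a / 2) := by
      refine g8.trans (le_of_eq ?_)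
      unfold gG; ring
    calc (10 : ℝ) = T * (10 / T) := by field_simp
      _ < T * (10 / T + 1) := by nlinarith
      _ ≤ T * (gG G Λ n * (a / 2)) := by gcongr

theorem PD.good_ev (h : PD R σ κ) {ℓ β b a T : ℝ} (hG : 0 < G) (hℓ : 0 < ℓ) (hb : 0 < b) (ha : 0 < a) (hT : 0 < T)
    {y : ℕ → ℝ} (hy : Rap R y) :
    ∀ᶠ n in atTop, Good R ((R : ℝ) ^ (σ - κ)) ((R : ℝ) ^ (2 - σ + κ)) ((R : ℝ) ^ σ) (zz ((R : ℝ) ^ σ)) G ℓ β b a T y n := by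
  have hR0 := h.pc.R0
  have hP0 : 0 < (R : ℝ) ^ (σ - κ) := Real.rpow_pos_of_pos hR0 _
  refine good_ev2 h.pc.par h.pc.R1 h.RQ' h.QR hP0 ?_ h.pc.RΛ ?_ hG hℓ hb ha hT hy
  · rw [h.ΛP, mul_comm]
    have := h.pc.RQ
    have h1 : (10 : ℝ) ^ 4 ≤ (R : ℝ) ^ κ := by linarith [show (10 : ℝ) ^ 4 ≤ 10 ^ 5 by norm_num]
    gcongr
  · rw [one_lt_div (Real.rpow_pos_of_pos hR0 _), ← Real.rpow_natCast (R : ℝ) 2, ← Real.rpow_add hR0]
    exact Real.rpow_lt_rpow_of_exponent_lt h.pc.R1 (by push_cast; linarith [h.s4])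

/-- Closeness of the coefficients of the first family. -/
theorem PD.close_p (h : PD R σ κ) (hk : 2 * κ ≤ σ - 1) (hG : 0 < G) {v w : V → V} (hv : Continuous v)
    (hw : Continuous w) {r : ℝ} (hr : ∀ x i, |v x i - w x i| ≤ r) (m : ℕ) :
    |(h.pc.pm hG).co v m - (h.pc.pm hG).co w m| ≤ 90 * r / ((R : ℝ) ^ (2 - σ + κ)) ^ m ∧
    |qo (h.pc.pm hG) v m - qo (h.pc.pm hG) w m| ≤ 90 * r / ((R : ℝ) ^ (2 - σ + κ)) ^ m := by
  set P := h.pc.pm hG with hP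
  have hr0 : 0 ≤ r := (abs_nonneg _).trans (hr 0 0)
  have hR0 := h.pc.R0
  have hQ0 : 0 < ((R : ℝ) ^ (2 - σ + κ)) ^ m := pow_pos (Real.rpow_pos_of_pos hR0 _) m
  have h3 := h.pc.wd_ge m
  have h7 : (R : ℝ) ^ (2 - σ + κ) ≤ (R : ℝ) ^ (1 - κ) := Real.rpow_le_rpow_of_exponent_le h.pc.R1.le (by linarith)
  have h8 : ((R : ℝ) ^ (2 - σ + κ)) ^ m ≤ ((R : ℝ) ^ (1 - κ)) ^ m :=
    pow_le_pow_left₀ (Real.rpow_nonneg hR0.le _) h7 m
  have hw0 := h.pc.wh.wd.pos m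
  have key : 3 * r * (15 / wd (Lw R κ) m) ≤ 90 * r / ((R : ℝ) ^ (2 - σ + κ)) ^ m := by
    rw [le_div_iff₀ hQ0]
    have h9 : ((R : ℝ) ^ (2 - σ + κ)) ^ m ≤ 2 * wd (Lw R κ) m := by linarith
    calc 3 * r * (15 / wd (Lw R κ) m) * ((R : ℝ) ^ (2 - σ + κ)) ^ m
        ≤ 3 * r * (15 / wd (Lw R κ) m) * (2 * wd (Lw R κ) m) := by gcongr
      _ = 90 * r := by field_simp; ring
  constructor
  · exact ((p_pkt P m).close hv hw hr).trans key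
  · exact ((q_pkt P m).close hv hw hr).trans key

/-- The state of the data. -/
theorem St_of {Q z b : ℝ} {x y : ℕ → ℝ → ℝ} {n : ℕ} {A : ℝ} (hb : 0 ≤ b) (hQ : 0 < Q) (h : WP.St Q z b x n 0 A)
    (hy : ∀ k, |y k 0| ≤ b / Q ^ k) : St Q z b x y n 0 A := by
  obtain ⟨a1, a2, a3, a4, a5, a6, a7, a8, a9⟩ := h
  refine ⟨a1, a2, a3, a4, a5, a6, a7, a8, a9, fun k => (hy k).trans ?_⟩
  have h1 := wq_ge n k
  have h2 : 0 < Q ^ k := pow_pos hQ k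
  exact le_mul_of_one_le_left (by positivity) h1

theorem Cond_of {R P Q Λ z G ℓ β b A : ℝ} {N n : ℕ} (hN : N ≤ n) (h : WP.Cond R P Q Λ z G ℓ β b n A) :
    Cond R P Q Λ z G ℓ β b N n A := by
  obtain ⟨a1, a2, a3, a4⟩ := h
  exact ⟨hN, a1, a2, a3, a4⟩

end Pool.Agent.N980.WQ
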