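import Pool.Agent.N980.WP.Lp

/-!
The derivative of the Fejér kernel.
-/

open MeasureTheory Set Filter Topology
open scoped ContDiff

set_option linter.unusedVariables false

namespace Pool.Agent.N980.WQ

open Pool.Agent.N980.NU
open Pool.Agent.N980.WP

theorem cosI (m : ℤ) : ∫ y in Icc (0 : ℝ) 1, Real.cos (2 * Real.pi * m * y) = if m = 0 then 1 else 0 := by
  rw [integral_Icc_eq_integral_Ioc, ← intervalIntegral.integral_of_le zero_le_one]
  split_ifs with h
  · simp [h]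
  · have hm : (m : ℝ) ≠ 0 := by exact_mod_cast h
    have hc : (2 * Real.pi * m : ℝ) ≠ 0 := mul_ne_zero (by positivity) hm
    rw [intervalIntegral.integral_comp_mul_left (fun x => Real.cos x) hc, integral_cos]
    have e : 2 * Real.pi * (m : ℝ) * 1 = ((2 * m : ℤ) : ℝ) * Real.pi := by push_cast; ring
    rw [e, Real.sin_int_mul_pi]
    simp

theorem int_Icc {f : ℝ → ℝ} (hf : Continuous f) : IntegrableOn f (Icc (0 : ℝ) 1) := hf.integrableOn_Icc

/-- The mean of the kernel. -/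
theorem fejI (L : ℕ) : ∫ y in Icc (0 : ℝ) 1, fej L y = 1 := by
  unfold fej
  rw [integral_finsetSum _ fun j _ => int_Icc (by fun_prop)]
  have : ∀ j : ℤ, ∫ y in Icc (0 : ℝ) 1, fw L j * Real.cos (2 * Real.pi * j * y) = fw L j * if j = 0 then 1 else 0 := by
    intro j
    rw [integral_const_mul, cosI]
  simp only [this]
  rw [Finset.sum_eq_single 0]
  · rw [if_pos rfl, fw_zero, mul_one]
  · intro j _ hj
    rw [if_neg hj, mul_zero]
  · intro h
    exact absurd (Finset.mem_Icc.2 ⟨by omega, by omega⟩) h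

/-- Weighted sums of cosines and sines. -/
noncomputable def Ca (a : ℕ → ℝ) (n : ℕ) (y : ℝ) : ℝ := ∑ j ∈ Finset.range n, a j * Real.cos (j * (2 * Real.pi * y))

noncomputable def Sa (a : ℕ → ℝ) (n : ℕ) (y : ℝ) : ℝ := ∑ j ∈ Finset.range n, a j * Real.sin (j * (2 * Real.pi * y))

theorem Ca_cont (a : ℕ → ℝ) (n : ℕ) : Continuous (Ca a n) := by unfold Ca; fun_prop

theorem Sa_cont (a : ℕ → ℝ) (n : ℕ) : Continuous (Sa a n) := by unfold Sa; fun_prop

theorem sqI (a : ℕ → ℝ) (n : ℕ) :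
    ∫ y in Icc (0 : ℝ) 1, (Ca a n y ^ 2 + Sa a n y ^ 2) = ∑ j ∈ Finset.range n, a j ^ 2 := by
  have e : ∀ y, Ca a n y ^ 2 + Sa a n y ^ 2 = ∑ j ∈ Finset.range n, ∑ l ∈ Finset.range n,
      a j * a l * Real.cos (2 * Real.pi * (((j : ℤ) - (l : ℤ) : ℤ) : ℝ) * y) := by
    intro y
    unfold Ca Sa
    rw [sq, sq, Finset.sum_mul_sum, Finset.sum_mul_sum, ← Finset.sum_add_distrib]
    refine Finset.sum_congr rfl fun j _ => ?_
    rw [← Finset.sum_add_distrib]
    refine Finset.sum_congr rfl fun l _ => ?_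
    have e1 : 2 * Real.pi * (((j : ℤ) - (l : ℤ) : ℤ) : ℝ) * y = j * (2 * Real.pi * y) - l * (2 * Real.pi * y) := by
      push_cast; ring
    rw [e1, Real.cos_sub]
    ring
  simp only [e]
  rw [integral_finsetSum _ fun j _ => int_Icc (by fun_prop)]
  refine Finset.sum_congr rfl fun j hj => ?_
  rw [integral_finsetSum _ fun l _ => int_Icc (by fun_prop)]
  have h1 : ∀ l : ℕ, ∫ y in Icc (0 : ℝ) 1, a j * a l * Real.cos (2 * Real.pi * (((j : ℤ) - (l : ℤ) : ℤ) : ℝ) * y)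
      = if l = j then a j * a l else 0 := by
    intro l
    rw [integral_const_mul, cosI]
    by_cases h : l = j
    · subst h
      simp
    · have : ¬((j : ℤ) - (l : ℤ) = 0) := by omega
      rw [if_neg this, if_neg h, mul_zero]
  simp only [h1]
  rw [Finset.sum_ite_eq' (Finset.range n) j, if_pos hj]
  ring

/-- The derivative of the kernel. -/
noncomputable def fejD (L : ℕ) (y : ℝ) : ℝ :=
  ∑ j ∈ Finset.Icc (-(L : ℤ)) L, fw L j * (-Real.sin (2 * Real.pi * j * y) * (2 * Real.pi * j))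

theorem fej_deriv (L : ℕ) (y : ℝ) : HasDerivAt (fej L) (fejD L y) y := by
  unfold fej fejD
  refine HasDerivAt.fun_sum fun j _ => ?_
  have h1 : HasDerivAt (fun y : ℝ => 2 * Real.pi * j * y) (2 * Real.pi * j) y := by
    simpa using (hasDerivAt_id' y).const_mul (2 * Real.pi * (j : ℝ))
  exact h1.cos.const_mul _

theorem fejD_cont (L : ℕ) : Continuous (fejD L) := by unfold fejD; fun_prop

theorem fejD_sup (L : ℕ) (y : ℝ) : |fejD L y| ≤ 2 * Real.pi * ((L : ℝ) + 1) ^ 2 := by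
  have hpi := Real.pi_pos
  unfold fejD
  refine (Finset.abs_sum_le_sum_abs _ _).trans ?_
  have h1 : ∀ j ∈ Finset.Icc (-(L : ℤ)) L, |fw L j * (-Real.sin (2 * Real.pi * j * y) * (2 * Real.pi * j))|
      ≤ fw L j * (2 * Real.pi * ((L : ℝ) + 1)) := by
    intro j hj
    rw [Finset.mem_Icc] at hj
    have h2 : |(j : ℝ)| ≤ L := by
      have : |j| ≤ (L : ℤ) := abs_le.2 ⟨by omega, by omega⟩
      have h3 : ((|j| : ℤ) : ℝ) ≤ ((L : ℤ) : ℝ) := by exact_mod_cast this
      push_cast at h3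
      exact h3
    rw [abs_mul, abs_mul, abs_neg, abs_mul, abs_of_nonneg (fw_nonneg L j), abs_of_pos (by positivity : 0 < 2 * Real.pi)]
    have h4 := Real.abs_sin_le_one (2 * Real.pi * j * y)
    have h5 := fw_nonneg L j
    refine mul_le_mul_of_nonneg_left ?_ h5
    calc |Real.sin (2 * Real.pi * j * y)| * (2 * Real.pi * |(j : ℝ)|) ≤ 1 * (2 * Real.pi * L) := by gcongr
      _ ≤ 2 * Real.pi * ((L : ℝ) + 1) := by nlinarith
  refine (Finset.sum_le_sum h1).trans ?_
  rw [← Finset.sum_mul, fw_sum]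
  nlinarith

theorem fej_sq' (L : ℕ) (y : ℝ) :
    fej L y * ((L : ℝ) + 1) = Ca (fun _ => 1) (L + 1) y ^ 2 + Sa (fun _ => 1) (L + 1) y ^ 2 := by
  have h1 := fej_sq L (2 * Real.pi * y)
  have h2 : fej L y * ((L : ℝ) + 1) = ((L : ℝ) + 1)
      + 2 * ∑ j ∈ Finset.range L, ((L : ℝ) - j) * Real.cos ((j + 1) * (2 * Real.pi * y)) := by
    rw [fej_eq, add_mul, one_mul]
    congr 1
    rw [mul_assoc, Finset.sum_mul]
    congr 1
    refine Finset.sum_congr rfl fun j _ => ?_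
    have e : 2 * Real.pi * ((j : ℝ) + 1) * y = ((j : ℝ) + 1) * (2 * Real.pi * y) := by ring
    rw [e]
    field_simp
    ring
  rw [h2, ← h1]
  unfold Ca Sa
  simp only [one_mul]

theorem Ca_deriv (a : ℕ → ℝ) (n : ℕ) (y : ℝ) :
    HasDerivAt (Ca a n) (-(2 * Real.pi * Sa (fun j => j * a j) n y)) y := by
  have e : -(2 * Real.pi * Sa (fun j => j * a j) n y)
      = ∑ j ∈ Finset.range n, a j * (-Real.sin (j * (2 * Real.pi * y)) * (j * (2 * Real.pi))) := by
    unfold Sa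
    rw [Finset.mul_sum, ← Finset.sum_neg_distrib]
    exact Finset.sum_congr rfl fun j _ => by ring
  rw [e]
  unfold Ca
  refine HasDerivAt.fun_sum fun j _ => ?_
  have h1 : HasDerivAt (fun y : ℝ => (j : ℝ) * (2 * Real.pi * y)) (j * (2 * Real.pi)) y := by
    simpa using ((hasDerivAt_id' y).const_mul (2 * Real.pi)).const_mul (j : ℝ)
  exact h1.cos.const_mul _

theorem Sa_deriv (a : ℕ → ℝ) (n : ℕ) (y : ℝ) :
    HasDerivAt (Sa a n) (2 * Real.pi * Ca (fun j => j * a j) n y) y := by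
  have e : 2 * Real.pi * Ca (fun j => j * a j) n y
      = ∑ j ∈ Finset.range n, a j * (Real.cos (j * (2 * Real.pi * y)) * (j * (2 * Real.pi))) := by
    unfold Ca
    rw [Finset.mul_sum]
    exact Finset.sum_congr rfl fun j _ => by ring
  rw [e]
  unfold Sa
  refine HasDerivAt.fun_sum fun j _ => ?_
  have h1 : HasDerivAt (fun y : ℝ => (j : ℝ) * (2 * Real.pi * y)) (j * (2 * Real.pi)) y := by
    simpa using ((hasDerivAt_id' y).const_mul (2 * Real.pi)).const_mul (j : ℝ)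
  exact h1.sin.const_mul _

/-- The majorant of the derivative of the kernel. -/
noncomputable def fejM (L : ℕ) (y : ℝ) : ℝ :=
  2 * Real.pi * (((L : ℝ) + 1) * fej L y
    + (Ca (fun j => j * 1) (L + 1) y ^ 2 + Sa (fun j => j * 1) (L + 1) y ^ 2) / ((L : ℝ) + 1) ^ 2)

theorem fejD_le (L : ℕ) (y : ℝ) : |fejD L y| ≤ fejM L y := by
  have hpi := Real.pi_pos
  set l : ℝ := (L : ℝ) + 1 with hl
  have hl0 : 0 < l := by positivity
  have h1 : HasDerivAt (fun y => fej L y * l) (fejD L y * l) y := (fej_deriv L y).mul_const l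
  have h2 : (fun y => fej L y * l) = fun y => Ca (fun _ => 1) (L + 1) y ^ 2 + Sa (fun _ => 1) (L + 1) y ^ 2 :=
    funext fun y => fej_sq' L y
  rw [h2] at h1
  have h3 := ((Ca_deriv (fun _ => 1) (L + 1) y).pow 2).add ((Sa_deriv (fun _ => 1) (L + 1) y).pow 2)
  have h4 := h1.unique h3
  have h5 := fej_sq' L y
  rw [← hl] at h5
  unfold fejM
  rw [← hl]
  set C := Ca (fun _ => 1) (L + 1) y
  set S := Sa (fun _ => 1) (L + 1) y
  set U := Sa (fun j => j * 1) (L + 1) y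
  set W := Ca (fun j => j * 1) (L + 1) y
  have h6 : fejD L y * l = 4 * Real.pi * (S * W - C * U) := by
    rw [h4]; norm_num; ring
  have h7 : |S * W - C * U| * (2 * l) ≤ l ^ 2 * (C ^ 2 + S ^ 2) + (W ^ 2 + U ^ 2) := by
    have h8 : (S * W - C * U) * (2 * l) ≤ l ^ 2 * (C ^ 2 + S ^ 2) + (W ^ 2 + U ^ 2) := by
      nlinarith [sq_nonneg (l * S - W), sq_nonneg (l * C + U)]
    have h9 : -(S * W - C * U) * (2 * l) ≤ l ^ 2 * (C ^ 2 + S ^ 2) + (W ^ 2 + U ^ 2) := by
      nlinarith [sq_nonneg (l * S + W), sq_nonneg (l * C - U)]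
    rcases abs_cases (S * W - C * U) with h | h <;> rw [h.1]
    · exact h8
    · exact h9
  have h8 : |fejD L y| * l = 4 * Real.pi * |S * W - C * U| := by
    have e0 : |fejD L y| * l = |fejD L y * l| := by rw [abs_mul, abs_of_pos hl0]
    rw [e0, h6, abs_mul, abs_of_pos (by positivity)]
  have h9 : |fejD L y| * l ^ 2 ≤ 2 * Real.pi * (l * fej L y + (W ^ 2 + U ^ 2) / l ^ 2) * l ^ 2 := by
    have e1 : |fejD L y| * l ^ 2 = 2 * Real.pi * (|S * W - C * U| * (2 * l)) := by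
      calc |fejD L y| * l ^ 2 = (|fejD L y| * l) * l := by ring
        _ = _ := by rw [h8]; ring
    have e2 : 2 * Real.pi * (l * fej L y + (W ^ 2 + U ^ 2) / l ^ 2) * l ^ 2
        = 2 * Real.pi * (l ^ 2 * (fej L y * l) + (W ^ 2 + U ^ 2)) := by
      field_simp
    rw [e1, e2, h5]
    gcongr
  exact le_of_mul_le_mul_right h9 (by positivity)

theorem fejM_cont (L : ℕ) : Continuous (fejM L) := by
  have h1 := fej_cont L
  have h2 := Ca_cont (fun j => j * 1) (L + 1)
  have h3 := Sa_cont (fun j => j * 1) (L + 1)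
  unfold fejM
  fun_prop

theorem fejM_int (L : ℕ) : ∫ y in Icc (0 : ℝ) 1, fejM L y ≤ 4 * Real.pi * ((L : ℝ) + 1) := by
  have hpi := Real.pi_pos
  have hl0 : (0 : ℝ) < (L : ℝ) + 1 := by positivity
  have h1 := fej_cont L
  have h2 := Ca_cont (fun j => j * 1) (L + 1)
  have h3 := Sa_cont (fun j => j * 1) (L + 1)
  unfold fejM
  rw [integral_const_mul, integral_add (int_Icc (by fun_prop)) (int_Icc (by fun_prop)), integral_const_mul,
    integral_div, fejI, sqI]
  have h4 : ∑ j ∈ Finset.range (L + 1), ((j : ℝ) * 1) ^ 2 ≤ ((L : ℝ) + 1) * ((L : ℝ) + 1) ^ 2 := by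
    have : ∀ j ∈ Finset.range (L + 1), ((j : ℝ) * 1) ^ 2 ≤ ((L : ℝ) + 1) ^ 2 := by
      intro j hj
      rw [Finset.mem_range] at hj
      have h5 : (j : ℝ) ≤ L := by exact_mod_cast (by omega : j ≤ L)
      rw [mul_one]
      have : (0 : ℝ) ≤ j := Nat.cast_nonneg j
      gcongr
      linarith
    refine (Finset.sum_le_sum this).trans ?_
    rw [Finset.sum_const, Finset.card_range, nsmul_eq_mul]
    push_cast
    exact le_rfl
  have h5 : (∑ j ∈ Finset.range (L + 1), ((j : ℝ) * 1) ^ 2) / ((L : ℝ) + 1) ^ 2 ≤ (L : ℝ) + 1 := by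
    rw [div_le_iff₀ (by positivity)]
    exact h4
  nlinarith

theorem cube_prod (f g : ℝ → ℝ) :
    ∫ x in cube, f (x 0) * g (x 1) = (∫ y in Icc (0 : ℝ) 1, f y) * ∫ y in Icc (0 : ℝ) 1, g y := by
  have h1 : (volume : Measure V).restrict cube = Measure.pi fun _ : Fin 3 => (volume : Measure ℝ).restrict (Icc 0 1) := by
    have e : cube = Set.pi univ fun _ : Fin 3 => Icc (0 : ℝ) 1 := by
      unfold cube
      rw [← Set.pi_univ_Icc]
      rfl
    rw [e, volume_pi, Measure.restrict_pi_pi]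
  rw [h1]
  have h2 : ∀ x : V, f (x 0) * g (x 1) = ∏ i : Fin 3, (![f, g, fun _ => 1] : Fin 3 → ℝ → ℝ) i (x i) := by
    intro x
    rw [Fin.prod_univ_three]
    show _ = f (x 0) * g (x 1) * 1
    ring
  simp only [h2]
  rw [integral_fintype_prod_eq_prod, Fin.prod_univ_three]
  show (∫ y in Icc (0 : ℝ) 1, f y) * (∫ y in Icc (0 : ℝ) 1, g y) * (∫ y in Icc (0 : ℝ) 1, (1 : ℝ)) = _
  simp

end Pool.Agent.N980.WQ
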