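import Pool.Agent.N980.WP.Sol
import Pool.Agent.N980.WP.Fam
import Pool.Agent.N980.NU.Kp2

/-!
The helicity equality.
-/

open MeasureTheory Set Filter Topology
open scoped ContDiff

set_option linter.unusedVariables false

namespace Pool.Agent.N980.WQ

open Pool.Agent.N980.NU
open Pool.Agent.N980.WP

/-! ### vector calculus -/

theorem curl0 (v : V → V) (x : V) : curl v x 0 = pd 1 (fun y => v y 2) x - pd 2 (fun y => v y 1) x := rfl
theorem curl1 (v : V → V) (x : V) : curl v x 1 = pd 2 (fun y => v y 0) x - pd 0 (fun y => v y 2) x := rfl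
theorem curl2 (v : V → V) (x : V) : curl v x 2 = pd 0 (fun y => v y 1) x - pd 1 (fun y => v y 0) x := rfl

theorem pd_sub' {f g : V → ℝ} (hf : H459R3.NS.SP f) (hg : H459R3.NS.SP g) (j : Fin 3) (x : V) :
    pd j (fun y => f y - g y) x = pd j f x - pd j g x := by
  unfold pd
  have h : HasFDerivAt (fun y => f y - g y) _ x := (hf.diff x).hasFDerivAt.sub (hg.diff x).hasFDerivAt
  rw [h.fderiv]
  rfl

theorem dv_curl {v : V → V} (hv : SPV v) (x : V) : dv (curl v) x = 0 := by
  have s := fun i j => sp_pd (hv.sp i) j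
  have c : ∀ i a b, pd a (pd b fun y => v y i) x = pd b (pd a fun y => v y i) x := fun i a b =>
    congrFun (H459R3.NS.pd_comm (hv.sp i) a b) x
  unfold dv
  rw [Fin.sum_univ_three]
  have e0 : (fun y => curl v y 0) = fun y => pd 1 (fun y => v y 2) y - pd 2 (fun y => v y 1) y := rfl
  have e1 : (fun y => curl v y 1) = fun y => pd 2 (fun y => v y 0) y - pd 0 (fun y => v y 2) y := rfl
  have e2 : (fun y => curl v y 2) = fun y => pd 0 (fun y => v y 1) y - pd 1 (fun y => v y 0) y := rfl
  rw [e0, e1, e2, pd_sub' (s 2 1) (s 1 2), pd_sub' (s 0 2) (s 2 0), pd_sub' (s 1 0) (s 0 1),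
    c 2 0 1, c 1 0 2, c 0 1 2]
  ring

theorem curl_curl {v : V → V} (hv : SPV v) (hd : ∀ x, dv v x = 0) (x : V) (i : Fin 3) :
    curl (curl v) x i = -lap v x i := by
  have s := fun i j => sp_pd (hv.sp i) j
  have c : ∀ i a b, pd a (pd b fun y => v y i) x = pd b (pd a fun y => v y i) x := fun i a b =>
    congrFun (H459R3.NS.pd_comm (hv.sp i) a b) x
  have e0 : (fun y => curl v y 0) = fun y => pd 1 (fun y => v y 2) y - pd 2 (fun y => v y 1) y := rfl
  have e1 : (fun y => curl v y 1) = fun y => pd 2 (fun y => v y 0) y - pd 0 (fun y => v y 2) y := rfl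
  have e2 : (fun y => curl v y 2) = fun y => pd 0 (fun y => v y 1) y - pd 1 (fun y => v y 0) y := rfl
  have hdiv : ∀ j, pd j (pd 0 fun y => v y 0) x + pd j (pd 1 fun y => v y 1) x + pd j (pd 2 fun y => v y 2) x = 0 := by
    intro j
    have h1 : (fun y => ∑ i, pd i (fun z => v z i) y) = fun _ => (0 : ℝ) := funext hd
    have h2 : pd j (fun y => ∑ i, pd i (fun z => v z i) y) x = ∑ i, pd j (pd i fun z => v z i) x :=
      H459R3.NS.pd_sum (fun i _ => s i i) j x
    rw [h1, Fin.sum_univ_three] at h2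
    rw [← h2]
    unfold pd
    rw [fderiv_fun_const]
    rfl
  have hlap : ∀ i, lap v x i = pd 0 (pd 0 fun y => v y i) x + pd 1 (pd 1 fun y => v y i) x
      + pd 2 (pd 2 fun y => v y i) x := by
    intro i
    show ∑ j, pd j (pd j fun y => v y i) x = _
    rw [Fin.sum_univ_three]
  fin_cases i
  · show curl (curl v) x 0 = -lap v x 0
    rw [curl0, e1, e2, pd_sub' (s 1 0) (s 0 1), pd_sub' (s 0 2) (s 2 0), hlap, c 1 1 0, c 2 2 0]
    have := hdiv 0
    linarith
  · show curl (curl v) x 1 = -lap v x 1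
    rw [curl1, e0, e2, pd_sub' (s 2 1) (s 1 2), pd_sub' (s 1 0) (s 0 1), hlap, c 2 2 1, c 0 0 1]
    have := hdiv 1
    linarith
  · show curl (curl v) x 2 = -lap v x 2
    rw [curl2, e0, e1, pd_sub' (s 0 2) (s 2 0), pd_sub' (s 2 1) (s 1 2), hlap, c 0 0 2, c 1 1 2]
    have := hdiv 2
    linarith

theorem ibp' {f g : V → ℝ} (hf : H459R3.NS.SP f) (hg : H459R3.NS.SP g) (j : Fin 3) :
    ∫ x in cube, pd j f x * g x = -∫ x in cube, f x * pd j g x := H459R3.NS.ibp hf hg j

theorem int_six {f1 f2 g1 g2 h1 h2 : V → ℝ} (a1 : Integrable f1 (volume.restrict cube))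
    (a2 : Integrable f2 (volume.restrict cube)) (b1 : Integrable g1 (volume.restrict cube))
    (b2 : Integrable g2 (volume.restrict cube)) (c1 : Integrable h1 (volume.restrict cube))
    (c2 : Integrable h2 (volume.restrict cube)) :
    ∫ x in cube, ((f1 x - f2 x) + (g1 x - g2 x) + (h1 x - h2 x)) = (∫ x in cube, f1 x) - (∫ x in cube, f2 x)
      + ((∫ x in cube, g1 x) - ∫ x in cube, g2 x) + ((∫ x in cube, h1 x) - ∫ x in cube, h2 x) := by
  have d1 : Integrable (fun x => f1 x - f2 x) (volume.restrict cube) := a1.sub a2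
  have d2 : Integrable (fun x => g1 x - g2 x) (volume.restrict cube) := b1.sub b2
  have d3 : Integrable (fun x => h1 x - h2 x) (volume.restrict cube) := c1.sub c2
  have d12 : Integrable (fun x => (f1 x - f2 x) + (g1 x - g2 x)) (volume.restrict cube) := d1.add d2
  rw [integral_add d12 d3, integral_add d1 d2, integral_sub a1 a2, integral_sub b1 b2, integral_sub c1 c2]

/-- The curl is symmetric. -/
theorem ip_curl {a b : V → V} (ha : SPV a) (hb : SPV b) : ip (curl a) b = ip a (curl b) := by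
  have s := fun i j => sp_pd (ha.sp i) j
  have t := fun i j => sp_pd (hb.sp i) j
  have i1 : ∀ i j k, Integrable (fun x => pd j (fun y => a y i) x * b x k) (volume.restrict cube) := fun i j k =>
    ((s i j).mul (hb.sp k)).int
  have i2 : ∀ i j k, Integrable (fun x => a x k * pd j (fun y => b y i) x) (volume.restrict cube) := fun i j k =>
    ((ha.sp k).mul (t i j)).int
  have l : ip (curl a) b = (∫ x in cube, pd 1 (fun y => a y 2) x * b x 0) - (∫ x in cube, pd 2 (fun y => a y 1) x * b x 0)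
      + ((∫ x in cube, pd 2 (fun y => a y 0) x * b x 1) - ∫ x in cube, pd 0 (fun y => a y 2) x * b x 1)
      + ((∫ x in cube, pd 0 (fun y => a y 1) x * b x 2) - ∫ x in cube, pd 1 (fun y => a y 0) x * b x 2) := by
    rw [← int_six (i1 2 1 0) (i1 1 2 0) (i1 0 2 1) (i1 2 0 1) (i1 1 0 2) (i1 0 1 2)]
    unfold ip
    congr 1
    funext x
    rw [Fin.sum_univ_three, curl0, curl1, curl2]
    ring
  have r : ip a (curl b) = (∫ x in cube, a x 0 * pd 1 (fun y => b y 2) x) - (∫ x in cube, a x 0 * pd 2 (fun y => b y 1) x)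
      + ((∫ x in cube, a x 1 * pd 2 (fun y => b y 0) x) - ∫ x in cube, a x 1 * pd 0 (fun y => b y 2) x)
      + ((∫ x in cube, a x 2 * pd 0 (fun y => b y 1) x) - ∫ x in cube, a x 2 * pd 1 (fun y => b y 0) x) := by
    rw [← int_six (i2 2 1 0) (i2 1 2 0) (i2 0 2 1) (i2 2 0 1) (i2 1 0 2) (i2 0 1 2)]
    unfold ip
    congr 1
    funext x
    rw [Fin.sum_univ_three, curl0, curl1, curl2]
    ring
  rw [l, r, ibp' (ha.sp 2) (hb.sp 0), ibp' (ha.sp 1) (hb.sp 0), ibp' (ha.sp 0) (hb.sp 1), ibp' (ha.sp 2) (hb.sp 1),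
    ibp' (ha.sp 1) (hb.sp 2), ibp' (ha.sp 0) (hb.sp 2)]
  ring

/-- The convection term is orthogonal to the vorticity. -/
theorem conv_curl {v : V → V} (hv : SPV v) :
    ∫ x in cube, ∑ i, (∑ j, v x j * pd j (fun y => v y i) x) * curl v x i = 0 := by
  have hq : H459R3.NS.SP fun x => ∑ j, (1 / 2 : ℝ) * (v x j * v x j) :=
    H459R3.NS.SP.sum fun j _ => ⟨contDiff_const.mul (((hv.sp j).mul (hv.sp j)).smooth), fun k x => by
      show (1 / 2 : ℝ) * (v (x + Pi.single k 1) j * v (x + Pi.single k 1) j) = _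
      rw [hv.2 x k]⟩
  have hω := hv.curl
  have h1 := H459R3.NS.int_press (v := fun i y => curl v y i) (fun i => hω.sp i) (fun x => dv_curl hv x) hq
  rw [← integral_finsetSum _ fun i _ => ((hω.sp i).mul (hq.pd i)).int] at h1
  rw [← h1]
  congr 1
  funext x
  have hpd : ∀ i, H459R3.NS.pd i (fun x => ∑ j, (1 / 2 : ℝ) * (v x j * v x j)) x
      = ∑ j, v x j * pd i (fun y => v y j) x := by
    intro i
    have hd : ∀ j, HasFDerivAt (fun y : V => (1 / 2 : ℝ) * (v y j * v y j)) _ x := fun j =>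
      (((hv.sp j).diff x).hasFDerivAt.mul ((hv.sp j).diff x).hasFDerivAt).const_mul (1 / 2 : ℝ)
    have h2 : HasFDerivAt (fun y : V => ∑ j, (1 / 2 : ℝ) * (v y j * v y j)) _ x :=
      HasFDerivAt.fun_sum fun j (_ : j ∈ Finset.univ) => hd j
    show fderiv ℝ _ x (Pi.single i 1) = _
    rw [h2.fderiv]
    simp only [FunLike.coe_sum, Finset.sum_apply]
    refine Finset.sum_congr rfl fun j _ => ?_
    simp only [add_apply, smul_apply, smul_eq_mul]
    unfold pd
    ring
  simp only [hpd]
  simp only [Fin.sum_univ_three, curl0, curl1, curl2]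
  ring

/-! ### the helicity of a solution -/

variable {ν T : ℝ} {Kf : (V → V) → (V → V) → V → V} {u : ℝ → V → V} {p : ℝ → V → ℝ}

theorem curl_sm (h : Sol ν Kf T u p) (i : Fin 3) :
    ContDiffOn ℝ ∞ (fun z : ℝ × V => curl (u z.1) z.2 i) (Ico 0 T ×ˢ univ) := by
  have s : ∀ i j, ContDiffOn ℝ ∞ (fun z : ℝ × V => pd j (fun y => u z.1 y i) z.2) (Ico 0 T ×ˢ univ) := fun i j =>
    H459R3.NS.contDiffOn_pd (f := fun s y => u s y i) (h.sm i) j
  fin_cases i
  · exact (s 2 1).sub (s 1 2)
  · exact (s 0 2).sub (s 2 0)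
  · exact (s 1 0).sub (s 0 1)

theorem curl2_sm (h : Sol ν Kf T u p) (i : Fin 3) :
    ContDiffOn ℝ ∞ (fun z : ℝ × V => curl (curl (u z.1)) z.2 i) (Ico 0 T ×ˢ univ) := by
  have s : ∀ i j, ContDiffOn ℝ ∞ (fun z : ℝ × V => pd j (fun y => curl (u z.1) y i) z.2) (Ico 0 T ×ˢ univ) :=
    fun i j => H459R3.NS.contDiffOn_pd (f := fun s y => curl (u s) y i) (curl_sm h i) j
  fin_cases i
  · exact (s 2 1).sub (s 1 2)
  · exact (s 0 2).sub (s 2 0)
  · exact (s 1 0).sub (s 0 1)

/-- The time derivative. -/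
noncomputable def ut (u : ℝ → V → V) (t : ℝ) : V → V := fun x i => deriv (fun s => u s x i) t

theorem ut_sp (h : Sol ν Kf T u p) {t : ℝ} (ht : t ∈ Ioo 0 T) : SPV (ut u t) := by
  refine SPV_of_sp fun i => ⟨?_, ?_⟩
  · exact H459R3.NS.contDiff_dt (f := fun s y => u s y i) (h.sm i) ht
  · intro j x
    show deriv (fun s => u s (x + Pi.single j 1) i) t = deriv (fun s => u s x i) t
    refine Filter.EventuallyEq.deriv_eq ?_
    filter_upwards [Ioo_mem_nhds ht.1 ht.2] with s hs
    rw [h.per_u s ⟨hs.1.le, hs.2⟩ x j]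

theorem curl_deriv (h : Sol ν Kf T u p) {t : ℝ} (ht : t ∈ Ioo 0 T) (x : V) (i : Fin 3) :
    HasDerivAt (fun s => curl (u s) x i) (curl (ut u t) x i) t := by
  have h1 := H459R3.NS.hasDerivAt_slice (F := fun s y => curl (u s) y i)
    (H459R3.NS.mono_Ioo (f := fun s y => curl (u s) y i) (n := 1) (curl_sm h i) (by norm_cast)) ht x
  have h2 : deriv (fun s => curl (u s) x i) t = curl (ut u t) x i := by
    have e : ∀ i j, deriv (fun s => pd j (fun y => u s y i) x) t = pd j (fun y => ut u t y i) x := fun i j =>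
      H459R3.NS.dt_pd (f := fun s y => u s y i) (h.sm i) ht j x
    have d : ∀ i j, DifferentiableAt ℝ (fun s => pd j (fun y => u s y i) x) t := fun i j =>
      (H459R3.NS.hasDerivAt_slice (F := fun s y => pd j (fun z => u s z i) y)
        (H459R3.NS.mono_Ioo (f := fun s y => pd j (fun z => u s z i) y) (n := 1)
          (H459R3.NS.contDiffOn_pd (f := fun s y => u s y i) (h.sm i) j) (by norm_cast)) ht x).differentiableAt
    fin_cases i
    · show deriv (fun s => pd 1 (fun y => u s y 2) x - pd 2 (fun y => u s y 1) x) t = curl (ut u t) x 0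
      rw [curl0, ← e 2 1, ← e 1 2]
      exact deriv_sub (d 2 1) (d 1 2)
    · show deriv (fun s => pd 2 (fun y => u s y 0) x - pd 0 (fun y => u s y 2) x) t = curl (ut u t) x 1
      rw [curl1, ← e 0 2, ← e 2 0]
      exact deriv_sub (d 0 2) (d 2 0)
    · show deriv (fun s => pd 0 (fun y => u s y 1) x - pd 1 (fun y => u s y 0) x) t = curl (ut u t) x 2
      rw [curl2, ← e 1 0, ← e 0 1]
      exact deriv_sub (d 1 0) (d 0 1)
  rw [← h2]
  exact h1.differentiableAt.hasDerivAt

theorem hel_deriv (h : Sol ν Kf T u p) (hO : Opr Kf) (hH : ∀ v, SPV v → ip (Kf v v) (curl v) = 0) {t : ℝ}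
    (ht : t ∈ Ioo 0 T) :
    HasDerivAt (fun s => ip (u s) (curl (u s))) (-(2 * ν * ip (curl (u t)) (curl (curl (u t))))) t := by
  have hI : t ∈ Ico 0 T := ⟨ht.1.le, ht.2⟩
  have hspv := h.spv hI
  have hω := hspv.curl
  have hW := ut_sp h ht
  have hdiv : ∀ x, dv (u t) x = 0 := h.divfree t hI
  have hP := h.spp hI
  have hK : SPV (Kf (u t) (u t)) := hO.spv _ _ hspv hspv
  have hF : ContDiffOn ℝ 1 (fun z : ℝ × V => ∑ i, u z.1 z.2 i * curl (u z.1) z.2 i) (Ioo 0 T ×ˢ univ) :=
    ContDiffOn.sum fun i _ => (H459R3.NS.mono_Ioo (f := fun s y => u s y i) (n := 1) (h.sm i) (by norm_cast)).mul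
      (H459R3.NS.mono_Ioo (f := fun s y => curl (u s) y i) (n := 1) (curl_sm h i) (by norm_cast))
  have key := H459R3.NS.hasDerivAt_int (F := fun s x => ∑ i, u s x i * curl (u s) x i) hF ht
  refine key.congr_deriv ?_
  have hu : ∀ x i, HasDerivAt (fun s => u s x i) (ut u t x i) t := fun x i =>
    (h.hd ht x i).differentiableAt.hasDerivAt
  have h3 : ∀ x, deriv (fun s => ∑ i, u s x i * curl (u s) x i) t
      = (∑ i, ut u t x i * curl (u t) x i) + ∑ i, u t x i * curl (ut u t) x i := by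
    intro x
    have h4 : HasDerivAt (fun s => ∑ i, u s x i * curl (u s) x i)
        (∑ i, (ut u t x i * curl (u t) x i + u t x i * curl (ut u t) x i)) t :=
      HasDerivAt.fun_sum fun i _ => (hu x i).mul (curl_deriv h ht x i)
    rw [h4.deriv, Finset.sum_add_distrib]
  simp_rw [h3]
  have j1 : Integrable (fun x => ∑ i, ut u t x i * curl (u t) x i) (volume.restrict cube) :=
    integrable_finsetSum _ fun i _ => ((hW.sp i).mul (hω.sp i)).int
  have j2 : Integrable (fun x => ∑ i, u t x i * curl (ut u t) x i) (volume.restrict cube) :=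
    integrable_finsetSum _ fun i _ => ((hspv.sp i).mul (hW.curl.sp i)).int
  have e1 : ∫ x in cube, ((∑ i, ut u t x i * curl (u t) x i) + ∑ i, u t x i * curl (ut u t) x i)
      = 2 * ip (ut u t) (curl (u t)) := by
    rw [integral_add j1 j2]
    have a1 : ∫ x in cube, ∑ i, ut u t x i * curl (u t) x i = ip (ut u t) (curl (u t)) := rfl
    have a2 : ∫ x in cube, ∑ i, u t x i * curl (ut u t) x i = ip (ut u t) (curl (u t)) := by
      have : ∫ x in cube, ∑ i, u t x i * curl (ut u t) x i = ip (u t) (curl (ut u t)) := rfl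
      rw [this, ← ip_curl hspv hW, ip_comm]
    rw [a1, a2]
    ring
  show ∫ x in cube, ((∑ i, ut u t x i * curl (u t) x i) + ∑ i, u t x i * curl (ut u t) x i) = _
  rw [e1]
  -- the equation
  have e2 : ∀ x, ∑ i, ut u t x i * curl (u t) x i
      = ν * (∑ i, lap (u t) x i * curl (u t) x i)
        - (∑ i, (∑ j, u t x j * pd j (fun y => u t y i) x) * curl (u t) x i)
        - (∑ i, curl (u t) x i * H459R3.NS.pd i (p t) x) + ∑ i, Kf (u t) (u t) x i * curl (u t) x i := by
    intro x
    rw [Finset.mul_sum, ← Finset.sum_sub_distrib, ← Finset.sum_sub_distrib, ← Finset.sum_add_distrib]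
    refine Finset.sum_congr rfl fun i _ => ?_
    have h5 := h.momentum t ht x i
    have h6 : ut u t x i = ν * lap (u t) x i - (∑ j, u t x j * pd j (fun y => u t y i) x) - pd i (p t) x
        + Kf (u t) (u t) x i := by
      show deriv (fun s => u s x i) t = _
      linarith
    have h7 : H459R3.NS.pd i (p t) x = pd i (p t) x := rfl
    rw [h6, h7]
    ring
  have i1 : Integrable (fun x => ∑ i, lap (u t) x i * curl (u t) x i) (volume.restrict cube) :=
    integrable_finsetSum _ fun i _ => ((hspv.lap.sp i).mul (hω.sp i)).int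
  have i2 : Integrable (fun x => ∑ i, (∑ j, u t x j * pd j (fun y => u t y i) x) * curl (u t) x i)
      (volume.restrict cube) :=
    integrable_finsetSum _ fun i _ => ((H459R3.NS.sp_conv (fun i => hspv.sp i) i).mul (hω.sp i)).int
  have i3 : Integrable (fun x => ∑ i, curl (u t) x i * H459R3.NS.pd i (p t) x) (volume.restrict cube) :=
    integrable_finsetSum _ fun i _ => ((hω.sp i).mul (hP.pd i)).int
  have i4 : Integrable (fun x => ∑ i, Kf (u t) (u t) x i * curl (u t) x i) (volume.restrict cube) :=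
    integrable_finsetSum _ fun i _ => ((hK.sp i).mul (hω.sp i)).int
  have i1' : Integrable (fun x => ν * ∑ i, lap (u t) x i * curl (u t) x i) (volume.restrict cube) := i1.const_mul ν
  have i12 : Integrable (fun x => ν * (∑ i, lap (u t) x i * curl (u t) x i)
        - (∑ i, (∑ j, u t x j * pd j (fun y => u t y i) x) * curl (u t) x i)) (volume.restrict cube) := i1'.sub i2
  have i123 : Integrable (fun x => ν * (∑ i, lap (u t) x i * curl (u t) x i)
        - (∑ i, (∑ j, u t x j * pd j (fun y => u t y i) x) * curl (u t) x i)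
        - (∑ i, curl (u t) x i * H459R3.NS.pd i (p t) x)) (volume.restrict cube) := i12.sub i3
  have e3 : ip (ut u t) (curl (u t)) = ν * (∫ x in cube, ∑ i, lap (u t) x i * curl (u t) x i)
      - (∫ x in cube, ∑ i, (∑ j, u t x j * pd j (fun y => u t y i) x) * curl (u t) x i)
      - (∫ x in cube, ∑ i, curl (u t) x i * H459R3.NS.pd i (p t) x)
      + ∫ x in cube, ∑ i, Kf (u t) (u t) x i * curl (u t) x i := by
    unfold ip
    simp_rw [e2]
    rw [integral_add i123 i4, integral_sub i12 i3, integral_sub i1' i2, integral_const_mul]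
  have e4 : ∫ x in cube, ∑ i, Kf (u t) (u t) x i * curl (u t) x i = 0 := hH _ hspv
  have e5 : ∫ x in cube, ∑ i, curl (u t) x i * H459R3.NS.pd i (p t) x = 0 := by
    have i5 : ∀ i, Integrable (fun x => curl (u t) x i * H459R3.NS.pd i (p t) x) (volume.restrict cube) := fun i =>
      ((hω.sp i).mul (hP.pd i)).int
    rw [integral_finsetSum _ fun i _ => i5 i]
    exact H459R3.NS.int_press (v := fun i y => curl (u t) y i) (fun i => hω.sp i) (fun x => dv_curl hspv x) hP
  have e6 : ∫ x in cube, ∑ i, lap (u t) x i * curl (u t) x i = -ip (curl (u t)) (curl (curl (u t))) := by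
    unfold ip
    rw [← integral_neg]
    congr 1
    funext x
    rw [← Finset.sum_neg_distrib]
    refine Finset.sum_congr rfl fun i _ => ?_
    rw [curl_curl hspv hdiv x i]
    ring
  rw [e3, e4, e5, e6, conv_curl hspv]
  ring

theorem hel_cont (h : Sol ν Kf T u p) : ContinuousOn (fun s => ip (u s) (curl (u s))) (Ico 0 T) := by
  have h1 : ContinuousOn (fun z : ℝ × V => ∑ i, u z.1 z.2 i * curl (u z.1) z.2 i) (Ico 0 T ×ˢ univ) :=
    continuousOn_finsetSum _ fun i _ => (h.sm i).continuousOn.mul (curl_sm h i).continuousOn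
  exact H459R3.NS.continuousOn_int (F := fun s x => ∑ i, u s x i * curl (u s) x i) h1

theorem hel2_cont (h : Sol ν Kf T u p) : ContinuousOn (fun s => ip (curl (u s)) (curl (curl (u s)))) (Ico 0 T) := by
  have h1 : ContinuousOn (fun z : ℝ × V => ∑ i, curl (u z.1) z.2 i * curl (curl (u z.1)) z.2 i) (Ico 0 T ×ˢ univ) :=
    continuousOn_finsetSum _ fun i _ => (curl_sm h i).continuousOn.mul (curl2_sm h i).continuousOn
  exact H459R3.NS.continuousOn_int (F := fun s x => ∑ i, curl (u s) x i * curl (curl (u s)) x i) h1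

/-- The helicity equality. -/
theorem hel_eq (h : Sol ν Kf T u p) (hO : Opr Kf) (hH : ∀ v, SPV v → ip (Kf v v) (curl v) = 0) {t : ℝ}
    (ht : t ∈ Ico 0 T) :
    ip (u t) (curl (u t)) + 2 * ν * ∫ s in (0 : ℝ)..t, ip (curl (u s)) (curl (curl (u s))) = ip (u 0) (curl (u 0)) := by
  have hc' : ContinuousOn (fun s => ip (u s) (curl (u s))) (Icc 0 t) :=
    (hel_cont h).mono fun s hs => ⟨hs.1, hs.2.trans_lt ht.2⟩
  have hd : ∀ s ∈ Ioo 0 t, HasDerivAt (fun s => ip (u s) (curl (u s)))
      (-(2 * ν * ip (curl (u s)) (curl (curl (u s))))) s := fun s hs =>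
    hel_deriv h hO hH ⟨hs.1, hs.2.trans ht.2⟩
  have hc2 : ContinuousOn (fun s => -(2 * ν * ip (curl (u s)) (curl (curl (u s))))) (Icc 0 t) :=
    (((hel2_cont h).mono fun s hs => ⟨hs.1, hs.2.trans_lt ht.2⟩).const_smul (2 * ν)).neg
  have hi : IntervalIntegrable (fun s => -(2 * ν * ip (curl (u s)) (curl (curl (u s))))) volume 0 t := by
    apply ContinuousOn.intervalIntegrable
    rwa [uIcc_of_le ht.1]
  have := intervalIntegral.integral_eq_sub_of_hasDerivAt_of_le ht.1 hc' hd hi
  rw [intervalIntegral.integral_neg, intervalIntegral.integral_const_mul] at this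
  linarith

end Pool.Agent.N980.WQ
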