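import Pool.Agent.N980.WQ.Coef
import Pool.Agent.N980.WQ.Casc
import Pool.Agent.N980.WP.Fin

/-!
The chain system of a smooth solution.
-/

open MeasureTheory Set Filter Topology
open scoped ContDiff

set_option linter.unusedVariables false

namespace Pool.Agent.N980.WQ

open Pool.Agent.N980.NU
open Pool.Agent.N980.WP hiding Sys St Cond Good
open Pool.Agent.N980.CB (one_le_R R_pos inn out FF gG Par zz zz16 par_zz energy_nonneg rpow_swap)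

/-- The conditions on the parameters. -/
structure PD (R : ℕ) (σ κ : ℝ) : Prop where
  pc : PC R σ κ
  s4 : 2 * (σ - 2) < κ
  RQ' : 10 ^ 5 ≤ (R : ℝ) ^ (2 - σ + κ)

variable {R : ℕ} {σ κ : ℝ}

theorem PD.exists (hs : 2 < σ) (hk0 : 0 < κ) (hk : κ < 1) (hsk : 2 * (σ - 2) < κ) :
    ∃ R0 : ℕ, ∀ R : ℕ, R0 ≤ R → PD R σ κ := by
  obtain ⟨R1, hR1⟩ := PC.exists hs hk0 hk (by linarith)
  have h2 : Tendsto (fun R : ℕ => (R : ℝ) ^ (2 - σ + κ)) atTop atTop :=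
    (tendsto_rpow_atTop (by linarith)).comp tendsto_natCast_atTop_atTop
  obtain ⟨M, hM⟩ := (h2.eventually (eventually_ge_atTop (10 ^ 5))).exists_forall_of_atTop
  exact ⟨max R1 M, fun R hR => ⟨hR1 R ((le_max_left _ _).trans hR), hsk, hM R ((le_max_right _ _).trans hR)⟩⟩

theorem PD.PQ (h : PD R σ κ) : (R : ℝ) ^ (σ - κ) * (R : ℝ) ^ (2 - σ + κ) = (R : ℝ) ^ 2 := by
  rw [← Real.rpow_add h.pc.R0, ← Real.rpow_natCast (R : ℝ) 2]
  congr 1
  push_cast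
  ring

theorem PD.QR (h : PD R σ κ) : (R : ℝ) ^ (2 - σ + κ) ≤ R := by
  have := Real.rpow_le_rpow_of_exponent_le h.pc.R1.le (show 2 - σ + κ ≤ 1 by linarith [h.pc.s2, h.pc.k1])
  rwa [Real.rpow_one] at this

theorem PD.P2 (h : PD R σ κ) : (2 : ℝ) ≤ (R : ℝ) ^ (σ - κ) := by
  have h1 : (R : ℝ) ^ (1 : ℝ) ≤ (R : ℝ) ^ (σ - κ) :=
    Real.rpow_le_rpow_of_exponent_le h.pc.R1.le (by linarith [h.pc.s2, h.pc.k1])
  rw [Real.rpow_one] at h1
  have h2 : (4 : ℝ) ≤ R := by exact_mod_cast h.pc.R4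
  linarith

theorem PD.ΛP (h : PD R σ κ) : (R : ℝ) ^ σ = (R : ℝ) ^ (σ - κ) * (R : ℝ) ^ κ := by
  rw [← Real.rpow_add h.pc.R0]
  congr 1
  ring

theorem PD.P' (h : PD R σ κ) : (R : ℝ) ^ (2 - κ) ≤ (R : ℝ) ^ (σ - κ) :=
  Real.rpow_le_rpow_of_exponent_le h.pc.R1.le (by linarith [h.pc.s2])

/-- The ratio of the quadratic error terms. -/
noncomputable def HH (R : ℕ) (σ κ : ℝ) : ℝ := (R : ℝ) ^ σ / ((R : ℝ) ^ (2 - σ + κ)) ^ 2

theorem PD.H1 (h : PD R σ κ) : 1 ≤ HH R σ κ := by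
  unfold HH
  have h1 := h.QR
  have h2 : 0 < (R : ℝ) ^ (2 - σ + κ) := Real.rpow_pos_of_pos h.pc.R0 _
  have h3 := h.pc.RΛ
  rw [le_div_iff₀ (by positivity), one_mul]
  nlinarith

theorem PD.HP (h : PD R σ κ) : HH R σ κ < (R : ℝ) ^ (σ - κ) := by
  unfold HH
  have h2 : 0 < (R : ℝ) ^ (2 - σ + κ) := Real.rpow_pos_of_pos h.pc.R0 _
  rw [div_lt_iff₀ (by positivity), ← Real.rpow_natCast _ 2, ← Real.rpow_mul h.pc.R0.le, ← Real.rpow_add h.pc.R0]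
  refine Real.rpow_lt_rpow_of_exponent_lt h.pc.R1 ?_
  push_cast
  linarith [h.s4]

variable {ν T G : ℝ} {u : ℝ → V → V} {p : ℝ → V → ℝ}

theorem co_abs (h : PC R σ κ) (hG : 0 < G) {v : V → V} (hv : SPV v) {E : ℝ} (hE : energy v ≤ E) (n : ℕ) :
    |(h.pm hG).co v n| ≤ Real.sqrt E := by
  have h1 := ip_cs hv ((h.pm hG).spvF n)
  rw [(h.pm hG).energy_pF, Real.sqrt_one, mul_one] at h1
  exact h1.trans (Real.sqrt_le_sqrt hE)

theorem so_le (h : PC R σ κ) (hG : 0 < G) {v : V → V} (hv : SPV v) {E : ℝ} (hE : energy v ≤ E) (n : ℕ) :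
    |so (h.pm hG) v n - (h.pm hG).co v n| ≤ 6 * Real.sqrt E / ((R : ℝ) ^ κ) ^ n := by
  have h1 := so_close (h.pm hG) hv n
  have h2 := h.RW n
  have hR : (0 : ℝ) < (R : ℝ) ^ n := pow_pos h.R0 n
  have hpi := Real.pi_gt_three
  have hpi' : (3.14 : ℝ) < Real.pi := Real.pi_gt_d2
  have hs : Real.sqrt (energy v) ≤ Real.sqrt E := Real.sqrt_le_sqrt hE
  have hs0 := Real.sqrt_nonneg E
  have hk : 0 < ((R : ℝ) ^ κ) ^ n := pow_pos (Real.rpow_pos_of_pos h.R0 _) n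
  have e1 : ((R : ℝ) ^ (2 - κ)) ^ n * ((R : ℝ) ^ κ) ^ n = ((R : ℝ) ^ n) ^ 2 := by
    rw [← mul_pow, ← Real.rpow_add h.R0]
    have : (2 - κ + κ : ℝ) = ((2 : ℕ) : ℝ) := by push_cast; ring
    rw [this, Real.rpow_natCast, ← pow_mul, ← pow_mul, mul_comm]
  refine h1.trans ?_
  have hPm : (h.pm hG).R = R := rfl
  have hPl : (h.pm hG).L = Lw R κ := rfl
  rw [hPm, hPl, le_div_iff₀ hk]
  have h3 : (120 * ((R : ℝ) ^ n * wd (Lw R κ) n) * Real.sqrt (energy v))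
      ≤ 120 * (3 / 2 * ((R : ℝ) ^ (2 - κ)) ^ n) * Real.sqrt E := by
    have : 0 < ((R : ℝ) ^ (2 - κ)) ^ n := pow_pos (Real.rpow_pos_of_pos h.R0 _) n
    gcongr
  calc 1 / (4 * Real.pi ^ 2 * ((R : ℝ) ^ n) ^ 2) * (120 * ((R : ℝ) ^ n * wd (Lw R κ) n) * Real.sqrt (energy v))
        * ((R : ℝ) ^ κ) ^ n
      ≤ 1 / (4 * Real.pi ^ 2 * ((R : ℝ) ^ n) ^ 2) * (120 * (3 / 2 * ((R : ℝ) ^ (2 - κ)) ^ n) * Real.sqrt E)
        * ((R : ℝ) ^ κ) ^ n := by gcongr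
    _ = 180 / (4 * Real.pi ^ 2 * ((R : ℝ) ^ n) ^ 2) * ((((R : ℝ) ^ (2 - κ)) ^ n * ((R : ℝ) ^ κ) ^ n) * Real.sqrt E) := by ring
    _ = 45 / Real.pi ^ 2 * Real.sqrt E := by
        rw [e1]
        field_simp
        ring
    _ ≤ 6 * Real.sqrt E := by
        refine mul_le_mul_of_nonneg_right ?_ hs0
        rw [div_le_iff₀ (by positivity)]
        nlinarith

/-- The constant of the error terms. -/
noncomputable def b0 (ν G E : ℝ) : ℝ := 3 / 2 * (240 * ν * Real.sqrt E + 9261 * E) + 24 * (G * E)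

/-- The error terms of the first family. -/
theorem eP_bound (h : PD R σ κ) (hG : 0 < G) {v : V → V} (hv : SPV v) {E b : ℝ} (hE : energy v ≤ E) (hb : 0 < b)
    (hy : ∀ m, |qo (h.pc.pm hG) v m| ≤ 2 * (b / ((R : ℝ) ^ (2 - σ + κ)) ^ m)) :
    (∀ m, |eP (gG G ((R : ℝ) ^ σ) (m + 1)) (gG G ((R : ℝ) ^ σ) m) (h.pc.pm hG).δ (R : ℝ)⁻¹ R
      ((h.pc.pm hG).co v m) ((h.pc.pm hG).co v (m + 1)) ((h.pc.pm hG).co v (m + 2))
      (qo (h.pc.pm hG) v m) (qo (h.pc.pm hG) v (m + 1)) (qo (h.pc.pm hG) v (m + 2))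
      (so (h.pc.pm hG) v m) (so (h.pc.pm hG) v (m + 1)) (so (h.pc.pm hG) v (m + 2))|
        ≤ 24 * (G * E) * ((R : ℝ) ^ (σ - κ)) ^ (m + 1) + 16 * G * b ^ 2 * HH R σ κ ^ (m + 1)) ∧
    |eP (gG G ((R : ℝ) ^ σ) 0) 0 (h.pc.pm hG).δ (R : ℝ)⁻¹ R
      0 ((h.pc.pm hG).co v 0) ((h.pc.pm hG).co v 1)
      0 (qo (h.pc.pm hG) v 0) (qo (h.pc.pm hG) v 1)
      0 (so (h.pc.pm hG) v 0) (so (h.pc.pm hG) v 1)|
        ≤ 24 * (G * E) * ((R : ℝ) ^ (σ - κ)) ^ 0 + 16 * G * b ^ 2 * HH R σ κ ^ 0 := by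
  set P := h.pc.pm hG with hP
  set Λ := (R : ℝ) ^ σ with hΛ
  set A := (R : ℝ) ^ (σ - κ) with hA
  set Q := (R : ℝ) ^ (2 - σ + κ) with hQ
  set k := (R : ℝ) ^ κ with hk
  have hR0 := h.pc.R0
  have hR1 := h.pc.R1
  have hΛ0 : 0 < Λ := Real.rpow_pos_of_pos hR0 _
  have hA0 : 0 < A := Real.rpow_pos_of_pos hR0 _
  have hQ0 : 0 < Q := Real.rpow_pos_of_pos hR0 _
  have hk0 : 0 < k := Real.rpow_pos_of_pos hR0 _
  have hk1 : 1 ≤ k := le_trans (by norm_num) h.pc.RQ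
  have hQ1 : 1 ≤ Q := le_trans (by norm_num) h.RQ'
  have hA1 : 1 ≤ A := by linarith [h.P2]
  have hAk : Λ = A * k := h.ΛP
  have hH1 := h.H1
  have hHd : HH R σ κ = Λ / Q ^ 2 := rfl
  have hE0 : 0 ≤ E := (energy_nonneg _).trans hE
  have hpar := h.pc.par
  have hδ : P.δ = zz Λ ^ 16 := (zz16 _).symm
  have hδ0 := P.δ0
  have hδR : P.δ * R ≤ 1 := by
    rw [hδ]
    have h1 := hpar.zpow_mul 15 (m := 1) (by norm_num)
    have h2 : (zz Λ) ^ 15 ≤ 1 := pow_le_one₀ hpar.hz.le hpar.z1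
    have h3 : (R : ℝ) ≤ Λ := by
      have := Real.rpow_le_rpow_of_exponent_le hR1.le (show (1 : ℝ) ≤ σ by linarith [h.pc.s2])
      rwa [Real.rpow_one] at this
    have h4 : 0 < (zz Λ) ^ 16 := pow_pos hpar.hz 16
    rw [pow_one] at h1
    calc zz Λ ^ 16 * R ≤ zz Λ ^ 16 * Λ := by gcongr
      _ ≤ 1 := by nlinarith
  have hs0 := Real.sqrt_nonneg E
  have hss : Real.sqrt E * Real.sqrt E = E := Real.mul_self_sqrt hE0
  have hp : ∀ n, |P.co v n| ≤ Real.sqrt E := fun n => co_abs h.pc hG hv hE n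
  have hs : ∀ n, |so P v n - P.co v n| ≤ 6 * Real.sqrt E / k ^ n := fun n => so_le h.pc hG hv hE n
  have hsp : ∀ n m, |so P v n - P.co v n| * |P.co v m| ≤ 6 * E / k ^ n := by
    intro n m
    have hkn : 0 < k ^ n := pow_pos hk0 n
    calc |so P v n - P.co v n| * |P.co v m| ≤ (6 * Real.sqrt E / k ^ n) * Real.sqrt E := by
          have := hp m; have := hs n
          gcongr
      _ = 6 * (Real.sqrt E * Real.sqrt E) / k ^ n := by ring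
      _ = 6 * E / k ^ n := by rw [hss]
  -- the two kinds of terms
  have t1 : ∀ n m j : ℕ, n ≤ m → n ≤ j → gG G Λ n * (|so P v m - P.co v m| * |P.co v j|) ≤ 6 * (G * E) * A ^ n := by
    intro n m j hnm hnj
    have hkn : 0 < k ^ n := pow_pos hk0 n
    have hkm : k ^ n ≤ k ^ m := pow_le_pow_right₀ hk1 hnm
    have h1 : |so P v m - P.co v m| * |P.co v j| ≤ 6 * E / k ^ n := (hsp m j).trans (by gcongr)
    unfold gG
    calc G * Λ ^ n * (|so P v m - P.co v m| * |P.co v j|) ≤ G * Λ ^ n * (6 * E / k ^ n) := by gcongr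
      _ = 6 * (G * E) * A ^ n := by
        rw [hAk, mul_pow]
        field_simp
  have t2 : ∀ n i j : ℕ, n ≤ i → n ≤ j → gG G Λ n * (|qo P v i| * |qo P v j|) ≤ 4 * G * b ^ 2 * HH R σ κ ^ n := by
    intro n i j hi hj
    have hQn : 0 < Q ^ n := pow_pos hQ0 n
    have hq : ∀ i, n ≤ i → |qo P v i| ≤ 2 * (b / Q ^ n) := by
      intro i hi
      have hQi : Q ^ n ≤ Q ^ i := pow_le_pow_right₀ hQ1 hi
      exact (hy i).trans (by gcongr)
    have h1 := hq i hi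
    have h2 := hq j hj
    unfold gG
    calc G * Λ ^ n * (|qo P v i| * |qo P v j|) ≤ G * Λ ^ n * (2 * (b / Q ^ n) * (2 * (b / Q ^ n))) := by gcongr
      _ = 4 * G * b ^ 2 * HH R σ κ ^ n := by
        rw [hHd, div_pow, ← pow_mul, mul_comm 2 n, pow_mul]
        field_simp
        ring
  have hRi : (R : ℝ)⁻¹ ≤ 1 := inv_le_one_of_one_le₀ hR1.le
  have hRi0 : 0 ≤ (R : ℝ)⁻¹ := by positivity
  have hg : ∀ n, 0 ≤ gG G Λ n := fun n => by unfold gG; positivity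
  have sq2 : ∀ a : ℝ, a ^ 2 = |a| * |a| := fun a => by rw [← sq, sq_abs]
  have hAm : ∀ m : ℕ, A ^ m ≤ A ^ (m + 1) := fun m => pow_le_pow_right₀ hA1 (Nat.le_succ m)
  have hHm : ∀ m : ℕ, HH R σ κ ^ m ≤ HH R σ κ ^ (m + 1) := fun m => pow_le_pow_right₀ hH1 (Nat.le_succ m)
  have t3 : ∀ n : ℕ, P.δ * R * gG G Λ n * (|qo P v (n + 1)| * |qo P v n|) ≤ 4 * G * b ^ 2 * HH R σ κ ^ n := by
    intro n
    have h1 := t2 n (n + 1) n (Nat.le_succ n) le_rfl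
    have h2 : 0 ≤ gG G Λ n * (|qo P v (n + 1)| * |qo P v n|) := by have := hg n; positivity
    calc P.δ * R * gG G Λ n * (|qo P v (n + 1)| * |qo P v n|)
        = (P.δ * R) * (gG G Λ n * (|qo P v (n + 1)| * |qo P v n|)) := by ring
      _ ≤ 1 * (gG G Λ n * (|qo P v (n + 1)| * |qo P v n|)) := by gcongr
      _ ≤ _ := by rw [one_mul]; exact h1
  have hGE : 0 ≤ G * E := by positivity
  have hGb : 0 ≤ G * b ^ 2 := by positivity
  constructor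
  · intro m
    refine (eP_le (hg (m + 1)) (hg m) hδ0 P.δ1 hRi0 hRi hR0.le).trans ?_
    have a1 := t1 (m + 1) (m + 2) (m + 2) (by omega) (by omega)
    have a2 := t1 (m + 1) (m + 1) (m + 2) (by omega) (by omega)
    have a3 := t1 m (m + 1) m (by omega) le_rfl
    have a4 := t1 m m m le_rfl le_rfl
    have a5 := t2 (m + 1) (m + 2) (m + 2) (by omega) (by omega)
    have a6 := t3 (m + 1)
    have a7 := t2 m m (m + 1) le_rfl (by omega)
    have a8 := t2 m m m le_rfl le_rfl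
    rw [← sq2] at a5 a8
    have e1 : 6 * (G * E) * A ^ m ≤ 6 * (G * E) * A ^ (m + 1) := by
      have := hAm m
      gcongr
    have e2 : 4 * G * b ^ 2 * HH R σ κ ^ m ≤ 4 * G * b ^ 2 * HH R σ κ ^ (m + 1) := by
      have := hHm m
      gcongr
    linarith
  · refine (eP_le (hg 0) le_rfl hδ0 P.δ1 hRi0 hRi hR0.le).trans ?_
    have a1 := t1 0 1 1 (by omega) (by omega)
    have a2 := t1 0 0 1 (by omega) (by omega)
    have a5 := t2 0 1 1 (by omega) (by omega)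
    have a6 := t3 0
    rw [← sq2] at a5
    simp only [zero_mul, add_zero, pow_zero, mul_one] at a1 a2 a5 a6 ⊢
    have e : P.δ * R * gG G Λ 0 * (|qo P v 1| * |qo P v 0|) ≤ 4 * G * b ^ 2 := a6
    nlinarith

end Pool.Agent.N980.WQ
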