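import Pool.Agent.N980.WQ.Ql
import Pool.Agent.N980.WQ.Sy

/-!
The bound of the alternating form in Lebesgue spaces.
-/

open MeasureTheory Set Filter Topology
open scoped ContDiff

set_option linter.unusedVariables false

namespace Pool.Agent.N980.WQ

open Pool.Agent.N980.NU
open Pool.Agent.N980.WP hiding Sys St Cond Good
open Pool.Agent.N980.CB (one_le_R R_pos gG rpow_swap)
open Pool.Agent.H356R3.NS (K C3 E3 R3 ex SN Sym RD TT SF SFam Fam cf' at' nk pw fj dS Bf dt)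

variable {R : ℕ} {ℓ : ℕ → ℝ}

theorem BL_cs (X : Fm R ℓ) {M : ℝ} {u : V → V} (hu : Continuous u) (hb : BL M u) {n : ℕ}
    (hn : 2 * M < (R : ℝ) ^ n) : X.cs u n = 0 := by
  rw [X.cs_eq hu]
  unfold Fm.co
  have : ∀ k : K, ∑ i, fco u k i * star (X.ψ n k i) = 0 := by
    intro k
    by_cases hk : X.ψ n k = 0
    · rw [hk]; simp
    · have h2 := (X.lv n k hk).2.1
      have h3 := k0_le_nk k
      have h4 : fco u k = 0 := hb k (by linarith)
      rw [h4]; simp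
  rw [tsum_congr this]
  simp

/-- The coefficients are controlled by the Lebesgue norms. -/
def LB (X : Fm R ℓ) (c : ℝ) : Prop := ∀ p : ℝ, 1 < p → ∀ u : V → V, Continuous u → ∀ n,
  |X.cs u n| ≤ c * ℓ n ^ (2 / p - 1) * lpn p u

theorem LB.mono {X : Fm R ℓ} {c c' : ℝ} (w : Wd R ℓ) (h : LB X c) (hc : c ≤ c') : LB X c' := fun p hp u hu n => by
  refine (h p hp u hu n).trans ?_
  have := lpn_nonneg p u
  have := Real.rpow_nonneg (w.pos n).le (2 / p - 1)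
  gcongr

theorem LB.shift {X : Fm R ℓ} {c W C : ℝ} (w : Wd R ℓ) (h : LB X c) (hc : 0 ≤ c) (hW : 1 ≤ W)
    (hg : ∀ n, ℓ (n + 1) ≤ W * ℓ n) (hC : ∀ n, ℓ (n + 1) ≤ C * ℓ n) (hm : ∀ n, ℓ n ≤ ℓ (n + 1)) :
    LB (X.sh w hC hm) (c * W) := fun p hp u hu n => by
  rw [sh_cs]
  refine (h p hp u hu (n + 1)).trans ?_
  have he : 2 / p - 1 ≤ 1 := by
    have : 2 / p ≤ 2 := div_le_self (by norm_num) hp.le
    linarith
  have h6 := rpow_two (w.one n) (hm n) (hg n) hW he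
  have := lpn_nonneg p u
  calc c * ℓ (n + 1) ^ (2 / p - 1) * lpn p u ≤ c * (W * ℓ n ^ (2 / p - 1)) * lpn p u := by gcongr
    _ = _ := by ring

theorem prod_exp {l p₁ p₂ p₃ : ℝ} (hl : 0 < l) (hp : 1 / p₁ + 1 / p₂ + 1 / p₃ = 1) :
    l ^ (2 / p₁ - 1) * l ^ (2 / p₂ - 1) * l ^ (2 / p₃ - 1) = 1 / l := by
  rw [← Real.rpow_add hl, ← Real.rpow_add hl]
  have : 2 / p₁ - 1 + (2 / p₂ - 1) + (2 / p₃ - 1) = -1 := by
    have e : 2 / p₁ + 2 / p₂ + 2 / p₃ = 2 * (1 / p₁ + 1 / p₂ + 1 / p₃) := by ring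
    rw [hp] at e
    linarith
  rw [this, Real.rpow_neg_one, one_div]

theorem tm_le (w : Wd R ℓ) (D : W3 R ℓ) {c a : ℝ} (hc : 0 ≤ c) (hU : ∀ j, LB (D.U j) c) (hY : ∀ j, LB (D.Y j) c)
    {n : ℕ} (ha : ∀ j, |D.a j n| ≤ a) {p₁ p₂ p₃ : ℝ} (h1 : 1 < p₁) (h2 : 1 < p₂) (h3 : 1 < p₃)
    (hp : 1 / p₁ + 1 / p₂ + 1 / p₃ = 1) {u v z : V → V} (hu : Continuous u) (hv : Continuous v) (hz : Continuous z) :
    |D.tm u v z n| ≤ 6 * c ^ 3 * (a / ℓ n) * (lpn p₁ u * lpn p₂ v * lpn p₃ z) := by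
  have hl := w.pos n
  have hA := lpn_nonneg p₁ u
  have hB := lpn_nonneg p₂ v
  have hC := lpn_nonneg p₃ z
  set A := lpn p₁ u
  set B := lpn p₂ v
  set C := lpn p₃ z
  set e1 := ℓ n ^ (2 / p₁ - 1) with he1
  set e2 := ℓ n ^ (2 / p₂ - 1) with he2
  set e3 := ℓ n ^ (2 / p₃ - 1) with he3
  have e10 : 0 ≤ e1 := Real.rpow_nonneg hl.le _
  have e20 : 0 ≤ e2 := Real.rpow_nonneg hl.le _
  have e30 : 0 ≤ e3 := Real.rpow_nonneg hl.le _
  have hprod : e1 * e2 * e3 = 1 / ℓ n := prod_exp hl hp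
  have ha0 : 0 ≤ a := (abs_nonneg _).trans (ha 0)
  have key : ∀ i j k, |D.a i n * (D.U i).cs u n * ((D.Y j).cs v n * (D.Y k).cs z n - (D.Y k).cs v n * (D.Y j).cs z n)|
      ≤ 2 * c ^ 3 * (a / ℓ n) * (A * B * C) := by
    intro i j k
    have f1 := hU i p₁ h1 u hu n
    have f2 := hY j p₂ h2 v hv n
    have f3 := hY k p₃ h3 z hz n
    have f4 := hY k p₂ h2 v hv n
    have f5 := hY j p₃ h3 z hz n
    have g1 : |(D.Y j).cs v n * (D.Y k).cs z n - (D.Y k).cs v n * (D.Y j).cs z n|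
        ≤ 2 * ((c * e2 * B) * (c * e3 * C)) := by
      refine (abs_sub _ _).trans ?_
      rw [abs_mul, abs_mul]
      have g1 := mul_le_mul f2 f3 (abs_nonneg _) (by positivity)
      have g2 := mul_le_mul f4 f5 (abs_nonneg _) (by positivity)
      linarith
    rw [abs_mul, abs_mul]
    have ha := ha i
    calc |D.a i n| * |(D.U i).cs u n| * |(D.Y j).cs v n * (D.Y k).cs z n - (D.Y k).cs v n * (D.Y j).cs z n|
        ≤ a * (c * e1 * A) * (2 * ((c * e2 * B) * (c * e3 * C))) := by gcongr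
      _ = 2 * c ^ 3 * (A * B * C) * (a * (e1 * e2 * e3)) := by ring
      _ = 2 * c ^ 3 * (A * B * C) * (a * (1 / ℓ n)) := by rw [hprod]
      _ = _ := by ring
  have k0 := key 0 1 2
  have k1 := key 1 2 0
  have k2 := key 2 0 1
  unfold W3.tm
  refine (abs_add_le _ _).trans ?_
  have := abs_add_le (D.a 0 n * (D.U 0).cs u n * ((D.Y 1).cs v n * (D.Y 2).cs z n - (D.Y 2).cs v n * (D.Y 1).cs z n))
    (D.a 1 n * (D.U 1).cs u n * ((D.Y 2).cs v n * (D.Y 0).cs z n - (D.Y 0).cs v n * (D.Y 2).cs z n))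
  linarith

theorem tm_zero (D : W3 R ℓ) {M : ℝ} {u v z : V → V} (hu : Continuous u) (hv : Continuous v) (hz : Continuous z)
    (hb : BL M u ∨ BL M v ∨ BL M z) {n : ℕ} (hU : ∀ j, BL M u → (D.U j).cs u n = 0)
    (hY : ∀ j (q : V → V), Continuous q → BL M q → (D.Y j).cs q n = 0) : D.tm u v z n = 0 := by
  unfold W3.tm
  rcases hb with h | h | h
  · rw [hU 0 h, hU 1 h, hU 2 h]; ring
  · rw [hY 0 v hv h, hY 1 v hv h, hY 2 v hv h]; ring
  · rw [hY 0 z hz h, hY 1 z hz h, hY 2 z hz h]; ring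

variable {σ κ G : ℝ}

theorem lb_p (P : Pm) : LB P.X 45 := fun p hp u hu n => by
  have h1 := (p_pkt P n).co_lp (by norm_num) (P.wh.wd.pos n) hp hu
  have h2 : P.X.cs u n = ip u (pF (P.R ^ n) (P.L n)) := P.cs_eq u n
  rw [h2]
  refine h1.trans (le_of_eq ?_)
  ring

theorem lb_q (P : Pm) : LB (qX P) 45 := fun p hp u hu n => by
  have h1 := (q_pkt P n).co_lp (by norm_num) (P.wh.wd.pos n) hp hu
  refine h1.trans (le_of_eq ?_)
  ring

/-- The bound of the form in Lebesgue spaces. -/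
theorem PC.lp_boundA (h : PC R σ κ) (hG : 0 < G) : ∃ C, 0 ≤ C ∧ ∀ p₁ p₂ p₃ : ℝ, 1 < p₁ → 1 < p₂ → 1 < p₃ →
    1 / p₁ + 1 / p₂ + 1 / p₃ = 1 → ∀ M : ℝ, 1 ≤ M → ∀ u v z : V → V, SPV u → SPV v → SPV z →
    (BL M u ∨ BL M v ∨ BL M z) →
    |ip (KQ (aT (h.pm hG)) u v) z| ≤ C * M ^ (σ - 2 + κ) * (lpn p₁ u * lpn p₂ v * lpn p₃ z) := by
  set P := h.pm hG with hP
  set W : ℝ := (R : ℝ) ^ (1 - κ) + 1 with hW
  have hW1 : 1 ≤ W := by have := h.W1; linarith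
  set s : ℝ := σ - 2 + κ with hs
  have hs1 : κ < s := by linarith [h.s2]
  have hs0 : 0 < s := by linarith [h.k0]
  have hw : Wd R (wd (Lw R κ)) := h.wh.wd
  have hR0 := h.R0
  have hR1 := h.R1
  refine ⟨24 * (45 * W) ^ 3 * G * (2 * 2 ^ s), by positivity, ?_⟩
  intro p₁ p₂ p₃ h1 h2 h3 hp M hM u v z hu hv hz hBL
  have hA := lpn_nonneg p₁ u
  have hB := lpn_nonneg p₂ v
  have hC := lpn_nonneg p₃ z
  have hform := TW_form P.wh.wd ![aD1 P, aD2 P] hu hv hz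
  have e0 : (![aD1 P, aD2 P] : Fin 2 → W3 P.R (wd P.L)) 0 = aD1 P := rfl
  have e1 : (![aD1 P, aD2 P] : Fin 2 → W3 P.R (wd P.L)) 1 = aD2 P := rfl
  rw [e0, e1] at hform
  -- the last level
  set N : ℕ := Nat.log R ⌊2 * M⌋₊ with hN
  have hR4 := h.R4
  have hfl : ⌊2 * M⌋₊ ≠ 0 := by
    have : 1 ≤ ⌊2 * M⌋₊ := (Nat.one_le_floor_iff _).2 (by linarith)
    omega
  have hNle : (R : ℝ) ^ N ≤ 2 * M := by
    have h4 : R ^ N ≤ ⌊2 * M⌋₊ := Nat.pow_log_le_self R hfl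
    have h5 : ((⌊2 * M⌋₊ : ℕ) : ℝ) ≤ 2 * M := Nat.floor_le (by linarith)
    have h6 : ((R ^ N : ℕ) : ℝ) ≤ ((⌊2 * M⌋₊ : ℕ) : ℝ) := by exact_mod_cast h4
    push_cast at h6
    linarith
  have hgt : ∀ n, N < n → 2 * M < (R : ℝ) ^ n := by
    intro n hn
    have h4 : ⌊2 * M⌋₊ < R ^ n := by
      have := Nat.lt_pow_succ_log_self (by omega : 1 < R) ⌊2 * M⌋₊
      refine this.trans_le (Nat.pow_le_pow_right (by omega) hn)
    have h5 := (Nat.floor_lt (by linarith : 0 ≤ 2 * M)).1 h4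
    push_cast at h5
    exact h5
  have hPR : P.R = R := rfl
  -- the terms beyond the last level vanish
  have hz0 : ∀ n, N < n → (aD1 P).tm u v z n + (aD2 P).tm u v z n = 0 := by
    intro n hn
    have q1 := hgt n hn
    have q2 := hgt (n + 1) (by omega)
    have z1 : ∀ q : V → V, Continuous q → BL M q → P.X.cs q n = 0 := fun q hq hb => BL_cs P.X hq hb q1
    have z2 : ∀ q : V → V, Continuous q → BL M q → P.X'.cs q n = 0 := fun q hq hb =>
      BL_cs P.X (n := n + 1) hq hb q2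
    have z3 : ∀ q : V → V, Continuous q → BL M q → (qX P).cs q n = 0 := fun q hq hb => BL_cs (qX P) hq hb q1
    have z4 : ∀ q : V → V, Continuous q → BL M q → (qX' P).cs q n = 0 := fun q hq hb =>
      BL_cs (qX P) (n := n + 1) hq hb q2
    have y1 : ∀ j (q : V → V), Continuous q → BL M q → ((aD1 P).Y j).cs q n = 0 := by
      intro j q hq hb
      fin_cases j
      · exact z1 q hq hb
      · exact z2 q hq hb
      · exact z4 q hq hb
    have y2 : ∀ j (q : V → V), Continuous q → BL M q → ((aD2 P).Y j).cs q n = 0 := by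
      intro j q hq hb
      fin_cases j
      · exact z1 q hq hb
      · exact z2 q hq hb
      · exact z3 q hq hb
    rw [tm_zero (aD1 P) hu.cont hv.cont hz.cont hBL (fun j hb => y1 j u hu.cont hb) y1,
      tm_zero (aD2 P) hu.cont hv.cont hz.cont hBL (fun j hb => y2 j u hu.cont hb) y2, add_zero]
  -- the families
  have l1 : LB P.X (45 * W) := (lb_p P).mono P.wh.wd (by linarith)
  have l3 : LB (qX P) (45 * W) := (lb_q P).mono P.wh.wd (by linarith)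
  have l2 : LB P.X' (45 * W) := (lb_p P).shift P.wh.wd (by norm_num) hW1 h.gr _ _
  have l4 : LB (qX' P) (45 * W) := (lb_q P).shift P.wh.wd (by norm_num) hW1 h.gr _ _
  have y1 : ∀ j, LB ((aD1 P).Y j) (45 * W) := by
    intro j
    fin_cases j
    · exact l1
    · exact l2
    · exact l4
  have y2 : ∀ j, LB ((aD2 P).Y j) (45 * W) := by
    intro j
    fin_cases j
    · exact l1
    · exact l2
    · exact l3
  have hterm : ∀ n, |(aD1 P).tm u v z n + (aD2 P).tm u v z n|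
      ≤ 24 * (45 * W) ^ 3 * G * (lpn p₁ u * lpn p₂ v * lpn p₃ z) * ((R : ℝ) ^ s) ^ n := by
    intro n
    have hRn : (0 : ℝ) < (R : ℝ) ^ n := pow_pos hR0 n
    have hpi := Real.pi_gt_three
    have hgn : P.g n = G * ((R : ℝ) ^ σ) ^ n := rfl
    have hg0 := P.g0 n
    have hδ0 := P.δ0
    have hδ1 := P.δ1
    have b1 : ∀ j, |(aD1 P).a j n| ≤ P.g n / (R : ℝ) ^ n := by
      intro j
      show |1 / (2 * Real.pi * (R : ℝ) ^ (n + 1)) * P.g n| ≤ _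
      rw [abs_of_nonneg (by positivity), one_div, inv_mul_eq_div]
      apply div_le_div_of_nonneg_left hg0 hRn
      rw [pow_succ]
      have : (R : ℝ) ^ n * 1 ≤ (R : ℝ) ^ n * R := by gcongr
      nlinarith
    have b2 : ∀ j, |(aD2 P).a j n| ≤ P.g n / (R : ℝ) ^ n := by
      intro j
      show |P.δ / (2 * Real.pi * (R : ℝ) ^ n) * P.g n| ≤ _
      rw [abs_of_nonneg (by positivity), div_mul_eq_mul_div]
      apply div_le_div₀ hg0 _ hRn _
      · exact mul_le_of_le_one_left hg0 hδ1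
      · nlinarith
    have t1 := tm_le P.wh.wd (aD1 P) (by positivity : 0 ≤ 45 * W) y1 y1 b1 h1 h2 h3 hp hu.cont hv.cont hz.cont
    have t2 := tm_le P.wh.wd (aD2 P) (by positivity : 0 ≤ 45 * W) y2 y2 b2 h1 h2 h3 hp hu.cont hv.cont hz.cont
    have hl0 := hw.pos n
    have hwl : wd P.L n = wd (Lw R κ) n := rfl
    rw [hwl] at t1 t2
    have hgl : P.g n / (R : ℝ) ^ n / wd (Lw R κ) n ≤ 2 * G * ((R : ℝ) ^ s) ^ n := by
      have h5 := h.wd_ge n
      have e : (R : ℝ) ^ σ = (R : ℝ) ^ s * (R : ℝ) ^ (1 - κ) * R := by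
        nth_rewrite 4 [← Real.rpow_one (R : ℝ)]
        rw [← Real.rpow_add hR0, ← Real.rpow_add hR0]; congr 1; rw [hs]; ring
      rw [hgn, e, mul_pow, mul_pow, div_le_iff₀ hl0, div_le_iff₀ hRn]
      have hq : (0 : ℝ) ≤ G * ((R : ℝ) ^ s) ^ n := by positivity
      have h6 : ((R : ℝ) ^ (1 - κ)) ^ n ≤ 2 * wd (Lw R κ) n := by linarith
      calc G * (((R : ℝ) ^ s) ^ n * ((R : ℝ) ^ (1 - κ)) ^ n * (R : ℝ) ^ n)
          = G * ((R : ℝ) ^ s) ^ n * ((R : ℝ) ^ (1 - κ)) ^ n * (R : ℝ) ^ n := by ring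
        _ ≤ G * ((R : ℝ) ^ s) ^ n * (2 * wd (Lw R κ) n) * (R : ℝ) ^ n := by gcongr
        _ = _ := by ring
    have hL0 : 0 ≤ lpn p₁ u * lpn p₂ v * lpn p₃ z := by positivity
    refine (abs_add_le _ _).trans ?_
    calc _ ≤ 6 * (45 * W) ^ 3 * (P.g n / (R : ℝ) ^ n / wd (Lw R κ) n) * (lpn p₁ u * lpn p₂ v * lpn p₃ z)
          + 6 * (45 * W) ^ 3 * (P.g n / (R : ℝ) ^ n / wd (Lw R κ) n) * (lpn p₁ u * lpn p₂ v * lpn p₃ z) :=
          add_le_add t1 t2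
      _ = 12 * (45 * W) ^ 3 * (lpn p₁ u * lpn p₂ v * lpn p₃ z) * (P.g n / (R : ℝ) ^ n / wd (Lw R κ) n) := by ring
      _ ≤ 12 * (45 * W) ^ 3 * (lpn p₁ u * lpn p₂ v * lpn p₃ z) * (2 * G * ((R : ℝ) ^ s) ^ n) := by gcongr
      _ = _ := by ring
  have hval := hform.unique (hasSum_sum_of_ne_finset_zero (s := Finset.range (N + 1)) fun n hn =>
    hz0 n (by rw [Finset.mem_range] at hn; omega))
  have hkt : ip (KQ (aT P) u v) z = ip (KQ (TW ![aD1 P, aD2 P]) u v) z := rfl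
  rw [hkt, hval]
  have hρ : 2 ≤ (R : ℝ) ^ s := by
    have h5 : (R : ℝ) ^ κ ≤ (R : ℝ) ^ s := Real.rpow_le_rpow_of_exponent_le hR1.le hs1.le
    have := h.RQ
    linarith [show (2 : ℝ) ≤ 10 ^ 5 by norm_num]
  have hlast : ((R : ℝ) ^ s) ^ N ≤ 2 ^ s * M ^ s := by
    have e : ((R : ℝ) ^ s) ^ N = ((R : ℝ) ^ N) ^ s := (CB.rpow_swap R s N).symm
    rw [e, ← Real.mul_rpow (by norm_num) (by linarith)]
    exact Real.rpow_le_rpow (by positivity) hNle (by linarith)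
  calc _ ≤ ∑ n ∈ Finset.range (N + 1), 24 * (45 * W) ^ 3 * G * (lpn p₁ u * lpn p₂ v * lpn p₃ z) * ((R : ℝ) ^ s) ^ n :=
        (Finset.abs_sum_le_sum_abs _ _).trans (Finset.sum_le_sum fun n _ => hterm n)
    _ = 24 * (45 * W) ^ 3 * G * (lpn p₁ u * lpn p₂ v * lpn p₃ z) * ∑ n ∈ Finset.range (N + 1), ((R : ℝ) ^ s) ^ n := by
        rw [← Finset.mul_sum]
    _ ≤ 24 * (45 * W) ^ 3 * G * (lpn p₁ u * lpn p₂ v * lpn p₃ z) * (2 * ((R : ℝ) ^ s) ^ N) := by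
        have := geo_le hρ N
        gcongr
    _ ≤ 24 * (45 * W) ^ 3 * G * (lpn p₁ u * lpn p₂ v * lpn p₃ z) * (2 * (2 ^ s * M ^ s)) := by gcongr
    _ = _ := by ring

end Pool.Agent.N980.WQ
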