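import Pool.Agent.N980.WQ.Res2
import Pool.Agent.N980.WQ.Hel

/-!
The theorem.
-/

open MeasureTheory Set Filter Topology
open scoped ContDiff

set_option linter.unusedVariables false

namespace Pool.Agent.N980.WQ

open Pool.Agent.N980.NU
open Pool.Agent.N980.WP hiding Sys St Cond
open Pool.Agent.N980.CB (gG rpow_swap)

variable {R : ℕ} {σ κ G ν ε : ℝ}

/-- The operator `A` with the parameters `σ = 2 + ε/4`, `κ = 3ε/4`. -/
noncomputable def Aop (ε G : ℝ) (R : ℕ) (w v : V → V) : V → V := AP G (2 + ε / 4) (3 * ε / 4) R w v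

/-- The quadratic term `A(curl u, v)` of the equation. -/
noncomputable def Kop2 (ε G : ℝ) (R : ℕ) (u v : V → V) : V → V := Aop ε G R (curl u) v

/-- The properties of `A`: the trilinear form `⟨A(w,v),z⟩` is alternating; its values are smooth periodic
divergence-free fields with mean zero; its order is `ε` in the Lebesgue scale and `1 + ε/4` in the Sobolev scale. -/
structure Props (ε G : ℝ) (R : ℕ) : Prop where
  spv : ∀ w v, SPV w → SPV v → SPV (Aop ε G R w v)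
  divfree : ∀ w v, SPV w → SPV v → ∀ x, dv (Aop ε G R w v) x = 0
  mean : ∀ w v, SPV w → SPV v → ∀ i, ∫ x in cube, Aop ε G R w v x i = 0
  add_left : ∀ w w' v, SPV w → SPV w' → SPV v → Aop ε G R (w + w') v = Aop ε G R w v + Aop ε G R w' v
  smul_left : ∀ (r : ℝ) w v, SPV w → SPV v → Aop ε G R (r • w) v = r • Aop ε G R w v
  anti : ∀ w v, SPV w → SPV v → Aop ε G R w v = -Aop ε G R v w
  skew : ∀ w v z, SPV w → SPV v → SPV z → ip (Aop ε G R w v) z = -ip v (Aop ε G R w z)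
  order_lp : ∃ C, ∀ p₁ p₂ p₃ : ℝ, 1 < p₁ → 1 < p₂ → 1 < p₃ → 1 / p₁ + 1 / p₂ + 1 / p₃ = 1 →
    ∀ M : ℝ, 1 ≤ M → ∀ w v z, SPV w → SPV v → SPV z → (BL M w ∨ BL M v ∨ BL M z) →
      |ip (Aop ε G R w v) z| ≤ C * M ^ ε * (lpn p₁ w * lpn p₂ v * lpn p₃ z)
  order_hs : ∃ C, ∀ s₁ s₂ s₃ : ℝ, 0 ≤ s₁ → 0 ≤ s₂ → 0 ≤ s₃ → 1 + ε / 4 ≤ s₁ + s₂ + s₃ →
    ∀ w v z, SPV w → SPV v → SPV z → |ip (Aop ε G R w v) z| ≤ C * (hs s₁ w * hs s₂ v * hs s₃ z)

theorem BL_const (c : V) : BL 0 (fun _ => c) := by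
  intro k hk
  funext i
  rw [fco_fr]
  unfold H459R3.NS.fr H459R3.NS.fc
  have h1 : (∫ x in H459R3.NS.cube, H459R3.NS.ee (-k) x * ((c i : ℝ) : ℂ)) = 0 := by
    rw [integral_mul_const, H459R3.NS.integral_ee, if_neg, zero_mul]
    intro h0
    rw [neg_eq_zero] at h0
    rw [h0] at hk
    unfold H356R3.NS.nk H356R3.NS.sq at hk
    simp at hk
  exact h1

theorem SPV_const (c : V) : SPV (fun _ => c) := ⟨contDiff_const, fun _ _ => rfl⟩

/-- The values of `A` have mean zero. -/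
theorem mean_zero (P : Pm) {w v : V → V} (hw : SPV w) (hv : SPV v) (i : Fin 3) :
    ∫ x in cube, KQ (aT P) w v x i = 0 := by
  set e : V → V := fun _ => Pi.single i 1 with he
  have hR : ∀ n : ℕ, 2 * (0 : ℝ) < (P.R : ℝ) ^ n := fun n => by
    rw [mul_zero]; exact CB.R_pos P.wh.wd.hR n
  have h1 : ip (KQ (aT P) w v) e = ∫ x in cube, KQ (aT P) w v x i := by
    unfold ip
    congr 1
    funext x
    rw [Finset.sum_eq_single i]
    · rw [he]; simp
    · intro j _ hj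
      rw [he]
      simp [hj]
    · intro h; exact absurd (Finset.mem_univ i) h
  rw [← h1]
  have hform := TW_form P.wh.wd ![aD1 P, aD2 P] hw hv (SPV_const (Pi.single i 1))
  have e0 : (![aD1 P, aD2 P] : Fin 2 → W3 P.R (wd P.L)) 0 = aD1 P := rfl
  have e1 : (![aD1 P, aD2 P] : Fin 2 → W3 P.R (wd P.L)) 1 = aD2 P := rfl
  rw [e0, e1] at hform
  have hc : ∀ (X : Fm P.R (wd P.L)) n, X.cs e n = 0 := fun X n =>
    BL_cs X (SPV_const (Pi.single i 1)).cont (BL_const (Pi.single i 1)) (hR n)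
  have hz : ∀ D : W3 P.R (wd P.L), ∀ n, D.tm w v e n = 0 := by
    intro D n
    unfold W3.tm
    rw [hc, hc, hc]
    ring
  refine hform.unique ?_
  have : (fun n => (aD1 P).tm w v e n + (aD2 P).tm w v e n) = fun _ => 0 := by
    funext n
    rw [hz, hz, add_zero]
  show HasSum (fun n => (aD1 P).tm w v e n + (aD2 P).tm w v e n) 0
  rw [this]
  exact hasSum_zero

theorem props (h : PC R (2 + ε / 4) (3 * ε / 4)) (hG : 0 < G) : Props ε G R := by
  have hA := aprops h hG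
  obtain ⟨a1, a2, a3, a4, a5, a6, a7, a8⟩ := hA
  refine ⟨a1, a2, ?_, a3, a4, a5, a6, ?_, ?_⟩
  · intro w v hw hv i
    have e : Aop ε G R w v = KQ (aT (h.pm hG)) w v := AP_eq h hG hw hv
    rw [e]
    exact mean_zero (h.pm hG) hw hv i
  · obtain ⟨C, hC⟩ := a8
    refine ⟨C, fun p₁ p₂ p₃ h1 h2 h3 hp M hM w v z hw hv hz hb => ?_⟩
    have h4 := hC p₁ p₂ p₃ h1 h2 h3 hp M hM w v z hw hv hz hb
    have e : 2 + ε / 4 - 2 + 3 * ε / 4 = ε := by ring
    rw [e] at h4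
    exact h4
  · obtain ⟨C, hC⟩ := a7
    refine ⟨C, fun s₁ s₂ s₃ h1 h2 h3 hs w v z hw hv hz => ?_⟩
    exact hC s₁ s₂ s₃ h1 h2 h3 (by linarith) w v z hw hv hz

/-- The operator of the equation. -/
theorem Kop2_eq (h : PC R (2 + ε / 4) (3 * ε / 4)) (hG : 0 < G) {u v : V → V} (hu : SPV u) (hv : SPV v) :
    Kop2 ε G R u v = KQ (kT (h.pm hG)) u v := by
  have e : Kop2 ε G R u v = KQ (aT (h.pm hG)) (curl u) v := AP_eq h hG hu.curl hv
  rw [e, kT_eq (h.pm hG) hu hv]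

/-- The theorem. -/
theorem main {ε : ℝ} (hε : 0 < ε) (hε1 : ε ≤ 4 / 5) :
    ∃ R₀ : ℕ, ∀ R : ℕ, R₀ ≤ R → ∀ G : ℝ, 0 < G → Props ε G R ∧ ∀ ν : ℝ, 0 < ν →
      (∀ v : V → V, SPV v → (∀ x, dv v x = 0) →
        ∃ T > 0, ∃ (u : ℝ → V → V) (p : ℝ → V → ℝ), u 0 = v ∧ Sol ν (Kop2 ε G R) T u p) ∧
      (∀ (T : ℝ) (u : ℝ → V → V) (p : ℝ → V → ℝ), Sol ν (Kop2 ε G R) T u p →
        (∀ t ∈ Ico 0 T, energy (u t) + 2 * ν * ∫ s in (0 : ℝ)..t, dissip (u s) = energy (u 0)) ∧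
        (∀ t ∈ Ico 0 T, ip (u t) (curl (u t)) + 2 * ν * ∫ s in (0 : ℝ)..t, ip (curl (u s)) (curl (curl (u s)))
          = ip (u 0) (curl (u 0))) ∧
        ∀ (u' : ℝ → V → V) (p' : ℝ → V → ℝ), Sol ν (Kop2 ε G R) T u' p' → u 0 = u' 0 → ∀ t ∈ Ico 0 T, u t = u' t) ∧
      ∀ v : V → V, SPV v → (∀ x, dv v x = 0) → ∀ η > 0,
        ∃ w : V → V, SPV w ∧ (∀ x, dv w x = 0) ∧ energy (w - v) ≤ η ^ 2 ∧ ∃ r > 0,
          ∀ w' : V → V, SPV w' → (∀ x i, |w' x i - w x i| ≤ r) →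
            ∀ (u : ℝ → V → V) (p : ℝ → V → ℝ), u 0 = w' → ¬Sol ν (Kop2 ε G R) η u p := by
  obtain ⟨R0, hR0⟩ := PD.exists (σ := 2 + ε / 4) (κ := 3 * ε / 4) (by linarith) (by linarith) (by linarith)
    (by linarith)
  refine ⟨R0, fun R hR G hG => ?_⟩
  have h := hR0 R hR
  set P := h.pc.pm hG with hP
  have hB : Bil (KQ (kT P)) := TW_bil P.wh.wd _
  have hc : ∀ v, SPV v → Kop2 ε G R v v = KQ (kT P) v v := fun v hv => Kop2_eq h.pc hG hv hv
  have hpr := props h.pc hG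
  refine ⟨hpr, fun ν hν => ⟨?_, ?_, ?_⟩⟩
  · intro v hv hdv
    obtain ⟨T, hT, u, p, h0, hs⟩ := local_existence (kT P) P.wh.wd hν hv hdv
    exact ⟨T, hT, u, p, h0, hs.congr fun v hv => (hc v hv).symm⟩
  · intro T u p hs
    have hs1 : Sol ν (KQ (kT P)) T u p := hs.congr hc
    refine ⟨fun t ht => hs1.energy_eq hB.opr hν ht, fun t ht => ?_, fun u' p' hs' h0 => ?_⟩
    · refine hel_eq hs1 hB.opr (fun v hv => ?_) ht
      rw [← hc v hv]
      have e1 := hpr.anti (curl v) v hv.curl hv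
      have e2 := hpr.skew v (curl v) (curl v) hv hv.curl hv.curl
      show ip (Aop ε G R (curl v) v) (curl v) = 0
      rw [e1]
      have e3 : ip (-Aop ε G R v (curl v)) (curl v) = -ip (Aop ε G R v (curl v)) (curl v) := by
        have := ip_smul (-1) (Aop ε G R v (curl v)) (curl v)
        rw [neg_one_smul] at this
        rw [this]; ring
      rw [e3]
      rw [ip_comm (curl v)] at e2
      linarith
    · exact uniqueness hB hν hs1 (hs'.congr hc) (hs1.KQ_wb _ P.wh.wd) h0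
  · intro v hv hdv η hη
    obtain ⟨w, h1, h2, h3, r, hr, h4⟩ := dense_blowup h (by linarith) hG hν hv hdv hη
    exact ⟨w, h1, h2, h3, r, hr, fun w' hw' hcl u p h0 hs => h4 w' hw' hcl u p h0 (hs.congr hc)⟩

end Pool.Agent.N980.WQ
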