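import Pool.Agent.N980.WQ.Fd
import Pool.Agent.N980.WQ.Coef

/-!
The Lebesgue norms of the curls of the packets.
-/

open MeasureTheory Set Filter Topology
open scoped ContDiff

set_option linter.unusedVariables false

namespace Pool.Agent.N980.WQ

open Pool.Agent.N980.NU
open Pool.Agent.N980.WP
open Pool.Agent.N980.CB (one_le_R R_pos)

/-! ### fields with the norms of a packet -/

/-- The field has the norms of a packet of width `1/l`. -/
structure Pkt (c l : ℝ) (F : V → V) : Prop where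
  cont : Continuous F
  l1 : ∫ x in cube, ‖F x‖ ≤ c / l
  sup : ∀ x, ‖F x‖ ≤ c * l

variable {c l : ℝ} {F : V → V}

theorem Pkt.lq (h : Pkt c l F) (hc : 0 < c) (hl : 0 < l) {q : ℝ} (hq : 1 < q) :
    (∫ x in cube, ‖F x‖ ^ q) ^ (1 / q) ≤ c * l ^ (1 - 2 / q) := by
  have hq0 : 0 < q := by linarith
  have h1 : ∫ x in cube, ‖F x‖ ^ q ≤ c ^ q * l ^ (q - 2) := by
    have hcn : Continuous fun x : V => ‖F x‖ ^ q := h.cont.norm.rpow_const fun x => Or.inr hq0.le
    have hb : ∀ x, ‖F x‖ ^ q ≤ (c * l) ^ (q - 1) * ‖F x‖ := by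
      intro x
      rcases eq_or_lt_of_le (norm_nonneg (F x)) with h0 | h0
      · rw [← h0, Real.zero_rpow hq0.ne', mul_zero]
      · have e : ‖F x‖ ^ q = ‖F x‖ ^ (q - 1) * ‖F x‖ := by
          have := Real.rpow_add h0 (q - 1) 1
          rw [Real.rpow_one] at this
          rw [← this]; congr 1; ring
        rw [e]
        have := h.sup x
        gcongr
    calc ∫ x in cube, ‖F x‖ ^ q ≤ ∫ x in cube, (c * l) ^ (q - 1) * ‖F x‖ :=
          setIntegral_mono_on (int_on_cube hcn) (int_on_cube (h.cont.norm.const_mul _)) measurableSet_Icc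
            fun x _ => hb x
      _ = (c * l) ^ (q - 1) * ∫ x in cube, ‖F x‖ := integral_const_mul _ _
      _ ≤ (c * l) ^ (q - 1) * (c / l) := by
          have := h.l1
          gcongr
      _ = c ^ q * l ^ (q - 2) := by
          rw [Real.mul_rpow hc.le hl.le]
          have e1 : c ^ q = c ^ (q - 1) * c := by
            have := Real.rpow_add hc (q - 1) 1
            rw [Real.rpow_one] at this
            rw [← this]; congr 1; ring
          have e2 : l ^ (q - 1) = l ^ (q - 2) * l := by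
            have := Real.rpow_add hl (q - 2) 1
            rw [Real.rpow_one] at this
            rw [← this]; congr 1; ring
          rw [e1, e2]
          field_simp
  calc (∫ x in cube, ‖F x‖ ^ q) ^ (1 / q) ≤ (c ^ q * l ^ (q - 2)) ^ (1 / q) := by
        refine Real.rpow_le_rpow (integral_nonneg fun x => Real.rpow_nonneg (norm_nonneg _) _) h1 (by positivity)
    _ = c * l ^ (1 - 2 / q) := by
        rw [Real.mul_rpow (by positivity) (by positivity), ← Real.rpow_mul hc.le, ← Real.rpow_mul hl.le,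
          mul_one_div_cancel hq0.ne', Real.rpow_one]
        congr 2
        field_simp

theorem dot_le (a b : V) : |∑ i, a i * b i| ≤ 3 * (‖a‖ * ‖b‖) := by
  refine (Finset.abs_sum_le_sum_abs _ _).trans ?_
  have : ∀ i ∈ (Finset.univ : Finset (Fin 3)), |a i * b i| ≤ ‖a‖ * ‖b‖ := fun i _ => by
    rw [abs_mul]
    exact mul_le_mul (norm_le_pi_norm a i) (norm_le_pi_norm b i) (abs_nonneg _) (norm_nonneg _)
  refine (Finset.sum_le_sum this).trans (le_of_eq ?_)
  simp

/-- The coefficients in terms of the Lebesgue norms. -/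
theorem Pkt.co_lp (h : Pkt c l F) (hc : 0 < c) (hl : 0 < l) {p : ℝ} (hp : 1 < p) {u : V → V} (hu : Continuous u) :
    |ip u F| ≤ 3 * c * l ^ (2 / p - 1) * lpn p u := by
  have hp0 : 0 < p := by linarith
  set q : ℝ := p / (p - 1) with hq
  have hpq : p.HolderConjugate q := Real.HolderConjugate.conjExponent hp
  have h1 : |ip u F| ≤ ∫ x in cube, 3 * (‖u x‖ * ‖F x‖) := by
    have hb : IntegrableOn (fun x => 3 * (‖u x‖ * ‖F x‖)) cube :=
      int_on_cube ((hu.norm.mul h.cont.norm).const_mul 3)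
    show ‖∫ x in cube, ∑ i, u x i * F x i‖ ≤ _
    refine norm_integral_le_of_norm_le hb (Eventually.of_forall fun x => ?_)
    exact dot_le _ _
  rw [integral_const_mul] at h1
  have h2 := integral_mul_norm_le_Lp_mul_Lq (μ := volume.restrict cube) hpq (memLp_cube hu p)
    (memLp_cube h.cont q)
  have hq1 : 1 < q := hpq.symm.lt
  have h3 := h.lq hc hl hq1
  have e : 1 - 2 / q = 2 / p - 1 := by
    have := hpq.inv_add_inv_eq_one
    rw [div_eq_mul_inv, div_eq_mul_inv]
    linarith
  rw [e] at h3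
  have h4 := lpn_nonneg p u
  calc |ip u F| ≤ 3 * ∫ x in cube, ‖u x‖ * ‖F x‖ := h1
    _ ≤ 3 * (lpn p u * (∫ x in cube, ‖F x‖ ^ q) ^ (1 / q)) := by gcongr; exact h2
    _ ≤ 3 * (lpn p u * (c * l ^ (2 / p - 1))) := by gcongr
    _ = _ := by ring

/-- Closeness of the coefficients. -/
theorem Pkt.close (h : Pkt c l F) {v w : V → V} (hv : Continuous v) (hw : Continuous w) {r : ℝ}
    (hr : ∀ x i, |v x i - w x i| ≤ r) : |ip v F - ip w F| ≤ 3 * r * (c / l) := by
  have hr0 : 0 ≤ r := (abs_nonneg _).trans (hr 0 0)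
  have i1 : ∀ {z : V → V}, Continuous z → IntegrableOn (fun x => ∑ i, z x i * F x i) cube := fun hz =>
    int_on_cube (continuous_finsetSum _ fun i _ => ((continuous_apply i).comp hz).mul ((continuous_apply i).comp h.cont))
  unfold ip
  rw [← integral_sub (i1 hv) (i1 hw)]
  have h1 : ‖∫ x in cube, (∑ i, v x i * F x i - ∑ i, w x i * F x i)‖ ≤ ∫ x in cube, 3 * (r * ‖F x‖) := by
    have hb : IntegrableOn (fun x => 3 * (r * ‖F x‖)) cube := int_on_cube ((h.cont.norm.const_mul r).const_mul 3)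
    refine norm_integral_le_of_norm_le hb (Eventually.of_forall fun x => ?_)
    rw [← Finset.sum_sub_distrib, Real.norm_eq_abs]
    have e : ∑ i, (v x i * F x i - w x i * F x i) = ∑ i, (fun i => v x i - w x i) i * F x i :=
      Finset.sum_congr rfl fun i _ => by ring
    rw [e]
    refine (dot_le _ _).trans ?_
    have : ‖fun i => v x i - w x i‖ ≤ r := (pi_norm_le_iff_of_nonneg hr0).2 fun i => hr x i
    gcongr
  rw [integral_const_mul, integral_const_mul] at h1
  calc _ ≤ 3 * (r * ∫ x in cube, ‖F x‖) := h1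
    _ ≤ 3 * (r * (c / l)) := by have := h.l1; gcongr
    _ = _ := by ring

/-! ### the curl of a packet -/

theorem pd_prod {a b : ℝ → ℝ} {a' b' : ℝ} {x : V} (ha : HasDerivAt a a' (x 0)) (hb : HasDerivAt b b' (x 1)) :
    pd 0 (fun y => a (y 0) * b (y 1)) x = a' * b (x 1) ∧ pd 1 (fun y => a (y 0) * b (y 1)) x = a (x 0) * b' := by
  have h0 : HasFDerivAt (fun y : V => a (y 0)) (a' • ContinuousLinearMap.proj (R := ℝ) (φ := fun _ : Fin 3 => ℝ) 0) x :=
    ha.comp_hasFDerivAt x (hasFDerivAt_apply 0 x)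
  have h1 : HasFDerivAt (fun y : V => b (y 1)) (b' • ContinuousLinearMap.proj (R := ℝ) (φ := fun _ : Fin 3 => ℝ) 1) x :=
    hb.comp_hasFDerivAt x (hasFDerivAt_apply 1 x)
  have h2 := h0.mul h1
  unfold pd
  have e : fderiv ℝ (fun y : V => a (y 0) * b (y 1)) x = _ := h2.fderiv
  rw [e]
  constructor
  · simp
    ring
  · simp

/-- The first factor of the packet. -/
noncomputable def pA (N L : ℕ) (y : ℝ) : ℝ := Real.sqrt 2 * Real.cos (2 * Real.pi * (N * y)) * fej L y / fS L

noncomputable def pA' (N L : ℕ) (y : ℝ) : ℝ :=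
  (Real.sqrt 2 * (-Real.sin (2 * Real.pi * (N * y)) * (2 * Real.pi * N)) * fej L y
    + Real.sqrt 2 * Real.cos (2 * Real.pi * (N * y)) * fejD L y) / fS L

theorem pA_deriv (N L : ℕ) (y : ℝ) : HasDerivAt (pA N L) (pA' N L y) y := by
  have h1 : HasDerivAt (fun y : ℝ => 2 * Real.pi * (N * y)) (2 * Real.pi * N) y := by
    simpa using ((hasDerivAt_id' y).const_mul (N : ℝ)).const_mul (2 * Real.pi)
  exact ((h1.cos.const_mul (Real.sqrt 2)).mul (fej_deriv L y)).div_const _

theorem pf_eq (N L : ℕ) : pf N L = fun x => pA N L (x 0) * fej L (x 1) := by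
  funext x
  unfold pf pA
  ring

theorem pA_abs (N L : ℕ) (y : ℝ) : |pA N L y| ≤ 3 / ((L : ℝ) + 1) * fej L y := by
  have h0 := fej_nonneg L y
  have h2 := fS_pos L
  have h3 := fS_r L
  have h4 := Real.abs_cos_le_one (2 * Real.pi * (N * y))
  unfold pA
  rw [abs_div, abs_mul, abs_mul, abs_of_nonneg h0, abs_of_pos h2, abs_of_nonneg (Real.sqrt_nonneg 2)]
  calc Real.sqrt 2 * |Real.cos (2 * Real.pi * (N * y))| * fej L y / fS L
      ≤ Real.sqrt 2 * 1 * fej L y / fS L := by gcongr
    _ = Real.sqrt 2 / fS L * fej L y := by ring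
    _ ≤ _ := by gcongr

theorem pA'_abs (N L : ℕ) (y : ℝ) :
    |pA' N L y| ≤ 3 / ((L : ℝ) + 1) * (2 * Real.pi * N * fej L y + |fejD L y|) := by
  have h0 := fej_nonneg L y
  have h2 := fS_pos L
  have h3 := fS_r L
  have hpi := Real.pi_pos
  have h4 := Real.abs_cos_le_one (2 * Real.pi * (N * y))
  have h5 := Real.abs_sin_le_one (2 * Real.pi * (N * y))
  have hN : (0 : ℝ) ≤ N := Nat.cast_nonneg N
  unfold pA'
  rw [abs_div, abs_of_pos h2]
  have h6 : |Real.sqrt 2 * (-Real.sin (2 * Real.pi * (N * y)) * (2 * Real.pi * N)) * fej L y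
    + Real.sqrt 2 * Real.cos (2 * Real.pi * (N * y)) * fejD L y| ≤ Real.sqrt 2 * (2 * Real.pi * N * fej L y + |fejD L y|) := by
    refine (abs_add_le _ _).trans ?_
    have a1 : |Real.sqrt 2 * (-Real.sin (2 * Real.pi * (N * y)) * (2 * Real.pi * N)) * fej L y|
        ≤ Real.sqrt 2 * (2 * Real.pi * N * fej L y) := by
      rw [abs_mul, abs_mul, abs_mul, abs_neg, abs_of_nonneg h0, abs_of_nonneg (Real.sqrt_nonneg 2),
        abs_of_nonneg (by positivity : 0 ≤ 2 * Real.pi * (N : ℝ))]
      calc Real.sqrt 2 * (|Real.sin (2 * Real.pi * (N * y))| * (2 * Real.pi * N)) * fej L y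
          ≤ Real.sqrt 2 * (1 * (2 * Real.pi * N)) * fej L y := by gcongr
        _ = _ := by ring
    have a2 : |Real.sqrt 2 * Real.cos (2 * Real.pi * (N * y)) * fejD L y| ≤ Real.sqrt 2 * |fejD L y| := by
      rw [abs_mul, abs_mul, abs_of_nonneg (Real.sqrt_nonneg 2)]
      calc Real.sqrt 2 * |Real.cos (2 * Real.pi * (N * y))| * |fejD L y| ≤ Real.sqrt 2 * 1 * |fejD L y| := by gcongr
        _ = _ := by ring
    linarith
  calc _ ≤ Real.sqrt 2 * (2 * Real.pi * N * fej L y + |fejD L y|) / fS L := by gcongr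
    _ = Real.sqrt 2 / fS L * (2 * Real.pi * N * fej L y + |fejD L y|) := by ring
    _ ≤ _ := by gcongr

theorem curl_pF (N L : ℕ) (x : V) : curl (pF N L) x = ![pA N L (x 0) * fejD L (x 1), -(pA' N L (x 0) * fej L (x 1)), 0] := by
  have h1 : (fun y : V => pF N L y 0) = fun _ => (0 : ℝ) := rfl
  have h2 : (fun y : V => pF N L y 1) = fun _ => (0 : ℝ) := rfl
  have h3 : (fun y : V => pF N L y 2) = fun y => pA N L (y 0) * fej L (y 1) := pf_eq N L
  have hz : ∀ j, pd j (fun _ : V => (0 : ℝ)) x = 0 := by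
    intro j
    unfold pd
    rw [fderiv_fun_const]
    rfl
  obtain ⟨e0, e1⟩ := pd_prod (x := x) (pA_deriv N L (x 0)) (fej_deriv L (x 1))
  unfold curl
  rw [h1, h2, h3, hz, hz, hz, e0, e1]
  simp only [sub_zero, zero_sub]

theorem q_pkt (P : Pm) (n : ℕ) : Pkt 15 (wd P.L n) ((qX P).F n) := by
  have hpi := Real.pi_pos
  have hR := R_pos P.wh.wd.hR n
  have hl0 := P.wh.wd.pos n
  have hlR : wd P.L n ≤ (P.R : ℝ) ^ n := P.wh.wd.le n
  have hcast : ((P.R ^ n : ℕ) : ℝ) = (P.R : ℝ) ^ n := by push_cast; ring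
  have hl : wd P.L n = (P.L n : ℝ) + 1 := rfl
  set N := P.R ^ n with hN
  set L := P.L n with hL
  set l := wd P.L n with hld
  have hF : ∀ x, (qX P).F n x = (1 / (2 * Real.pi * (P.R : ℝ) ^ n)) •
      (![pA N L (x 0) * fejD L (x 1), -(pA' N L (x 0) * fej L (x 1)), 0] : V) := by
    intro x
    have h1 := crl_F P.X P.wh.wd n
    have h2 : (qX P).F n = (1 / (2 * Real.pi * (P.R : ℝ) ^ n)) • curl (P.X.F n) := h1
    rw [h2, Pi.smul_apply, P.F_eq, curl_pF]
  set r := (P.R : ℝ) ^ n with hr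
  have hcont : Continuous ((qX P).F n) := ((qX P).spv n).cont
  have hg0 := fej_nonneg L
  have hg1 := fej_le L
  have hd := fejD_sup L
  have hd' := fejD_le L
  rw [← hl] at hg1 hd
  have ha := pA_abs N L
  have ha' := pA'_abs N L
  rw [← hl] at ha ha'
  rw [hcast] at ha'
  have hnorm : ∀ x (A B : ℝ), |pA N L (x 0) * fejD L (x 1)| ≤ A → |pA' N L (x 0) * fej L (x 1)| ≤ B → 0 ≤ A → 0 ≤ B →
      ‖(qX P).F n x‖ ≤ (A + B) / (2 * Real.pi * r) := by
    intro x A B h1 h2 hA hB
    rw [hF, norm_smul, Real.norm_eq_abs, abs_of_pos (by positivity), one_div, inv_mul_eq_div]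
    refine div_le_div_of_nonneg_right ?_ (by positivity)
    rw [pi_norm_le_iff_of_nonneg (by positivity)]
    intro i
    fin_cases i
    · show |pA N L (x 0) * fejD L (x 1)| ≤ _
      linarith
    · show |-(pA' N L (x 0) * fej L (x 1))| ≤ _
      rw [abs_neg]
      linarith
    · show |(0 : ℝ)| ≤ _
      rw [abs_zero]
      linarith
  refine ⟨hcont, ?_, ?_⟩
  · -- the integral
    have hM : ∀ x : V, ‖(qX P).F n x‖ ≤ 3 / l * (fej L (x 0) * fej L (x 1)) + 3 / l * (1 / (2 * Real.pi * r)) *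
        (fejM L (x 0) * fej L (x 1)) + 3 / l * (1 / (2 * Real.pi * r)) * (fej L (x 0) * fejM L (x 1)) := by
      intro x
      have b0 : 0 ≤ fejM L (x 0) := (abs_nonneg _).trans (hd' _)
      have b1 : 0 ≤ fejM L (x 1) := (abs_nonneg _).trans (hd' _)
      have g0 := hg0 (x 0)
      have g1 := hg0 (x 1)
      have c1 : |pA N L (x 0) * fejD L (x 1)| ≤ 3 / l * fej L (x 0) * fejM L (x 1) := by
        rw [abs_mul]
        exact mul_le_mul (ha _) (hd' _) (abs_nonneg _) (by positivity)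
      have c2 : |pA' N L (x 0) * fej L (x 1)| ≤ 3 / l * (2 * Real.pi * r * fej L (x 0) + fejM L (x 0)) * fej L (x 1) := by
        rw [abs_mul, abs_of_nonneg g1]
        refine mul_le_mul_of_nonneg_right ((ha' _).trans ?_) g1
        have := hd' (x 0)
        gcongr
      refine (hnorm x _ _ c1 c2 (by positivity) (by positivity)).trans (le_of_eq ?_)
      field_simp
      ring
    have m1 := fej_cont L
    have m2 := fejM_cont L
    have i1 : Continuous fun x : V => 3 / l * (fej L (x 0) * fej L (x 1)) := by fun_prop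
    have i2 : Continuous fun x : V => 3 / l * (1 / (2 * Real.pi * r)) * (fejM L (x 0) * fej L (x 1)) := by fun_prop
    have i3 : Continuous fun x : V => 3 / l * (1 / (2 * Real.pi * r)) * (fej L (x 0) * fejM L (x 1)) := by fun_prop
    have i12 : Continuous fun x : V => 3 / l * (fej L (x 0) * fej L (x 1)) + 3 / l * (1 / (2 * Real.pi * r)) *
        (fejM L (x 0) * fej L (x 1)) := by fun_prop
    have i123 : Continuous fun x : V => 3 / l * (fej L (x 0) * fej L (x 1)) + 3 / l * (1 / (2 * Real.pi * r)) *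
        (fejM L (x 0) * fej L (x 1)) + 3 / l * (1 / (2 * Real.pi * r)) * (fej L (x 0) * fejM L (x 1)) := by fun_prop
    have h1 := setIntegral_mono_on (int_on_cube hcont.norm) (int_on_cube i123) measurableSet_Icc
      fun x _ => hM x
    refine h1.trans ?_
    rw [integral_add (int_on_cube i12) (int_on_cube i3), integral_add (int_on_cube i1) (int_on_cube i2), integral_const_mul,
      integral_const_mul, integral_const_mul, cube_prod (fej L) (fej L), cube_prod (fejM L) (fej L),
      cube_prod (fej L) (fejM L), fejI]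
    have hI := fejM_int L
    rw [← hl] at hI
    have hI0 : 1 / (2 * Real.pi * r) * ∫ y in Icc (0 : ℝ) 1, fejM L y ≤ 2 := by
      calc 1 / (2 * Real.pi * r) * ∫ y in Icc (0 : ℝ) 1, fejM L y ≤ 1 / (2 * Real.pi * r) * (4 * Real.pi * l) := by gcongr
        _ ≤ 1 / (2 * Real.pi * r) * (4 * Real.pi * r) := by gcongr
        _ = 2 := by field_simp; norm_num
    have h3l : 0 < 3 / l := by positivity
    have e : 15 / l = 3 / l * 1 + 3 / l * 2 + 3 / l * 2 := by ring
    rw [e]
    nlinarith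
  · intro x
    have g0 := hg0 (x 0)
    have g1 := hg0 (x 1)
    have k0 := hg1 (x 0)
    have k1 := hg1 (x 1)
    have c1 : |pA N L (x 0) * fejD L (x 1)| ≤ 3 / l * l * (2 * Real.pi * l ^ 2) := by
      rw [abs_mul]
      refine mul_le_mul ((ha _).trans ?_) (hd _) (abs_nonneg _) (by positivity)
      gcongr
    have c2 : |pA' N L (x 0) * fej L (x 1)| ≤ 3 / l * (2 * Real.pi * r * l + 2 * Real.pi * l ^ 2) * l := by
      rw [abs_mul, abs_of_nonneg g1]
      refine mul_le_mul ((ha' _).trans ?_) k1 g1 (by positivity)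
      have := hd (x 0)
      gcongr
    refine (hnorm x _ _ c1 c2 (by positivity) (by positivity)).trans ?_
    rw [div_le_iff₀ (by positivity)]
    have e1 : 3 / l * l * (2 * Real.pi * l ^ 2) + 3 / l * (2 * Real.pi * r * l + 2 * Real.pi * l ^ 2) * l
        = 2 * Real.pi * (6 * l ^ 2 + 3 * r * l) := by
      field_simp
      ring
    rw [e1]
    have h2 : l ^ 2 ≤ r * l := by nlinarith
    have h3 : 0 < r * l := by positivity
    calc 2 * Real.pi * (6 * l ^ 2 + 3 * r * l) ≤ 2 * Real.pi * (15 * (r * l)) := by gcongr; linarith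
      _ = 15 * l * (2 * Real.pi * r) := by ring

theorem p_pkt (P : Pm) (n : ℕ) : Pkt 15 (wd P.L n) (pF (P.R ^ n) (P.L n)) := by
  have hl0 := P.wh.wd.pos n
  refine ⟨pF_cont _ _, ?_, ?_⟩
  · have h1 : ∫ x in cube, ‖pF (P.R ^ n) (P.L n) x‖ = ∫ x in cube, |pf (P.R ^ n) (P.L n) x| := by
      congr 1
      funext x
      exact norm_pF _ _ x
    rw [h1]
    refine (pf_l1 _ _).trans ?_
    show 3 / wd P.L n ≤ 15 / wd P.L n
    gcongr
    norm_num
  · intro x
    rw [norm_pF]
    refine (pf_sup _ _ x).trans ?_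
    show 3 * wd P.L n ≤ 15 * wd P.L n
    gcongr
    norm_num

end Pool.Agent.N980.WQ
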