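import Pool.Agent.N980.WQ.Fin2

/-!
The alternating form as an explicit series; its properties; the theorem.
-/

open MeasureTheory Set Filter Topology
open scoped ContDiff

set_option linter.unusedVariables false

namespace Pool.Agent.N980.WQ

open Pool.Agent.N980.NU
open Pool.Agent.N980.WP hiding Sys St Cond
open Pool.Agent.N980.CB (gG rpow_swap)

/-- The packet of the scale `n`: the field `(0, 0, √2 cos(2π Rⁿ x₁) F(x₁) F(x₂) / S)`, where `F` is the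
Fejér kernel of degree `⌊R^((1-κ)n)/2⌋` and `S` the sum of the squares of its coefficients. -/
noncomputable def pk (R : ℕ) (κ : ℝ) (n : ℕ) : V → V := pF (R ^ n) (Lw R κ n)

/-- The normalized curl of the packet. -/
noncomputable def qk (R : ℕ) (κ : ℝ) (n : ℕ) : V → V := (1 / (2 * Real.pi * (R : ℝ) ^ n)) • curl (pk R κ n)

/-- The field `∑ det` representing the alternating form `det(⟨·,a⟩, ⟨·,b⟩, ⟨·,c⟩)`. -/
noncomputable def wdg (a b c w v : V → V) (x : V) : V :=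
  (ip w a * ip v b - ip w b * ip v a) • c x + (ip w b * ip v c - ip w c * ip v b) • a x
    + (ip w c * ip v a - ip w a * ip v c) • b x

/-- The bilinear operator of the alternating form. -/
noncomputable def AP (G σ κ : ℝ) (R : ℕ) (w v : V → V) (x : V) : V :=
  ∑' n : ℕ, ((G * ((R : ℝ) ^ n) ^ σ / (2 * Real.pi * (R : ℝ) ^ (n + 1))) •
      wdg (pk R κ n) (pk R κ (n + 1)) (qk R κ (n + 1)) w v x
    + (Real.exp (-((R : ℝ) ^ σ / 1250)) * (G * ((R : ℝ) ^ n) ^ σ) / (2 * Real.pi * (R : ℝ) ^ n)) •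
      wdg (pk R κ n) (pk R κ (n + 1)) (qk R κ n) w v x)

/-- The properties of the operator `A`. -/
structure AProps (G σ κ : ℝ) (R : ℕ) : Prop where
  spv : ∀ w v, SPV w → SPV v → SPV (AP G σ κ R w v)
  divfree : ∀ w v, SPV w → SPV v → ∀ x, dv (AP G σ κ R w v) x = 0
  add_left : ∀ w w' v, SPV w → SPV w' → SPV v → AP G σ κ R (w + w') v = AP G σ κ R w v + AP G σ κ R w' v
  smul_left : ∀ (r : ℝ) w v, SPV w → SPV v → AP G σ κ R (r • w) v = r • AP G σ κ R w v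
  anti : ∀ w v, SPV w → SPV v → AP G σ κ R w v = -AP G σ κ R v w
  skew : ∀ w v z, SPV w → SPV v → SPV z → ip (AP G σ κ R w v) z = -ip v (AP G σ κ R w z)
  bound : ∃ C, ∀ s₁ s₂ s₃ : ℝ, 0 ≤ s₁ → 0 ≤ s₂ → 0 ≤ s₃ → σ - 1 ≤ s₁ + s₂ + s₃ →
    ∀ w v z, SPV w → SPV v → SPV z → |ip (AP G σ κ R w v) z| ≤ C * (hs s₁ w * hs s₂ v * hs s₃ z)
  lp : ∃ C, ∀ p₁ p₂ p₃ : ℝ, 1 < p₁ → 1 < p₂ → 1 < p₃ → 1 / p₁ + 1 / p₂ + 1 / p₃ = 1 →
    ∀ M : ℝ, 1 ≤ M → ∀ w v z, SPV w → SPV v → SPV z → (BL M w ∨ BL M v ∨ BL M z) →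
      |ip (AP G σ κ R w v) z| ≤ C * M ^ (σ - 2 + κ) * (lpn p₁ w * lpn p₂ v * lpn p₃ z)

variable {R : ℕ} {σ κ G ν : ℝ}

theorem qk_eq (h : PC R σ κ) (hG : 0 < G) (n : ℕ) : (qX (h.pm hG)).F n = qk R κ n := by
  have h1 := crl_F (h.pm hG).X (h.pm hG).wh.wd n
  have h2 : (h.pm hG).X.F n = pk R κ n := (h.pm hG).F_eq n
  rw [h2] at h1
  exact h1

theorem AP_eq (h : PC R σ κ) (hG : 0 < G) {w v : V → V} (hw : SPV w) (hv : SPV v) :
    AP G σ κ R w v = KQ (aT (h.pm hG)) w v := by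
  funext x
  set P := h.pm hG with hP
  have h1 := TW_series P.wh.wd ![aD1 P, aD2 P] hw hv x
  have h2 : KQ (aT P) w v x = KQ (TW ![aD1 P, aD2 P]) w v x := rfl
  rw [h2, ← h1.tsum_eq]
  unfold AP
  refine tsum_congr fun n => ?_
  have f0 : P.X.F n = pk R κ n := P.F_eq n
  have f1 : P.X'.F n = pk R κ (n + 1) := P.F_eq' n
  have f2 : (qX P).F n = qk R κ n := qk_eq h hG n
  have f3 : (qX' P).F n = qk R κ (n + 1) := qk_eq h hG (n + 1)
  have c0 : ∀ u : V → V, P.X.cs u n = ip u (pk R κ n) := fun u => by rw [← f0]; rfl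
  have c1 : ∀ u : V → V, P.X'.cs u n = ip u (pk R κ (n + 1)) := fun u => by rw [← f1]; rfl
  have c2 : ∀ u : V → V, (qX P).cs u n = ip u (qk R κ n) := fun u => by rw [← f2]; rfl
  have c3 : ∀ u : V → V, (qX' P).cs u n = ip u (qk R κ (n + 1)) := fun u => by rw [← f3]; rfl
  have hg : P.g n = G * ((R : ℝ) ^ n) ^ σ := by rw [rpow_swap]; rfl
  have hδ : P.δ = Real.exp (-((R : ℝ) ^ σ / 1250)) := rfl
  have hR : P.R = R := rfl
  simp only [Fin.sum_univ_two, aD1, aD2, Matrix.cons_val_zero, Matrix.cons_val_one, Matrix.cons_val, f0, f1, f2, f3,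
    c0, c1, c2, c3, hg, hδ, hR, wdg]
  module

theorem wdg_anti (a b c w v : V → V) (x : V) : wdg a b c w v x = -wdg a b c v w x := by
  unfold wdg
  module

theorem AP_anti (w v : V → V) : AP G σ κ R w v = -AP G σ κ R v w := by
  funext x
  rw [Pi.neg_apply]
  unfold AP
  rw [← tsum_neg]
  refine tsum_congr fun n => ?_
  rw [wdg_anti _ _ _ w v, wdg_anti _ _ _ w v]
  module

theorem gn_eq (h : PC R σ κ) (hG : 0 < G) (n : ℕ) : (h.pm hG).g n = G * ((R : ℝ) ^ n) ^ σ := by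
  rw [rpow_swap]; rfl

theorem aκ (h : PC R σ κ) (hG : 0 < G) : ∀ t n, |((aT (h.pm hG)) t).κ n| ≤ G * ((R : ℝ) ^ n) ^ (σ - 1) := by
  set P := h.pm hG with hP
  have hR0 := h.R0
  have hR1 := h.R1
  have e : ∀ n, P.g n = G * ((R : ℝ) ^ n) ^ (σ - 1) * (R : ℝ) ^ n := by
    intro n
    have h1 : (0 : ℝ) < (R : ℝ) ^ n := pow_pos hR0 n
    rw [gn_eq h hG n, Real.rpow_sub_one h1.ne']
    field_simp
  have h0 : ∀ n, 0 ≤ G * ((R : ℝ) ^ n) ^ (σ - 1) := fun n => mul_nonneg hG.le (Real.rpow_nonneg (by positivity) _)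
  have hpi := Real.pi_gt_three
  have k1 : ∀ n, |1 / (2 * Real.pi * (R : ℝ) ^ (n + 1)) * P.g n| ≤ G * ((R : ℝ) ^ n) ^ (σ - 1) := by
    intro n
    have h1 : (0 : ℝ) < (R : ℝ) ^ n := pow_pos hR0 n
    have h2 := h0 n
    rw [abs_of_nonneg (mul_nonneg (by positivity) (P.g0 n)), e, one_div, inv_mul_eq_div, div_le_iff₀ (by positivity)]
    have h3 : (R : ℝ) ^ n * 1 ≤ (R : ℝ) ^ n * R := by gcongr
    refine mul_le_mul_of_nonneg_left ?_ h2
    rw [pow_succ]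
    nlinarith
  have k2 : ∀ n, |P.δ / (2 * Real.pi * (R : ℝ) ^ n) * P.g n| ≤ G * ((R : ℝ) ^ n) ^ (σ - 1) := by
    intro n
    have h1 : (0 : ℝ) < (R : ℝ) ^ n := pow_pos hR0 n
    have h2 := h0 n
    have hδ0 := P.δ0
    have hδ1 := P.δ1
    rw [abs_of_nonneg (mul_nonneg (by positivity) (P.g0 n)), e, div_mul_eq_mul_div, div_le_iff₀ (by positivity)]
    have h4 : P.δ * (R : ℝ) ^ n ≤ 2 * Real.pi * (R : ℝ) ^ n := by
      have : P.δ ≤ 2 * Real.pi := by linarith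
      gcongr
    calc P.δ * (G * ((R : ℝ) ^ n) ^ (σ - 1) * (R : ℝ) ^ n) = G * ((R : ℝ) ^ n) ^ (σ - 1) * (P.δ * (R : ℝ) ^ n) := by ring
      _ ≤ G * ((R : ℝ) ^ n) ^ (σ - 1) * (2 * Real.pi * (R : ℝ) ^ n) := by gcongr
  rintro ⟨i, j⟩ n
  fin_cases i <;> fin_cases j
  · exact k1 n
  · show |-(1 / (2 * Real.pi * (R : ℝ) ^ (n + 1)) * P.g n)| ≤ _
    rw [abs_neg]; exact k1 n
  · exact k1 n
  · show |-(1 / (2 * Real.pi * (R : ℝ) ^ (n + 1)) * P.g n)| ≤ _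
    rw [abs_neg]; exact k1 n
  · exact k1 n
  · show |-(1 / (2 * Real.pi * (R : ℝ) ^ (n + 1)) * P.g n)| ≤ _
    rw [abs_neg]; exact k1 n
  · exact k2 n
  · show |-(P.δ / (2 * Real.pi * (R : ℝ) ^ n) * P.g n)| ≤ _
    rw [abs_neg]; exact k2 n
  · exact k2 n
  · show |-(P.δ / (2 * Real.pi * (R : ℝ) ^ n) * P.g n)| ≤ _
    rw [abs_neg]; exact k2 n
  · exact k2 n
  · show |-(P.δ / (2 * Real.pi * (R : ℝ) ^ n) * P.g n)| ≤ _
    rw [abs_neg]; exact k2 n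

theorem aprops (h : PC R σ κ) (hG : 0 < G) : AProps G σ κ R := by
  have hB : Bil (KQ (aT (h.pm hG))) := TW_bil h.wh.wd _
  refine ⟨?_, ?_, ?_, ?_, ?_, ?_, ?_, ?_⟩
  · intro u v hu hv
    rw [AP_eq h hG hu hv]
    exact hB.spv u v hu hv
  · intro u v hu hv x
    rw [AP_eq h hG hu hv]
    exact dv_KQ _ h.wh.wd hu hv x
  · intro u u' v hu hu' hv
    rw [AP_eq h hG hu hv, AP_eq h hG hu' hv, AP_eq h hG (hu.add hu') hv]
    exact hB.add_left u u' v hu hu' hv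
  · intro r u v hu hv
    rw [AP_eq h hG hu hv, AP_eq h hG (hu.smul r) hv]
    exact hB.smul_left r u v hu hv
  · intro w v _ _
    exact AP_anti w v
  · intro u v w hu hv hw
    rw [AP_eq h hG hu hv, AP_eq h hG hu hw]
    exact TW_skew h.wh.wd _ hu hv hw
  · obtain ⟨D, hD0, hD⟩ := KQ_bound (aT (h.pm hG)) h.wh.wd hG.le (aκ h hG)
    refine ⟨D, fun s1 s2 s3 h1 h2 h3 hs u v w hu hv hw => ?_⟩
    rw [AP_eq h hG hu hv]
    exact hD s1 s2 s3 h1 h2 h3 hs u v w hu hv hw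
  · obtain ⟨D, hD0, hD⟩ := PC.lp_boundA h hG
    refine ⟨D, fun p1 p2 p3 h1 h2 h3 hp M hM u v w hu hv hw hb => ?_⟩
    rw [AP_eq h hG hu hv]
    exact hD p1 p2 p3 h1 h2 h3 hp M hM u v w hu hv hw hb

end Pool.Agent.N980.WQ
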