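import Pool.Agent.N980.WQ.Fin2

/-!
The operator with a sign.
-/

open MeasureTheory Set Filter Topology
open scoped ContDiff

set_option linter.unusedVariables false

namespace Pool.Agent.N980.WQ

open Pool.Agent.N980.NU
open Pool.Agent.N980.WP hiding Sys St Cond
open Pool.Agent.N980.CB (one_le_R R_pos inn out FF gG Par zz zz16 par_zz energy_nonneg rpow_swap qq qq_pos Rap energy_bd dv_add sel)

section
variable {R : ℕ} {ℓ : ℕ → ℝ}

/-- Multiplication of the coefficients by a sign. -/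
noncomputable def W3.sc (s : ℝ) (hs : |s| = 1) (D : W3 R ℓ) : W3 R ℓ where
  a := fun j n => s * D.a j n
  U := D.U
  Y := D.Y
  C := D.C
  ha := fun j n => by
    rw [abs_mul, hs, one_mul]
    exact D.ha j n
  hd := D.hd

theorem TW_sc (w : Wd R ℓ) (D : Fin 2 → W3 R ℓ) {s : ℝ} (hs : |s| = 1) {u v : V → V} (hu : SPV u) (hv : SPV v) :
    KQ (TW fun i => (D i).sc s hs) u v = s • KQ (TW D) u v := by
  funext x
  rw [Pi.smul_apply]
  refine (TW_series w (fun i => (D i).sc s hs) hu hv x).unique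
    (((TW_series w D hu hv x).const_smul s).congr_fun fun n => ?_)
  rw [Finset.smul_sum]
  refine Finset.sum_congr rfl fun i _ => ?_
  simp only [W3.sc]
  module

theorem sgn_abs {s : ℝ} (hs : |s| = 1) : s * s = 1 := by
  have : |s| * |s| = 1 := by rw [hs]; norm_num
  rwa [abs_mul_abs_self] at this

theorem inn_sgn {s : ℝ} (hs : |s| = 1) (g : ℕ → ℝ) (δ : ℝ) (x : ℕ → ℝ → ℝ) (k : ℕ) (t : ℝ) :
    inn g δ (fun k t => s * x k t) k t = inn g δ x k t := by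
  have h := sgn_abs hs
  cases k with
  | zero => rfl
  | succ k =>
    simp only [inn, FF]
    linear_combination (g k * (δ * x k t + x (k + 1) t) * x k t) * h

theorem out_sgn {s : ℝ} (hs : |s| = 1) (g : ℕ → ℝ) (δ : ℝ) (x : ℕ → ℝ → ℝ) (k : ℕ) (t : ℝ) :
    out g δ (fun k t => s * x k t) k t = out g δ x k t := by
  have h := sgn_abs hs
  simp only [out, FF]
  linear_combination (g k * (δ * x k t + x (k + 1) t) * x (k + 1) t) * h

theorem qi_sgn (s : ℝ) (g : ℕ → ℝ) (δ rq rr : ℝ) (x y : ℕ → ℝ → ℝ) (k : ℕ) (t : ℝ) :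
    qi g δ rq rr (fun k t => s * x k t) y k t = s * qi g δ rq rr x y k t := by
  cases k with
  | zero => simp only [qi]; ring
  | succ k => simp only [qi]; ring

end

variable {R : ℕ} {σ κ ν T G : ℝ} {u : ℝ → V → V} {p : ℝ → V → ℝ}

/-- The chain system of a smooth solution. -/
theorem sysS (h : PD R σ κ) (hG : 0 < G) {s : ℝ} (hs1 : |s| = 1) {Kf : (V → V) → (V → V) → V → V} (hOk : Opr Kf)
    (hKf : ∀ v, SPV v → Kf v v = s • KQ (kT (h.pc.pm hG)) v v) (hs : Sol ν Kf T u p) (hν : 0 < ν) {E b : ℝ}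
    (hE : energy (u 0) ≤ E) (hb : 0 < b) {N : ℕ}
    (hN : ∀ k : ℕ, 16 * G * b ^ 2 * HH R σ κ ^ k ≤ b0 ν G E * ((R : ℝ) ^ (σ - κ)) ^ (max k N)) :
    Sys R ((R : ℝ) ^ (σ - κ)) ((R : ℝ) ^ (2 - σ + κ)) ((R : ℝ) ^ σ) (zz ((R : ℝ) ^ σ)) G (4 * Real.pi ^ 2 * ν)
      (2 * b0 ν G E) T b N (th (h.pc.pm hG)) (fun n t => s * (h.pc.pm hG).co (u t) n)
      (fun n t => qo (h.pc.pm hG) (u t) n) := by
  set P := h.pc.pm hG with hP
  have hE0 : 0 ≤ E := (energy_nonneg _).trans hE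
  have hpi := Real.pi_pos
  have hw := h.pc.wh.wd
  have hss := sgn_abs hs1
  have hKip : ∀ {v F : V → V}, SPV v → SPV F → ip (Kf v v) F = s * ip (KQ (kT P) v v) F := by
    intro v F hv hF
    rw [hKf v hv, ip_smul]
  have hb00 : 0 ≤ b0 ν G E := by
    unfold b0
    have := Real.sqrt_nonneg E
    positivity
  have hA1 : 1 ≤ (R : ℝ) ^ (σ - κ) := by linarith [h.P2]
  have hPR : P.R = R := rfl
  have hPL : P.L = Lw R κ := rfl
  have hδ : P.δ = zz ((R : ℝ) ^ σ) ^ 16 := (zz16 _).symm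
  have hg : P.g = gG G ((R : ℝ) ^ σ) := rfl
  refine ⟨h.pc.par, h.RQ', h.QR, h.P2, ?_, h.PQ, h.pc.RΛ, hG, by positivity, by positivity, ?_,
    fun n => (th_le P n).trans (by norm_num), ?_, ?_, ?_,
    ?_, ?_, ?_⟩
  · have := h.pc.R4
    exact_mod_cast (by omega : 2 ≤ R)
  · intro k
    have := th_ge P k
    linarith
  · intro k
    exact (hs.ip_cont (F := pF (R ^ k) (Lw R κ k)) (by have := P.X.spv k; rwa [P.F_eq] at this)).const_smul s
  · intro k t ht hy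
    have hI : t ∈ Ico 0 T := ⟨ht.1.le, ht.2⟩
    have hspv := hs.spv hI
    have hFs := P.X.spv k
    have hdF : ∀ x, dv (P.X.F k) x = 0 := fun x => dv_fd (P.X.RD k) (fun q => P.Dv k q) x
    have hd := hs.ip_deriv hOk hFs hdF ht
    have hen := (hs.energy_le hOk hν hI).trans hE
    have e1 := PX_lap h.pc.wh hspv k
    have e3 : (PX h.pc.wh).cs (u t) k = P.co (u t) k := P.cs_eq (u t) k
    rw [e3] at e1
    have hRk : (0 : ℝ) < (R : ℝ) ^ k := pow_pos h.pc.R0 k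
    have hwk := hw.pos k
    have e1' : |ip (u t) (lap (P.X.F k)) + 4 * Real.pi ^ 2 * ((R : ℝ) ^ k) ^ 2 * P.co (u t) k|
        ≤ 240 * ((R : ℝ) ^ k * wd (Lw R κ) k) * Real.sqrt (energy (u t)) := by
      refine e1.trans ?_
      have := Real.sqrt_nonneg (energy (u t))
      gcongr
      norm_num
    have e2 : ∀ x i j, |pd j (fun y => P.X.F k y i) x| ≤ 3087 * ((R : ℝ) ^ k * wd (Lw R κ) k) := by
      intro x i j
      have h1 : |pd j (fun y => P.X.F k y i) x| ≤ 7 * (3 * (R : ℝ) ^ k) * (3 * wd (Lw R κ) k) :=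
        P.X.pd_le hw k x i j
      have : (0 : ℝ) ≤ (R : ℝ) ^ k * wd (Lw R κ) k := by positivity
      linarith
    have e5 := ns_err h hG hspv hFs hen hν k e1' e2
    have hEP := eP_bound h hG hspv hen hb hy
    rw [← hP] at hEP
    have hfin : ∀ e' : ℝ, |e'| ≤ 24 * (G * E) * ((R : ℝ) ^ (σ - κ)) ^ k + 16 * G * b ^ 2 * HH R σ κ ^ k →
        |s * (ν * (ip (u t) (lap (P.X.F k)) + 4 * Real.pi ^ 2 * ((R : ℝ) ^ k) ^ 2 * P.co (u t) k) + cvt (u t) (P.X.F k)) + e'|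
          ≤ 2 * b0 ν G E * ((R : ℝ) ^ (σ - κ)) ^ (max k N) := by
      intro e' he'
      have h1 : ((R : ℝ) ^ (σ - κ)) ^ k ≤ ((R : ℝ) ^ (σ - κ)) ^ (max k N) :=
        pow_le_pow_right₀ hA1 (le_max_left _ _)
      have h2 := hN k
      have h3 : b0 ν G E * ((R : ℝ) ^ (σ - κ)) ^ k ≤ b0 ν G E * ((R : ℝ) ^ (σ - κ)) ^ (max k N) := by gcongr
      have h4 : b0 ν G E * ((R : ℝ) ^ (σ - κ)) ^ k
          = 3 / 2 * (240 * ν * Real.sqrt E + 9261 * E) * ((R : ℝ) ^ (σ - κ)) ^ k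
            + 24 * (G * E) * ((R : ℝ) ^ (σ - κ)) ^ k := by unfold b0; ring
      have h5 := abs_add_le (s * (ν * (ip (u t) (lap (P.X.F k)) + 4 * Real.pi ^ 2 * ((R : ℝ) ^ k) ^ 2 * P.co (u t) k)
        + cvt (u t) (P.X.F k))) e'
      rw [abs_mul, hs1, one_mul] at h5
      linarith
    have e6 : (fun s => ip (u s) (P.X.F k)) = fun s => P.co (u s) k := funext fun s => P.cs_eq (u s) k
    rw [e6] at hd
    have hd' := hd.const_mul s
    rw [inn_sgn hs1 (gG G ((R : ℝ) ^ σ)) (zz ((R : ℝ) ^ σ) ^ 16) (fun n t => P.co (u t) n) k t,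
      out_sgn hs1 (gG G ((R : ℝ) ^ σ)) (zz ((R : ℝ) ^ σ) ^ 16) (fun n t => P.co (u t) n) k t]
    rw [hKip hspv hFs] at hd'
    cases k with
    | zero =>
      have hk : ip (KQ (kT P) (u t) (u t)) (P.X.F 0)
          = -(gG G ((R : ℝ) ^ σ) 0 * (P.δ * P.co (u t) 0 + P.co (u t) 1) * P.co (u t) 1)
      + eP (gG G ((R : ℝ) ^ σ) 0) 0 P.δ (R : ℝ)⁻¹ R 0 (P.co (u t) 0) (P.co (u t) 1) 0 (qo P (u t) 0)
        (qo P (u t) 1) 0 (so P (u t) 0) (so P (u t) 1) := kT_co0 P hspv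
      refine ⟨_, hfin _ hEP.2, hd'.congr_deriv ?_⟩
      rw [hk]
      simp only [inn, out, FF]
      rw [hδ]
      simp only [zero_add]
      rw [← hδ]
      linear_combination (-(gG G ((R : ℝ) ^ σ) 0 * (P.δ * P.co (u t) 0 + P.co (u t) 1) * P.co (u t) 1)
      + eP (gG G ((R : ℝ) ^ σ) 0) 0 P.δ (R : ℝ)⁻¹ R 0 (P.co (u t) 0) (P.co (u t) 1) 0 (qo P (u t) 0)
        (qo P (u t) 1) 0 (so P (u t) 0) (so P (u t) 1)) * hss
    | succ m =>
      have hk : ip (KQ (kT P) (u t) (u t)) (P.X.F (m + 1))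
          = gG G ((R : ℝ) ^ σ) m * (P.δ * P.co (u t) m + P.co (u t) (m + 1)) * P.co (u t) m
      - gG G ((R : ℝ) ^ σ) (m + 1) * (P.δ * P.co (u t) (m + 1) + P.co (u t) (m + 2)) * P.co (u t) (m + 2)
      + eP (gG G ((R : ℝ) ^ σ) (m + 1)) (gG G ((R : ℝ) ^ σ) m) P.δ (R : ℝ)⁻¹ R (P.co (u t) m) (P.co (u t) (m + 1))
        (P.co (u t) (m + 2)) (qo P (u t) m) (qo P (u t) (m + 1)) (qo P (u t) (m + 2)) (so P (u t) m)
        (so P (u t) (m + 1)) (so P (u t) (m + 2)) := kT_co1 P hspv m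
      refine ⟨_, hfin _ (hEP.1 m), hd'.congr_deriv ?_⟩
      rw [hk]
      simp only [inn, out, FF]
      have e7 : m + 1 + 1 = m + 2 := rfl
      rw [← hδ, e7]
      linear_combination (gG G ((R : ℝ) ^ σ) m * (P.δ * P.co (u t) m + P.co (u t) (m + 1)) * P.co (u t) m
      - gG G ((R : ℝ) ^ σ) (m + 1) * (P.δ * P.co (u t) (m + 1) + P.co (u t) (m + 2)) * P.co (u t) (m + 2)
      + eP (gG G ((R : ℝ) ^ σ) (m + 1)) (gG G ((R : ℝ) ^ σ) m) P.δ (R : ℝ)⁻¹ R (P.co (u t) m) (P.co (u t) (m + 1))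
        (P.co (u t) (m + 2)) (qo P (u t) m) (qo P (u t) (m + 1)) (qo P (u t) (m + 2)) (so P (u t) m)
        (so P (u t) (m + 1)) (so P (u t) (m + 2))) * hss
  · intro T1 hT1
    obtain ⟨D, hD0, hD⟩ := hs.cs_dec P.X hw hT1 2
    refine ⟨D, fun k t ht => ?_⟩
    rw [le_div_iff₀ (by have := h.pc.R0; positivity), abs_mul, hs1, one_mul]
    have := hD t ht k
    rw [P.cs_eq] at this
    exact this
  · intro k
    exact hs.ip_cont (F := (qX P).F k) ((qX P).spv k)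
  · intro k t ht
    have hI : t ∈ Ico 0 T := ⟨ht.1.le, ht.2⟩
    have hspv := hs.spv hI
    have hFs := (qX P).spv k
    have hdF : ∀ x, dv ((qX P).F k) x = 0 := fun x => dv_fd ((qX P).RD k) (fun q => crl_Dv P.X P.wh.wd k q) x
    have hd := hs.ip_deriv hOk hFs hdF ht
    have hen := (hs.energy_le hOk hν hI).trans hE
    have e1 := qX_lap P hspv k
    have hRk : (0 : ℝ) < (R : ℝ) ^ k := pow_pos h.pc.R0 k
    have hwk := hw.pos k
    have e2 : ∀ x i j, |pd j (fun y => (qX P).F k y i) x| ≤ 3087 * ((R : ℝ) ^ k * wd (Lw R κ) k) := by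
      intro x i j
      have h1 : |pd j (fun y => (qX P).F k y i) x|
          ≤ 7 * ((3 * (2 * 3 + 1)) * (R : ℝ) ^ k) * ((3 * (2 * 3 + 1)) * wd (Lw R κ) k) :=
        (qX P).pd_le hw k x i j
      have : (0 : ℝ) ≤ (R : ℝ) ^ k * wd (Lw R κ) k := by positivity
      linarith
    have e5 := ns_err h hG hspv hFs hen hν k e1 e2
    refine ⟨_, e5.trans ?_, hd.congr_deriv ?_⟩
    · have h4 : 3 / 2 * (240 * ν * Real.sqrt E + 9261 * E) ≤ b0 ν G E := by
        unfold b0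
        have : 0 ≤ 24 * (G * E) := by positivity
        linarith
      have h5 : 0 ≤ ((R : ℝ) ^ (σ - κ)) ^ k := by positivity
      nlinarith
    · have hk : ip (KQ (kT P) (u t) (u t)) ((qX P).F k)
          = th P k * qi (gG G ((R : ℝ) ^ σ)) P.δ (R : ℝ)⁻¹ R (fun k s => P.co (u s) k) (fun k s => qo P (u s) k) k t :=
        kT_qo P hspv k
      rw [hKip hspv hFs, hk, hδ, qi_sgn]
      ring
  · intro T1 hT1
    obtain ⟨D, hD0, hD⟩ := hs.cs_dec (qX P) hw hT1 2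
    refine ⟨D, fun k t ht => ?_⟩
    rw [le_div_iff₀ (by have := h.pc.R0; positivity)]
    exact hD t ht k

end Pool.Agent.N980.WQ
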