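import Pool.Agent.N980.WP.Ex5

/-!
Global existence for small data.
-/

open MeasureTheory Set Filter Topology
open scoped ContDiff

set_option linter.unusedVariables false

namespace Pool.Agent.N980.WQ

open Pool.Agent.N980.NU
open Pool.Agent.N980.WP
open Pool.Agent.N980.CB (WB WB_zero Sm Sm_nonneg cc_w summ_of_w dint Duh_norm_le RV fe fe_le fe_WB dt_Duh fe_sym Duh_damp)
open Pool.Agent.H356R3.NS (K C3 E3 R3 ex SN Sym RD TT SF SFam Fam cf' at' nk pw fj dS Bf dt Duh Dom C0 SymF)

variable {R : ℕ} {ℓ : ℕ → ℝ} {ι : Type} [Fintype ι] (Tt : ι → Tr R ℓ) {c T ν : ℝ}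

/-- The constant of the quadratic operator, uniformly in time. -/
noncomputable def gu (c : ℝ) : ℝ := (C0 + KD Tt 3) / c

theorem gu_nonneg (w : Wd R ℓ) (hc : 0 < c) : 0 ≤ gu Tt c := by
  unfold gu
  have := H356R3.NS.C0_pos
  have := KD_nonneg Tt w 3
  positivity

theorem WQu (w : Wd R ℓ) (hc : 0 < c) (hT : 0 ≤ T) {x y : Fam} {M M' : ℝ} (hx : WB x M)
    (hy : WB y M') : WB (Qo Tt c T x y) (gu Tt c * M * M') := by
  have hcf := NN_cf Tt hx hy
  have hM := hx.M0
  have hM' := hy.M0
  have hxd := hx.dom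
  have hyd := hy.dom
  obtain ⟨hcx, b, b0, hb, h1, hu⟩ := hx
  obtain ⟨hcy, b', b0', hb', h1', hu'⟩ := hy
  have hC0 := H356R3.NS.C0_pos
  have hS := Sm_nonneg 3 b0
  have hS' := Sm_nonneg 3 b0'
  set kb : K → ℝ := KM Tt (Sm 3 b) b' with hkb
  have kb0 : ∀ k, 0 ≤ kb k := KM_nonneg Tt w hS b0'
  obtain ⟨k1, k2⟩ := KM_summ Tt w hS 3 b0' hb'
  obtain ⟨w1, w2⟩ := cc_w b0 b0' hb hb'
  have ccn := cc_nonneg b0 b0'
  refine ⟨fun k => ?_, fun k => 1 / c * (C0 * NU.cc b b' k) + 1 / c * kb k, fun k => ?_, ?_, ?_, ?_⟩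
  · exact (H356R3.NS.Duh_cont hcf c k).comp (by fun_prop : Continuous fun t : ℝ => min t T)
  · have := ccn k
    have := kb0 k
    positivity
  · have := ((w1.mul_left (1 / c * C0)).add (k1.mul_left (1 / c)))
    refine this.congr fun k => ?_
    rw [hkb]; ring
  · have e : Sm 3 (fun k => 1 / c * (C0 * NU.cc b b' k) + 1 / c * kb k)
        = 1 / c * C0 * Sm 3 (NU.cc b b') + 1 / c * Sm 3 kb := by
      unfold Sm
      rw [← tsum_mul_left, ← tsum_mul_left, ← (w1.mul_left _).tsum_add (k1.mul_left _)]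
      refine tsum_congr fun k => ?_
      rw [hkb]; ring
    rw [e]
    have hKD := KD_nonneg Tt w 3
    calc 1 / c * C0 * Sm 3 (NU.cc b b') + 1 / c * Sm 3 kb
        ≤ 1 / c * C0 * (Sm 3 b * Sm 3 b')
          + 1 / c * (KD Tt 3 * Sm 3 b * Sm 3 b') := by gcongr
      _ = gu Tt c * (Sm 3 b * Sm 3 b') := by unfold gu; ring
      _ ≤ gu Tt c * (M * M') := by
        have := gu_nonneg Tt w hc
        gcongr
      _ = _ := by ring
  · intro k t
    have hN : ∀ s, ‖NN Tt x y k s‖ ≤ C0 * nk k * NU.cc b b' k + kb k := by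
      intro s
      unfold NN
      have hxs : SN (at' x s) := hxd.sn s
      have hys : SN (at' y s) := hyd.sn s
      have e1 := norm_Bf_le hxs hys k
      have e2 := cc_mono (summ_of_w b0 hb) (summ_of_w b0' hb') (fun _ => norm_nonneg _) (fun _ => norm_nonneg _)
        (fun k => hu k s) (fun k => hu' k s) k
      have e3 := KT_le Tt w b0 hb (fun k => hu k s) (fun k => hu' k s) k
      have hn := H356R3.NS.nk_nonneg k
      calc ‖Bf (at' x s) (at' y s) k + KT Tt (at' x s) (at' y s) k‖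
          ≤ ‖Bf (at' x s) (at' y s) k‖ + ‖KT Tt (at' x s) (at' y s) k‖ := norm_add_le _ _
        _ ≤ C0 * nk k * NU.cc b b' k + kb k := by
          refine add_le_add (e1.trans ?_) e3
          exact mul_le_mul_of_nonneg_left e2 (mul_nonneg hC0.le hn)
    by_cases hk : k = 0
    · subst hk
      have e0 : NN Tt x y 0 = fun s => 0 := by
        funext s
        unfold NN
        rw [H356R3.NS.Bf_zero, KT_zero Tt w, add_zero]
      have e1 : Qo Tt c T x y 0 t = 0 := by
        unfold Qo H356R3.NS.Duh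
        simp [e0]
      rw [e1, norm_zero]
      have := ccn 0
      have := kb0 0
      positivity
    · have h3 := Duh_damp hc hcf hk hN (min t T)
      refine h3.trans ?_
      have hn := H356R3.NS.one_le_nk hk
      have hn0 : 0 < nk k := by linarith
      have h4 : C0 * nk k * NU.cc b b' k + kb k ≤ nk k ^ 2 * (C0 * NU.cc b b' k + kb k) := by
        have := kb0 k
        have := ccn k
        have h5 : nk k ≤ nk k ^ 2 := by nlinarith
        have h6 : 1 ≤ nk k ^ 2 := by nlinarith
        have h7 : C0 * nk k * NU.cc b b' k ≤ nk k ^ 2 * (C0 * NU.cc b b' k) := by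
          calc C0 * nk k * NU.cc b b' k = nk k * (C0 * NU.cc b b' k) := by ring
            _ ≤ nk k ^ 2 * (C0 * NU.cc b b' k) := by gcongr
        nlinarith
      calc (C0 * nk k * NU.cc b b' k + kb k) / (c * nk k ^ 2)
          ≤ nk k ^ 2 * (C0 * NU.cc b b' k + kb k) / (c * nk k ^ 2) := by gcongr
        _ = 1 / c * (C0 * NU.cc b b' k) + 1 / c * kb k := by field_simp

/-! ### the fixed point -/

theorem fixpu (w : Wd R ℓ) (hc : 0 < c) (hT : 0 ≤ T) {e : Fam} {M0 : ℝ} (he : WB e M0)
    (hγ : 8 * gu Tt c * M0 ≤ 1) : ∃ u : Fam, WB u (2 * M0) ∧ u = e + Qo Tt c T u u ∧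
      (∀ n, WB (itr Tt c T e n) (2 * M0)) ∧
      ∀ k t, Tendsto (fun n => itr Tt c T e n k t) atTop (𝓝 (u k t)) := by
  have hM0 := he.M0
  have hγ0 := gu_nonneg Tt w hc
  set γ := gu Tt c with hγd
  set U := itr Tt c T e with hU
  have hP : ∀ n, WB (U n) (2 * M0) := by
    intro n
    induction n with
    | zero => exact WB_zero.mono (by positivity)
    | succ n ih =>
      have h1 := he.add (WQu Tt w hc hT ih ih)
      refine h1.mono ?_
      nlinarith
  have hstep : ∀ n, U (n + 1 + 1) - U (n + 1) = Qo Tt c T (U (n + 1) - U n) (U (n + 1))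
      + Qo Tt c T (U n) (U (n + 1) - U n) := by
    intro n
    rw [← Qo_diff Tt (hP (n + 1)) (hP n)]
    show (e + Qo Tt c T (U (n + 1)) (U (n + 1))) - (e + Qo Tt c T (U n) (U n)) = _
    abel
  have hD : ∀ n, WB (U (n + 1) - U n) (M0 * (1 / 2) ^ n) := by
    intro n
    induction n with
    | zero =>
      have h1 : U (0 + 1) - U 0 = e + Qo Tt c T 0 0 := by
        show (e + Qo Tt c T 0 0) - 0 = _
        rw [sub_zero]
      have h2 := WQu Tt w hc hT WB_zero WB_zero
      rw [h1]
      have h3 := he.add h2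
      refine h3.mono ?_
      simp
    | succ n ih =>
      rw [hstep n]
      have h1 := (WQu Tt w hc hT ih (hP (n + 1))).add (WQu Tt w hc hT (hP n) ih)
      refine h1.mono ?_
      have hp : (0 : ℝ) < (1 / 2) ^ n := by positivity
      rw [← hγd, pow_succ]
      have h2 : (8 * γ * M0) * (M0 * (1 / 2) ^ n) ≤ 1 * (M0 * (1 / 2) ^ n) := by gcongr
      nlinarith
  have hgs : Summable fun n : ℕ => M0 * (1 / 2 : ℝ) ^ n :=
    (summable_geometric_of_lt_one (by norm_num) (by norm_num)).mul_left _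
  obtain ⟨hu, hus⟩ := WB.series hD hgs
  set u : Fam := fun k t => ∑' n, (U (n + 1) - U n) k t with hud
  have hsum2 : ∑' n : ℕ, M0 * (1 / 2 : ℝ) ^ n = 2 * M0 := by
    rw [tsum_mul_left, tsum_geometric_two]; ring
  rw [hsum2] at hu
  -- the remainders
  have hrem : ∀ N, WB (u - U N) (2 * M0 * (1 / 2) ^ N) := by
    intro N
    have hgs' : Summable fun n : ℕ => M0 * (1 / 2 : ℝ) ^ (n + N) := (summable_nat_add_iff N).2 hgs
    obtain ⟨hv, -⟩ := WB.series (d := fun n => U (n + N + 1) - U (n + N)) (fun n => hD (n + N)) hgs'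
    have e1 : (fun k t => ∑' n, (U (n + N + 1) - U (n + N)) k t) = u - U N := by
      funext k t
      have h1 := (hus k t).sum_add_tsum_nat_add N
      have h2 : ∑ i ∈ Finset.range N, (U (i + 1) - U i) k t = U N k t := by
        have := Finset.sum_range_sub (fun i => U i k t) N
        simp only [Pi.sub_apply]
        rw [this]
        show U N k t - (0 : Fam) k t = _
        simp
      rw [h2] at h1
      show _ = u k t - U N k t
      rw [hud]
      simp only
      rw [← h1]
      simp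
    have e2 : ∑' n : ℕ, M0 * (1 / 2 : ℝ) ^ (n + N) = 2 * M0 * (1 / 2) ^ N := by
      have : (fun n : ℕ => M0 * (1 / 2 : ℝ) ^ (n + N)) = fun n => (M0 * (1 / 2) ^ N) * (1 / 2) ^ n := by
        funext n; rw [pow_add]; ring
      rw [this, tsum_mul_left, tsum_geometric_two]; ring
    rw [e1, e2] at hv
    exact hv
  -- the equation
  have hall : ∀ N, WB (u - (e + Qo Tt c T u u)) (4 * M0 * (1 / 2) ^ N) := by
    intro N
    have e1 : u - (e + Qo Tt c T u u) = (u - U (N + 1)) - (Qo Tt c T u u - Qo Tt c T (U N) (U N)) := by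
      show _ = (u - (e + Qo Tt c T (U N) (U N))) - _
      abel
    rw [e1, Qo_diff Tt hu (hP N)]
    have h1 := (WQu Tt w hc hT (hrem N) hu).add (WQu Tt w hc hT (hP N) (hrem N))
    refine ((hrem (N + 1)).sub h1).mono ?_
    have hp : (0 : ℝ) < (1 / 2) ^ N := by positivity
    rw [← hγd, pow_succ]
    have h2 : (8 * γ * M0) * (M0 * (1 / 2) ^ N) ≤ 1 * (M0 * (1 / 2) ^ N) := by gcongr
    nlinarith
  have hz : u - (e + Qo Tt c T u u) = 0 := by
    funext k t
    have h1 : Tendsto (fun N : ℕ => 4 * M0 * (1 / 2 : ℝ) ^ N) atTop (𝓝 (4 * M0 * 0)) :=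
      (tendsto_pow_atTop_nhds_zero_of_lt_one (by norm_num) (by norm_num)).const_mul _
    rw [mul_zero] at h1
    exact norm_le_zero_iff.1 (ge_of_tendsto' h1 fun N => (hall N).le k t)
  refine ⟨u, hu, sub_eq_zero.1 hz, hP, fun k t => ?_⟩
  rw [tendsto_iff_norm_sub_tendsto_zero]
  have h1 : Tendsto (fun N : ℕ => 2 * M0 * (1 / 2 : ℝ) ^ N) atTop (𝓝 (2 * M0 * 0)) :=
    (tendsto_pow_atTop_nhds_zero_of_lt_one (by norm_num) (by norm_num)).const_mul _
  rw [mul_zero] at h1
  refine squeeze_zero (fun _ => norm_nonneg _) (fun N => ?_) h1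
  rw [norm_sub_rev]
  exact (hrem N).le k t

/-- Existence on the Fourier side. -/
theorem ksol_small (w : Wd R ℓ) (hc : 0 < c) {a : K → C3} (ha : RV a) (hs : Sym a)
    (hd : ∀ k, dt k (a k) = 0) (hγ : 8 * gu Tt c * (Sm 3 fun k => ‖a k‖) ≤ 1) (hT' : 0 < T) :
    ∃ u : Fam, KSol Tt c T a u := by
  set M0 := Sm 3 fun k => ‖a k‖ with hM0
  obtain ⟨u, hu, he, hit, hlim⟩ := fixpu Tt w hc hT'.le (fe_WB (T := T) hc ha) hγ
  -- the iterates
  set U := itr Tt c T (fe c T a) with hU
  have hsymU : ∀ n, SymF (U n) := by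
    intro n
    induction n with
    | zero => intro t k i; simp [hU, itr, at']
    | succ n ih =>
      intro t
      have h1 : SymF (Duh c (NN Tt (U n) (U n))) :=
        H356R3.NS.Duh_sym (NN_sym Tt ih) (NN_cf Tt (hit n) (hit n))
      have h2 := (fe_sym (c := c) (T := T) hs t).add (h1 (min t T))
      exact h2
  have hdivU : ∀ n k t, dt k (U n k t) = 0 := by
    intro n
    induction n with
    | zero => intro k t; simp [hU, itr, H356R3.NS.dt]
    | succ n ih =>
      intro k t
      show dt k (fe c T a k t + Qo Tt c T (U n) (U n) k t) = 0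
      rw [dt_add]
      have e1 : dt k (fe c T a k t) = 0 := by
        unfold fe
        rw [dt_smul, hd, mul_zero]
      have e2 : dt k (Qo Tt c T (U n) (U n) k t) = 0 := by
        unfold Qo
        refine dt_Duh (NN_cf Tt (hit n) (hit n)) (fun k s => ?_) k _
        unfold NN
        rw [dt_add, KT_dt, add_zero]
        exact H356R3.NS.Bf_div _ _ k
      rw [e1, e2, add_zero]
  have hcf := NN_cf Tt hu hu
  refine ⟨u, ?_, hu.1, ?_, ?_, ?_, ?_⟩
  · intro k
    have h1 : u k 0 = fe c T a k 0 + Qo Tt c T u u k 0 := congrFun (congrFun he k) 0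
    rw [h1]
    unfold fe Qo
    rw [min_eq_left hT'.le, H356R3.NS.Duh_at_zero]
    simp
  · intro m
    obtain ⟨b, b0, hb, hub⟩ := dom_all Tt w hc ha hu he m
    refine ⟨b, b0, ?_, hub⟩
    refine hb.of_nonneg_of_le (fun k => mul_nonneg (pow_pos (H356R3.NS.pw_pos k) m).le (b0 k)) fun k => ?_
    have : pw k ^ m ≤ pw k ^ (m + 3) := pow_le_pow_right₀ (H356R3.NS.one_le_pw k) (by omega)
    have := b0 k
    gcongr
  · intro k t ht
    have h1 : HasDerivAt (fun t => Real.exp (-(c * H356R3.NS.sq k * t)) • a k + Duh c (NN Tt u u) k t)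
        ((Real.exp (-(c * H356R3.NS.sq k * t)) * -(c * H356R3.NS.sq k)) • a k
          + (-(c * H356R3.NS.sq k) • Duh c (NN Tt u u) k t + NN Tt u u k t)) t := by
      have h2 : HasDerivAt (fun u => Real.exp (-(c * H356R3.NS.sq k * u)))
          (Real.exp (-(c * H356R3.NS.sq k * t)) * -(c * H356R3.NS.sq k)) t := by
        have : HasDerivAt (fun u : ℝ => -(c * H356R3.NS.sq k * u)) (-(c * H356R3.NS.sq k)) t := by
          simpa using ((hasDerivAt_id' t).const_mul (c * H356R3.NS.sq k)).fun_neg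
        exact this.exp
      exact (h2.smul_const (a k)).fun_add (H356R3.NS.Duh_hasDeriv hcf c k ht.1)
    have h3 : ∀ s ∈ Ioo 0 T, u k s = Real.exp (-(c * H356R3.NS.sq k * s)) • a k + Duh c (NN Tt u u) k s := by
      intro s hs
      have h4 : u k s = fe c T a k s + Qo Tt c T u u k s := congrFun (congrFun he k) s
      rw [h4]
      unfold fe Qo
      rw [min_eq_left hs.2.le, max_eq_left hs.1.le]
    have h5 : HasDerivAt (u k) ((Real.exp (-(c * H356R3.NS.sq k * t)) * -(c * H356R3.NS.sq k)) • a k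
          + (-(c * H356R3.NS.sq k) • Duh c (NN Tt u u) k t + NN Tt u u k t)) t := by
      refine h1.congr_of_eventuallyEq ?_
      filter_upwards [Ioo_mem_nhds ht.1 ht.2] with s hs
      exact h3 s hs
    refine h5.congr_deriv ?_
    unfold RK
    have e2 : at' u t k = u k t := rfl
    rw [e2, h3 t ht, H356R3.NS.nk_sq, smul_add, smul_smul, mul_comm (Real.exp _)]
    unfold NN
    abel
  · intro t k i
    have h1 : Tendsto (fun n => U n (-k) t i) atTop (𝓝 (u (-k) t i)) :=
      ((continuous_apply i).tendsto _).comp (hlim (-k) t)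
    have h2 : Tendsto (fun n => star (U n k t i)) atTop (𝓝 (star (u k t i))) :=
      (((continuous_apply i).star).tendsto _).comp (hlim k t)
    refine tendsto_nhds_unique h1 (h2.congr fun n => ?_)
    exact (hsymU n t k i).symm
  · intro k t
    have h1 : Tendsto (fun n => dt k (U n k t)) atTop (𝓝 (dt k (u k t))) := by
      have : Continuous (dt k) := by unfold H356R3.NS.dt; fun_prop
      exact (this.tendsto _).comp (hlim k t)
    have h2 : (fun n => dt k (U n k t)) = fun _ => 0 := funext fun n => hdivU n k t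
    rw [h2] at h1
    exact tendsto_nhds_unique h1 tendsto_const_nhds

variable {a : K → C3} {u : Fam}

/-- Global existence of smooth solutions for small data. -/
theorem small_existence (w : Wd R ℓ) (hν : 0 < ν) {v : V → V} (hv : SPV v)
    (hdv : ∀ x, dv v x = 0) (hsm : 8 * gu Tt (4 * Real.pi ^ 2 * ν) * (Sm 3 fun k => ‖NU.fco v k‖) ≤ 1) {T : ℝ}
    (hT : 0 < T) : ∃ (u : ℝ → V → V) (p : ℝ → V → ℝ), u 0 = v ∧ Sol ν (KQ Tt) T u p := by
  have ha : RV (NU.fco v) := by
    intro m
    have h1 : ∀ i, Summable fun k => pw k ^ m * ‖NU.fco v k i‖ := by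
      intro i
      obtain ⟨b, hb, h⟩ := hv.rd i m
      exact hb.of_nonneg_of_le (fun k => mul_nonneg (pow_pos (H356R3.NS.pw_pos k) m).le (norm_nonneg _))
        fun k => h k 0
    refine (summable_sum fun i (_ : i ∈ Finset.univ) => h1 i).of_nonneg_of_le
      (fun k => mul_nonneg (pow_pos (H356R3.NS.pw_pos k) m).le (norm_nonneg _)) fun k => ?_
    rw [← Finset.mul_sum]
    refine mul_le_mul_of_nonneg_left ?_ (pow_pos (H356R3.NS.pw_pos k) m).le
    rw [pi_norm_le_iff_of_nonneg (Finset.sum_nonneg fun _ _ => norm_nonneg _)]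
    intro i
    exact Finset.single_le_sum (f := fun i => ‖NU.fco v k i‖) (fun _ _ => norm_nonneg _) (Finset.mem_univ i)
  have hd : ∀ k, dt k (NU.fco v k) = 0 := by
    intro k
    have h1 : H459R3.NS.fr (fun x => dv v x) k = 0 := by
      have : (fun x => dv v x) = fun _ => 0 := funext hdv
      rw [this]
      unfold H459R3.NS.fr H459R3.NS.fc
      simp
    have h2 : H459R3.NS.fr (fun x => dv v x) k = ∑ j, fj k j * NU.fco v k j := by
      have h3 := fr_sum Finset.univ (f := fun j => pd j fun y => v y j) (fun j _ => sp_pd (hv.sp j) j) k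
      have h4 : (fun x => dv v x) = fun x => ∑ j, pd j (fun y => v y j) x := rfl
      rw [h4, h3]
      refine Finset.sum_congr rfl fun j _ => ?_
      exact fr_pd' hv j j k
    rw [h2] at h1
    unfold H356R3.NS.dt
    unfold fj at h1
    have h5 : 2 * Real.pi * Complex.I * ∑ j, (k j : ℂ) * NU.fco v k j = 0 := by
      rw [Finset.mul_sum, ← h1]
      exact Finset.sum_congr rfl fun j _ => by ring
    have h6 : (2 * (Real.pi : ℂ) * Complex.I) ≠ 0 := by
      simp [Real.pi_ne_zero]
    exact (mul_eq_zero.1 h5).resolve_left h6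
  obtain ⟨u, hu⟩ := ksol_small Tt w (by positivity : 0 < 4 * Real.pi ^ 2 * ν) ha (fco_sym v) hd hsm hT
  refine ⟨UU u, PP u, ?_, hu.smsol Tt w hT⟩
  funext x i
  show (fs (fun k => u k 0 i) x).re = v x i
  have e : (fun k => u k 0 i) = fun k => NU.fco v k i := by
    funext k; rw [hu.init]
  rw [e, ← hv.inv x i, Complex.ofReal_re]

end Pool.Agent.N980.WQ
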