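import Pool.Agent.N980.WQ.StageQ

/-!
One stage of the cascade: conclusion.
-/

open MeasureTheory Set Filter Topology

namespace Pool.Agent.N980.WQ

open Pool.Agent.N980.CB hiding StageIn Bd Flow

variable {Λ z : ℝ} {n : ℕ} {g d η ρ : ℕ → ℝ} {x : ℕ → ℝ → ℝ} {θ : ℕ → ℝ} {rq rr : ℝ} {y : ℕ → ℝ → ℝ}

theorem StageIn.yright (h : StageIn Λ z n g d η ρ x θ rq rr y) (k : ℕ) {t : ℝ} (ht : t ∈ Ico 0 5) :
    Tendsto (y k) (𝓝[>] t) (𝓝 (y k t)) := by
  refine (h.ycont k t ⟨ht.1, ht.2.le⟩).mono_left (nhdsWithin_le_iff.2 ?_)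
  exact Icc_mem_nhdsGT_of_mem ht

theorem StageIn.right (h : StageIn Λ z n g d η ρ x θ rq rr y) (k : ℕ) {t : ℝ} (ht : t ∈ Ico 0 5) :
    Tendsto (x k) (𝓝[>] t) (𝓝 (x k t)) := by
  refine (h.flow.cont k t ⟨ht.1, ht.2.le⟩).mono_left (nhdsWithin_le_iff.2 ?_)
  exact Icc_mem_nhdsGT_of_mem ht

/-- The bounds hold as long as the mode `n+2` is below the threshold. -/
theorem StageIn.all (h : StageIn Λ z n g d η ρ x θ rq rr y) {t1 : ℝ} (ht1 : t1 ∈ Icc 0 5)
    (hq : ∀ s ∈ Icc 0 t1, x (n + 2) s ≤ qq * x (n + 1) s) : ∀ s ∈ Icc 0 t1, Bd z n ρ x y s := by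
  have hP := h.par
  have hz := hP.hz
  have hqq := qq_pos
  have hq1 : qq ≤ 1 := by unfold qq; norm_num
  have hqs : qq = 1 / 5000 := rfl
  obtain ⟨J, hJ⟩ := h.tail
  obtain ⟨J', hJ'⟩ := h.ytail
  refine cont_method ?_ ?_ ?_
  · refine ⟨fun m hm => ?_, ?_, ?_, ?_, ?_, ?_, ?_, fun k => (h.y0 k).trans ((wq_le n k).trans (by norm_num))⟩
    · have h1 := h.xm m hm
      have : (0 : ℝ) < 10000 ^ (n - m) := by positivity
      linarith
    · rw [h.x0]; norm_num
    · rw [h.x0]; norm_num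
    · linarith [h.x1l]
    · have := h.x1u; rw [hqs] at this; linarith
    · have := h.x2l
      have : 0 < z ^ 16 * qq := by positivity
      linarith
    · intro j
      cases j with
      | zero =>
        have h1 := h.x3_init
        rw [YY_zero]
        have h2 := hP.zpow_le (show 11 ≤ 24 by norm_num)
        have h3 := hP.zpow_succ 10
        have h4 : (1 : ℝ) / 10 ^ 30 ≤ qq / 4 := by unfold qq; norm_num
        have h5 := pow_pos hz 10
        have h6 : z ^ 10 * (1 / 10 ^ 30) ≤ z ^ 10 * (qq / 4) := by gcongr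
        simp only [add_zero]
        linarith
      | succ i =>
        refine (h.xi (i + 1)).trans ?_
        unfold YY
        rw [if_neg (Nat.succ_ne_zero i)]
        have e1 : z ^ (24 + 14 * (i + 1)) ≤ z ^ (10 + 14 * (i + 1)) * qq / 2 := by
          have h1 : z ^ (24 + 14 * (i + 1)) ≤ z ^ (10 + 14 * (i + 1) + 1) := hP.zpow_le (by omega)
          have h2 := hP.zpow_succ (10 + 14 * (i + 1))
          have h3 : (1 : ℝ) / 10 ^ 30 ≤ qq / 2 := by unfold qq; norm_num
          have h4 := pow_pos hz (10 + 14 * (i + 1))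
          have h6 : z ^ (10 + 14 * (i + 1)) * (1 / 10 ^ 30) ≤ z ^ (10 + 14 * (i + 1)) * (qq / 2) := by gcongr
          linarith
        have e2 : ((1 : ℝ) / 2) ^ (i + 1 + 1) ≤ (1 / 2) ^ (i + 1) :=
          pow_le_pow_of_le_one (by norm_num) (by norm_num) (by omega)
        have e3 := h.ρp (n + 3 + (i + 1))
        have e4 : (1 + ((1 : ℝ) / 2) ^ (i + 1 + 1)) * ρ (n + 3 + (i + 1))
            ≤ (1 + (1 / 2) ^ (i + 1)) * ρ (n + 3 + (i + 1)) := by gcongr
        linarith
  · intro t ht hb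
    have ht0 : 0 < t := ht.1
    have hc : ∀ k, ContinuousOn (x k) (Icc 0 t) := fun k =>
      (h.flow.cont k).mono (Icc_subset_Icc le_rfl (ht.2.trans ht1.2))
    refine ⟨fun m hm => ?_, ?_, ?_, ?_, ?_, ?_, fun j => ?_, fun j => le_of_Ico (f := fun s => |y j s|) ht0
      ((h.ycont j).mono (Icc_subset_Icc le_rfl (ht.2.trans ht1.2))).abs fun s hs => (hb s hs).y j⟩
    · exact le_of_Ico (f := fun s => |x m s|) ht0 (hc m).abs fun s hs => (hb s hs).m m hm
    · have := le_of_Ico (f := fun s => -x n s) (C := -(9 / 10)) ht0 (hc n).neg fun s hs => by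
        linarith [(hb s hs).al]
      linarith
    · exact le_of_Ico ht0 (hc n) fun s hs => (hb s hs).au
    · have := le_of_Ico (f := fun s => -x (n + 1) s) (C := -(9 / 10 * qq)) ht0 (hc (n + 1)).neg
        fun s hs => by linarith [(hb s hs).bl]
      linarith
    · exact le_of_Ico ht0 (hc (n + 1)) fun s hs => (hb s hs).bu
    · have := le_of_Ico (f := fun s => -x (n + 2) s) (C := z ^ 16 * qq / 5) ht0 (hc (n + 2)).neg
        fun s hs => by linarith [(hb s hs).c]
      linarith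
    · exact le_of_Ico (f := fun s => |x (n + 3 + j) s|) ht0 (hc _).abs fun s hs => (hb s hs).f j
  · intro t ht hb
    have ht5 : t ∈ Icc 0 5 := ⟨ht.1, ht.2.le.trans ht1.2⟩
    have ht5' : t ∈ Ico 0 5 := ⟨ht.1, ht.2.trans_le ht1.2⟩
    have hbo : ∀ s ∈ Ioo 0 t, Bd z n ρ x y s := fun s hs => hb s ⟨hs.1.le, hs.2.le⟩
    have hqt : ∀ s ∈ Icc 0 t, x (n + 2) s ≤ qq * x (n + 1) s := fun s hs => hq s ⟨hs.1, hs.2.trans ht.2.le⟩
    have hqo : ∀ s ∈ Ioo 0 t, x (n + 2) s ≤ qq * x (n + 1) s := fun s hs => hqt s ⟨hs.1.le, hs.2.le⟩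
    have e1 : ∀ᶠ s in 𝓝[>] t, ∀ m ∈ Finset.range n, |x m s| ≤ 2 * 10000 ^ (n - m) := by
      rw [Filter.eventually_all_finset]
      intro m hm
      have h1 := h.m_le ht5 hbo (Finset.mem_range.1 hm)
      have h2 : (0 : ℝ) < 10000 ^ (n - m) := by positivity
      have h3 := (h.right m ht5').abs.eventually_lt_const (show |x m t| < 2 * 10000 ^ (n - m) by linarith)
      exact h3.mono fun s hs => hs.le
    have h2 := h.a_bd ht5 hbo
    have e2 := (h.right n ht5').eventually_const_lt (show (9 : ℝ) / 10 < x n t by linarith [h2.1])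
    have e3 := (h.right n ht5').eventually_lt_const (show x n t < (11 : ℝ) / 10 by linarith [h2.2])
    have e4 := (h.right (n + 1) ht5').eventually_const_lt (h.b_gt ht5 hb hqt)
    have e5 := (h.right (n + 1) ht5').eventually_lt_const (h.b_lt ht5 hbo hqo)
    have e6 := (h.right (n + 2) ht5').eventually_const_lt (show -(z ^ 16 * qq / 5) < x (n + 2) t by
      have := h.c_ge ht5 hbo hqo
      have : 0 < z ^ 16 * qq := by positivity
      linarith)
    have e7 : ∀ᶠ s in 𝓝[>] t, ∀ j ∈ Finset.range J, |x (n + 3 + j) s| ≤ YY z n ρ j := by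
      rw [Filter.eventually_all_finset]
      intro j _
      have h1 : |x (n + 3 + j) t| < YY z n ρ j := by
        cases j with
        | zero =>
          have := h.f0_bd ht5 hb hqt
          rw [YY_zero, abs_lt]
          have h2 := hP.zpow_le (show 11 ≤ 18 by norm_num)
          have h3 := hP.zpow_succ 10
          have h4 : (1 : ℝ) / 10 ^ 30 ≤ qq / 4 := by unfold qq; norm_num
          have h5 := pow_pos hz 10
          have h6 : z ^ 10 * (1 / 10 ^ 30) ≤ z ^ 10 * (qq / 4) := by gcongr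
          have h7 : 0 < z ^ 10 * qq := by positivity
          simp only [add_zero]
          constructor <;> linarith [this.1, this.2]
        | succ i => exact h.fj_bd ht5 hbo i
      have h3 := (h.right (n + 3 + j) ht5').abs.eventually_lt_const h1
      exact h3.mono fun s hs => hs.le
    have e8 : ∀ᶠ s in 𝓝[>] t, s ∈ Icc (0 : ℝ) 5 := Icc_mem_nhdsGT_of_mem ht5'
    have e9 : ∀ᶠ s in 𝓝[>] t, ∀ j ∈ Finset.range J', |y j s| ≤ 2 := by
      rw [Filter.eventually_all_finset]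
      intro j _
      have h1 := h.y_bd ht5 hbo hqo j
      have h2 := wq_le (n + 1) j
      have h3 := (h.yright j ht5').abs.eventually_lt_const (show |y j t| < 2 by linarith)
      exact h3.mono fun s hs => hs.le
    filter_upwards [e1, e2, e3, e4, e5, e6, e7, e8, e9] with s s1 s2 s3 s4 s5 s6 s7 s8 s9
    refine ⟨fun m hm => s1 m (Finset.mem_range.2 hm), s2.le, s3.le, s4.le, s5.le, s6.le, fun j => ?_, fun j => ?_⟩
    rotate_left
    · by_cases hj : j < J'
      · exact s9 j (Finset.mem_range.2 hj)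
      · exact hJ' j (by omega) s s8
    by_cases hj : j < J
    · exact s7 j (Finset.mem_range.2 hj)
    · have h1 := hJ (n + 3 + j) (by omega) s s8
      refine h1.trans ?_
      cases j with
      | zero =>
        rw [YY_zero]
        have h2 := h.ρ3
        have h3 := hP.zpow_le (show 11 ≤ 40 by norm_num)
        have h4 := hP.zpow_succ 10
        have h5 : (1 : ℝ) / 10 ^ 30 ≤ qq / 4 := by unfold qq; norm_num
        have h6 := pow_pos hz 10
        have h7 : z ^ 10 * (1 / 10 ^ 30) ≤ z ^ 10 * (qq / 4) := by gcongr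
        have h8 : 0 < z ^ 10 * qq := by positivity
        simp only [add_zero]
        linarith
      | succ i =>
        unfold YY
        rw [if_neg (Nat.succ_ne_zero i)]
        have h2 := h.ρp (n + 3 + (i + 1))
        have h3 : 0 < z ^ (10 + 14 * (i + 1)) * qq / 2 := by positivity
        have h4 : 0 < ((1 : ℝ) / 2) ^ (i + 1) * ρ (n + 3 + (i + 1)) := by positivity
        linarith

/-- The mode `n+2` reaches the threshold. -/
theorem StageIn.trigger (h : StageIn Λ z n g d η ρ x θ rq rr y) :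
    ∃ t ∈ Icc (0 : ℝ) 5, qq * x (n + 1) t ≤ x (n + 2) t := by
  by_contra hcon
  push Not at hcon
  have hP := h.par
  have hz := hP.hz
  have hΛ := hP.hΛ0
  have hqq := qq_pos
  have h5 : (5 : ℝ) ∈ Icc 0 5 := ⟨by norm_num, le_rfl⟩
  have hq : ∀ s ∈ Icc (0 : ℝ) 5, x (n + 2) s ≤ qq * x (n + 1) s := fun s hs => (hcon s hs).le
  have hb := h.all h5 hq
  set r := Λ * (441 / 500 * qq) with hr
  have hr0 : 0 < r := by positivity
  have key := mono_of (f := fun s => (x (n + 2) s + z ^ 16 * qq / 5) * Real.exp (-(r * s))) (a := 0) (b := 5)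
    (by
      have := h.flow.cont (n + 2)
      fun_prop) (fun s hs => ?_) 5 h5
  · rw [mul_zero, neg_zero, Real.exp_zero, mul_one] at key
    have h1 : z ^ 16 * qq / 10 ≤ x (n + 2) 0 + z ^ 16 * qq / 5 := by
      have := h.x2l; linarith
    have h2 : x (n + 2) 5 + z ^ 16 * qq / 5 < qq / 5 := by
      have h3 := hcon 5 h5
      have h4 := (hb 5 h5).bu
      have h5' := hP.q1 15
      have h6 : qq ^ 3 / 10 ^ 6 ≤ 1 / 1000 := by unfold qq; norm_num
      nlinarith
    have h3 : Real.exp (r * 5) * z ^ 16 ≥ 2 := by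
      have : r * 5 = Λ * (441 / 100 * qq) := by rw [hr]; ring
      rw [this]; exact hP.he2
    have h4 : z ^ 16 * qq / 10 ≤ (x (n + 2) 5 + z ^ 16 * qq / 5) * Real.exp (-(r * 5)) := h1.trans key
    have h6 := mul_le_mul_of_nonneg_right h4 (Real.exp_pos (r * 5)).le
    rw [mul_assoc (x (n + 2) 5 + z ^ 16 * qq / 5), ← Real.exp_add, neg_add_cancel, Real.exp_zero, mul_one] at h6
    have h7 : z ^ 16 * qq / 10 * Real.exp (r * 5) = Real.exp (r * 5) * z ^ 16 * (qq / 10) := by ring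
    rw [h7] at h6
    have h8 : 2 * (qq / 10) ≤ Real.exp (r * 5) * z ^ 16 * (qq / 10) := by gcongr
    linarith
  · have hsI : s ∈ Icc (0 : ℝ) 5 := ⟨hs.1.le, hs.2.le⟩
    obtain ⟨f', hf, hf'⟩ := h.dc hs (hb s hsI) (hq s hsI)
    have h1 : HasDerivAt (fun s => Real.exp (-(r * s))) (Real.exp (-(r * s)) * (-r)) s := by
      have h2 : HasDerivAt (fun s => -(r * s)) (-r) s := by
        have := ((hasDerivAt_id' s).const_mul r).fun_neg
        rwa [mul_one] at this
      exact h2.exp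
    refine ⟨_, (hf.add_const (z ^ 16 * qq / 5)).mul h1, ?_⟩
    have h2 := (hb s hsI).c
    have h3 := (hb s hsI).bl
    have h4 : 0 ≤ x (n + 2) s + z ^ 16 * qq / 5 := by linarith
    have h6 : r * (x (n + 2) s + z ^ 16 * qq / 5) ≤ f' := by
      refine le_trans ?_ hf'
      refine mul_le_mul_of_nonneg_right ?_ h4
      rw [hr]
      have h7 : 98 / 100 * Λ * (9 / 10 * qq) ≤ 98 / 100 * Λ * x (n + 1) s := by gcongr
      linarith
    have h7 := Real.exp_pos (-(r * s))
    nlinarith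

/-- One stage of the cascade. -/
theorem StageIn.stage (h : StageIn Λ z n g d η ρ x θ rq rr y) : ∃ t ∈ Ioc (0 : ℝ) 5,
    9 / 10 * qq ≤ x (n + 1) t ∧ x (n + 1) t ≤ 1 / 10 ∧ x (n + 2) t = qq * x (n + 1) t ∧
    -(z ^ 16 * qq / 10) * x (n + 1) t ≤ x (n + 3) t ∧ x (n + 3) t ≤ z ^ 10 * x (n + 1) t ∧
    (∀ j, |x (n + 4 + j) t| ≤ z ^ (24 + 14 * j) * x (n + 1) t + (1 + (1 / 2) ^ (j + 1)) * ρ (n + 4 + j)) ∧
    (∀ m ≤ n, |x m t| ≤ 10000 ^ (n + 1 - m) * x (n + 1) t) ∧ ∀ k, |y k t| ≤ wq (n + 1) k := by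
  have hP := h.par
  have hz := hP.hz
  have hqq := qq_pos
  have hqs : qq = 1 / 5000 := rfl
  set S := {t ∈ Icc (0 : ℝ) 5 | qq * x (n + 1) t ≤ x (n + 2) t} with hS
  have hSc : IsCompact S := by
    have hc : ContinuousOn (fun t => qq * x (n + 1) t - x (n + 2) t) (Icc 0 5) :=
      (continuousOn_const.mul (h.flow.cont _)).sub (h.flow.cont _)
    have : S = Icc (0 : ℝ) 5 ∩ (fun t => qq * x (n + 1) t - x (n + 2) t) ⁻¹' Iic 0 := by
      ext t
      simp only [hS, mem_setOf_eq, mem_inter_iff, mem_preimage, mem_Iic, sub_nonpos]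
    rw [this]
    exact isCompact_Icc.of_isClosed_subset (hc.preimage_isClosed_of_isClosed isClosed_Icc isClosed_Iic)
      inter_subset_left
  obtain ⟨t0, ht0, ht0'⟩ := h.trigger
  obtain ⟨t, htS, hmin⟩ := hSc.exists_isLeast ⟨t0, ht0, ht0'⟩
  have ht5 : t ∈ Icc (0 : ℝ) 5 := htS.1
  have hlt : ∀ s ∈ Ico 0 t, x (n + 2) s < qq * x (n + 1) s := by
    intro s hs
    by_contra hn
    push Not at hn
    exact absurd (hmin ⟨⟨hs.1, hs.2.le.trans ht5.2⟩, hn⟩) (not_le.2 hs.2)
  have h00 : x (n + 2) 0 < qq * x (n + 1) 0 := by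
    have h1 := h.x2u
    have h2 := h.x1l
    have h3 := hP.q1 9
    have h4 : qq ^ 3 / 10 ^ 6 < qq * (19 / 20 * qq) := by unfold qq; norm_num
    have h5 : qq * (19 / 20 * qq) ≤ qq * x (n + 1) 0 := by gcongr
    linarith
  have ht0 : 0 < t := by
    rcases ht5.1.eq_or_lt with h1 | h1
    · exact absurd htS.2 (by rw [← h1]; exact not_le.2 h00)
    · exact h1
  have hqt : x (n + 2) t ≤ qq * x (n + 1) t := by
    have := le_of_Ico (f := fun s => x (n + 2) s - qq * x (n + 1) s) (C := 0) ht0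
      (((h.flow.cont _).sub (continuousOn_const.mul (h.flow.cont _))).mono (Icc_subset_Icc le_rfl ht5.2))
      fun s hs => by linarith [hlt s hs]
    linarith
  have hq : ∀ s ∈ Icc 0 t, x (n + 2) s ≤ qq * x (n + 1) s := by
    intro s hs
    rcases hs.2.eq_or_lt with h1 | h1
    · rw [h1]; exact hqt
    · exact (hlt s ⟨hs.1, h1⟩).le
  have hb := h.all ht5 hq
  have hbo : ∀ s ∈ Ioo 0 t, Bd z n ρ x y s := fun s hs => hb s ⟨hs.1.le, hs.2.le⟩
  have hbt := hb t ⟨ht0.le, le_rfl⟩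
  have hx1 := hbt.bl
  have hx1p : 0 < x (n + 1) t := by nlinarith
  refine ⟨t, ⟨ht0, ht5.2⟩, hx1, hbt.bu, le_antisymm hqt htS.2, ?_, ?_, ?_, ?_,
    fun k => h.y_bd ht5 hbo (fun s hs => hq s ⟨hs.1.le, hs.2.le⟩) k⟩
  · have h1 := (h.f0_bd ht5 hb hq).1
    have h2 : z ^ 18 ≤ z ^ 16 * qq / 10 * x (n + 1) t := by
      have h3 := (hP.zpow_le (show 17 ≤ 18 by norm_num)).trans (hP.zpow_succ 16)
      have h4 : (1 : ℝ) / 10 ^ 30 ≤ qq / 10 * (9 / 10 * qq) := by unfold qq; norm_num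
      have h5 := pow_pos hz 16
      calc z ^ 18 ≤ z ^ 16 * (1 / 10 ^ 30) := h3
        _ ≤ z ^ 16 * (qq / 10 * (9 / 10 * qq)) := by gcongr
        _ ≤ z ^ 16 * (qq / 10 * x (n + 1) t) := by gcongr
        _ = z ^ 16 * qq / 10 * x (n + 1) t := by ring
    linarith
  · have h1 := (h.f0_bd ht5 hb hq).2
    have h5 := pow_pos hz 10
    have h6 : z ^ 10 * (qq / 4) ≤ z ^ 10 * x (n + 1) t := by gcongr; linarith
    linarith
  · intro j
    have h1 := hbt.f (j + 1)
    have e : n + 3 + (j + 1) = n + 4 + j := by omega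
    unfold YY at h1
    rw [if_neg (Nat.succ_ne_zero j), e] at h1
    have e2 : 10 + 14 * (j + 1) = 24 + 14 * j := by ring
    rw [e2] at h1
    have h5 := pow_pos hz (24 + 14 * j)
    have h6 : z ^ (24 + 14 * j) * (qq / 2) ≤ z ^ (24 + 14 * j) * x (n + 1) t := by gcongr; linarith
    linarith
  · intro m hm
    rcases hm.lt_or_eq with h1 | h1
    · have h2 := h.m_le ht5 hbo h1
      have h3 : (10000 : ℝ) ^ (n + 1 - m) = 10000 ^ (n - m) * 10000 := by
        have : n + 1 - m = (n - m) + 1 := by omega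
        rw [this, pow_succ]
      have h4 : (0 : ℝ) < 10000 ^ (n - m) := by positivity
      have h5 : (3 : ℝ) / 2 ≤ 10000 * x (n + 1) t := by rw [hqs] at hx1; linarith
      rw [h3]
      calc |x m t| ≤ 3 / 2 * 10000 ^ (n - m) := h2
        _ ≤ (10000 * x (n + 1) t) * 10000 ^ (n - m) := by gcongr
        _ = 10000 ^ (n - m) * 10000 * x (n + 1) t := by ring
    · subst h1
      have h2 := h.a_bd ht5 hbo
      have h3 : m + 1 - m = 1 := by omega
      rw [h3, pow_one, abs_of_pos (by linarith [h2.1])]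
      rw [hqs] at hx1
      linarith [h2.2]

end Pool.Agent.N980.WQ
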