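import Pool.Agent.N980.WQ.Stage4

/-!
One stage of the cascade: the second family of modes.
-/

open MeasureTheory Set Filter Topology

set_option linter.unusedVariables false

namespace Pool.Agent.N980.WQ

open Pool.Agent.N980.CB hiding StageIn Bd Flow

variable {Λ z : ℝ} {n : ℕ} {g d η ρ : ℕ → ℝ} {x : ℕ → ℝ → ℝ} {θ : ℕ → ℝ} {rq rr : ℝ} {y : ℕ → ℝ → ℝ}

theorem wq_ge (n k : ℕ) : 1 ≤ wq n k := by
  unfold wq
  split_ifs
  · have : (0 : ℝ) < (1 / 2) ^ (k - n) := by positivity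
    linarith
  · have : ((1 : ℝ) / 2) ^ (n - k) ≤ 1 := pow_le_one₀ (by norm_num) (by norm_num)
    linarith

theorem wq_le (n k : ℕ) : wq n k ≤ 5 / 4 := by
  unfold wq
  split_ifs
  · have : ((1 : ℝ) / 2) ^ (k - n) ≤ 1 := pow_le_one₀ (by norm_num) (by norm_num)
    linarith
  · have : (0 : ℝ) < (1 / 2) ^ (n - k) := by positivity
    linarith

theorem wq_up {n k : ℕ} (h : n + 1 ≤ k) : wq (n + 1) k = wq n k + (1 / 2) ^ (k - n) / 8 := by
  unfold wq
  rw [if_pos h, if_pos (by omega : n ≤ k)]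
  obtain ⟨j, rfl⟩ := Nat.exists_eq_add_of_le h
  have e1 : n + 1 + j - (n + 1) = j := by omega
  have e2 : n + 1 + j - n = j + 1 := by omega
  rw [e1, e2, pow_succ]
  ring

theorem wq_low {n k : ℕ} (h : k ≤ n) : wq n k + (1 / 2) ^ (n - k) / 16 ≤ wq (n + 1) k := by
  unfold wq
  rw [if_neg (by omega : ¬n + 1 ≤ k)]
  rcases h.lt_or_eq with h1 | h1
  · rw [if_neg (by omega : ¬n ≤ k)]
    have e : n + 1 - k = (n - k) + 1 := by omega
    rw [e, pow_succ]
    linarith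
  · subst h1
    rw [if_pos le_rfl, Nat.sub_self]
    have e : k + 1 - k = 1 := by omega
    rw [e]
    norm_num

/-- The bound of one mode of the second family. -/
theorem StageIn.y_step (h : StageIn Λ z n g d η ρ x θ rq rr y) {t : ℝ} (ht : t ∈ Icc 0 5) {k : ℕ} {c : ℝ}
    (hc : 0 ≤ c) (hH : ∀ s ∈ Ioo 0 t, ∀ ς : ℝ, (ς = 1 ∨ ς = -1) → 1 < ς * y k s →
      θ k * (ς * qi g (z ^ 16) rq rr x y k s) ≤ c + 7 / 8 * d k * (ς * y k s)) : |y k t| ≤ wq n k + 5 * c := by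
  have hsub : Icc 0 t ⊆ Icc 0 5 := Icc_subset_Icc le_rfl ht.2
  have h0 := abs_le.1 (h.y0 k)
  have hw := wq_ge n k
  have hup : ∀ ς : ℝ, (ς = 1 ∨ ς = -1) → ς * y k t ≤ wq n k + c * (t - 0) := by
    intro ς hς
    refine lin_le (f := fun s => ς * y k s) (M := 1) (continuousOn_const.mul ((h.ycont k).mono hsub)) ?_
      zero_le_one hw hc (fun s hs hpos => ?_) t ⟨ht.1, le_rfl⟩
    · rcases hς with h | h
      · rw [h]; linarith [h0.2]
      · rw [h]; linarith [h0.1]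
    · obtain ⟨e, he, hd⟩ := h.yode k s ⟨hs.1, hs.2.trans_le ht.2⟩
      refine ⟨_, hd.const_mul ς, ?_⟩
      have h1 := hH s hs ς hς hpos
      have h2 : ς * e ≤ d k / 8 := by
        have h3 : |ς * e| ≤ d k / 8 := by
          rw [abs_mul]
          rcases hς with h | h <;> rw [h] <;> simpa using he
        exact (le_abs_self _).trans h3
      have h4 : d k / 8 ≤ d k / 8 * (ς * y k s) := by
        have := h.dpos k
        exact le_mul_of_one_le_right (by positivity) hpos.le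
      have e1 : ς * (-(d k * y k s) + θ k * qi g (z ^ 16) rq rr x y k s + e)
          = -(d k * (ς * y k s)) + θ k * (ς * qi g (z ^ 16) rq rr x y k s) + ς * e := by ring
      rw [e1]
      linarith
  have h1 := hup 1 (Or.inl rfl)
  have h2 := hup (-1) (Or.inr rfl)
  have h3 : c * (t - 0) ≤ 5 * c := by
    have := ht.2
    nlinarith
  rw [abs_le]
  constructor <;> linarith

theorem StageIn.gA (h : StageIn Λ z n g d η ρ x θ rq rr y) {k : ℕ} (hk : k ≤ n) :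
    g k * 10000 ^ (n - k) ≤ (1 / 2) ^ (n - k) := by
  have h1 := h.gm hk
  have hΛ := h.par.hΛ
  have hg := h.gpos k
  have h2 : ((10000 : ℝ) ^ (n - k)) * 2 ^ (n - k) ≤ Λ ^ (n - k) := by
    rw [← mul_pow]
    exact pow_le_pow_left₀ (by norm_num) (by linarith [show (20000:ℝ) ≤ 10 ^ 14 by norm_num]) _
  rw [one_div, inv_pow, ← one_div, le_div_iff₀ (by positivity)]
  calc g k * 10000 ^ (n - k) * 2 ^ (n - k) = g k * ((10000 : ℝ) ^ (n - k) * 2 ^ (n - k)) := by ring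
    _ ≤ g k * Λ ^ (n - k) := by gcongr
    _ = 1 := h1

theorem abs2 {a b A B : ℝ} (ha : |a| ≤ A) (hb : |b| ≤ B) : |a * b| ≤ A * B := by
  rw [abs_mul]
  exact mul_le_mul ha hb (abs_nonneg _) ((abs_nonneg _).trans ha)

/-- The low modes of the second family. -/
theorem StageIn.y_low (h : StageIn Λ z n g d η ρ x θ rq rr y) {t : ℝ} (ht : t ∈ Icc 0 5)
    (hb : ∀ s ∈ Ioo 0 t, Bd z n ρ x y s) {k : ℕ} (hk : k ≤ n) : |y k t| ≤ wq (n + 1) k := by
  have hP := h.par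
  have hz := hP.hz
  have hΛ := hP.hΛ0
  have hΛ1 := hP.hΛ1
  have hΛ14 := hP.hΛ
  have hg := h.gpos k
  have hz16 := pow_pos hz 16
  have hrq0 := h.rq0
  have hrq1 := h.rq1
  have hrr0 := h.rr0
  have hrr1 := h.rr1
  set A : ℝ := 10000 ^ (n - k) with hA
  have hA1 : 1 ≤ A := one_le_pow₀ (by norm_num)
  have hgA := h.gA hk
  rw [← hA] at hgA
  set w : ℝ := (1 / 2) ^ (n - k) with hw
  have hw0 : 0 < w := by positivity
  have hδΛ : z ^ 16 * Λ ≤ 1 / 10 ^ 30 := by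
    have h1 := hP.zpow_mul 15 (m := 1) (by norm_num)
    have h2 : z ^ 15 ≤ 1 := pow_le_one₀ hz.le hP.z1
    rw [pow_one] at h1
    nlinarith
  have hx : ∀ s ∈ Ioo 0 t, |x k s| ≤ 2 * A := fun s hs => (hb s hs).low hk
  have hx1 : ∀ s ∈ Ioo 0 t, |x (k + 1) s| ≤ 2 * A := by
    intro s hs
    rcases hk.lt_or_eq with h1 | h1
    · refine ((hb s hs).low (by omega)).trans ?_
      rw [hA]
      gcongr
      · norm_num
      · omega
    · subst h1
      have h2 := (hb s hs).bl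
      have h3 := (hb s hs).bu
      have := qq_pos
      rw [abs_of_pos (by nlinarith)]
      linarith
  -- the part with δ
  have hB : ∀ s ∈ Ioo 0 t, |z ^ 16 * g k * (x (k + 1) s * y k s - rr * (x k s * y (k + 1) s))| ≤ 8 / 10 ^ 30 * w := by
    intro s hs
    have y0 := (hb s hs).y k
    have y1 := (hb s hs).y (k + 1)
    have h1 : |x (k + 1) s * y k s - rr * (x k s * y (k + 1) s)| ≤ 8 * Λ * A := by
      have a1 := abs2 (hx1 s hs) y0
      have a2 := abs2 (show |rr| ≤ Λ by rw [abs_of_nonneg hrr0]; exact hrr1) (abs2 (hx s hs) y1)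
      have a3 := abs_sub (x (k + 1) s * y k s) (rr * (x k s * y (k + 1) s))
      have a4 : 2 * A * 2 ≤ 4 * Λ * A := by nlinarith
      linarith
    rw [abs_mul, abs_of_pos (by positivity)]
    calc z ^ 16 * g k * |x (k + 1) s * y k s - rr * (x k s * y (k + 1) s)| ≤ z ^ 16 * g k * (8 * Λ * A) := by gcongr
      _ = 8 * (z ^ 16 * Λ) * (g k * A) := by ring
      _ ≤ 8 * (1 / 10 ^ 30) * w := by gcongr
      _ = 8 / 10 ^ 30 * w := by ring
  have hq : ∀ s ∈ Ioo 0 t, |qi g (z ^ 16) rq rr x y k s| ≤ 1 / 10 ^ 8 * w := by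
    intro s hs
    have hB' := hB s hs
    cases k with
    | zero =>
      show |z ^ 16 * g 0 * (x 1 s * y 0 s - rr * (x 0 s * y 1 s))| ≤ _
      refine hB'.trans ?_
      nlinarith
    | succ m =>
      have y0 := (hb s hs).y m
      have y1 := (hb s hs).y (m + 1)
      have hgm : g m * 10 ^ 14 ≤ g (m + 1) := by
        rw [h.gs, mul_comm]
        exact mul_le_mul_of_nonneg_right hΛ14 (h.gpos m).le
      have hxm : |x m s| ≤ 2 * (10000 * A) := by
        refine ((hb s hs).low (by omega)).trans (le_of_eq ?_)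
        have e : n - m = (n - (m + 1)) + 1 := by omega
        rw [hA, e, pow_succ]
        ring
      have h1 : |g m * (rq * (x (m + 1) s * y m s) - x m s * y (m + 1) s)| ≤ 1 / 10 ^ 9 * w := by
        have a1 := abs2 (show |rq| ≤ 1 by rw [abs_of_nonneg hrq0]; exact hrq1) (abs2 (hx s hs) y0)
        have a2 := abs2 hxm y1
        have a3 := abs_sub (rq * (x (m + 1) s * y m s)) (x m s * y (m + 1) s)
        have a4 : |rq * (x (m + 1) s * y m s) - x m s * y (m + 1) s| ≤ 10 ^ 5 * A := by linarith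
        rw [abs_mul, abs_of_pos (h.gpos m)]
        have a5 := h.gpos m
        calc g m * |rq * (x (m + 1) s * y m s) - x m s * y (m + 1) s| ≤ g m * (10 ^ 5 * A) := by gcongr
          _ = 1 / 10 ^ 9 * (g m * 10 ^ 14 * A) := by ring
          _ ≤ 1 / 10 ^ 9 * (g (m + 1) * A) := by gcongr
          _ ≤ 1 / 10 ^ 9 * w := by gcongr
      have h2 := hB'
      have e : qi g (z ^ 16) rq rr x y (m + 1) s = g m * (rq * (x (m + 1) s * y m s) - x m s * y (m + 1) s)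
        + z ^ 16 * g (m + 1) * (x (m + 1 + 1) s * y (m + 1) s - rr * (x (m + 1) s * y (m + 1 + 1) s)) := rfl
      rw [e]
      refine (abs_add_le _ _).trans ?_
      nlinarith
  have key := h.y_step ht (k := k) (c := 3 / 10 ^ 8 * w) (by positivity) (fun s hs ς hς hpos => ?_)
  · have := wq_low hk
    rw [← hw] at this
    nlinarith
  · have h1 := hq s hs
    have h2 : ς * qi g (z ^ 16) rq rr x y k s ≤ 1 / 10 ^ 8 * w := by
      refine (le_abs_self _).trans ?_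
      rw [abs_mul]
      rcases hς with h | h <;> rw [h] <;> simpa using h1
    have h3 : θ k * (ς * qi g (z ^ 16) rq rr x y k s) ≤ 3 * (1 / 10 ^ 8 * w) := by
      have := (h.θ0 k).le
      have := h.θ1 k
      calc θ k * (ς * qi g (z ^ 16) rq rr x y k s) ≤ θ k * (1 / 10 ^ 8 * w) := by gcongr
        _ ≤ 3 * (1 / 10 ^ 8 * w) := by gcongr
    have h4 : 0 ≤ 7 / 8 * d k * (ς * y k s) := by
      have := h.dpos k
      have : 0 < ς * y k s := by linarith
      positivity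
    nlinarith

theorem nonpos_of {θ a : ℝ} (h : 0 < θ) (ha : a ≤ 0) : θ * a ≤ 0 := mul_nonpos_of_nonneg_of_nonpos h.le ha

theorem sgn_le {ς a A : ℝ} (hς : ς = 1 ∨ ς = -1) (ha : |a| ≤ A) : ς * a ≤ A ∧ -A ≤ ς * a := by
  have := abs_le.1 ha
  rcases hς with h | h <;> rw [h] <;> constructor <;> linarith

/-- The mode `n+1` of the second family. -/
theorem StageIn.y1 (h : StageIn Λ z n g d η ρ x θ rq rr y) {t : ℝ} (ht : t ∈ Icc 0 5)
    (hb : ∀ s ∈ Ioo 0 t, Bd z n ρ x y s) (hq : ∀ s ∈ Ioo 0 t, x (n + 2) s ≤ qq * x (n + 1) s) :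
    |y (n + 1) t| ≤ wq (n + 1) (n + 1) := by
  have hP := h.par
  have hz := hP.hz
  have hΛ := hP.hΛ0
  have hΛ1 := hP.hΛ1
  have hqq := qq_pos
  have hqs : qq = 1 / 5000 := rfl
  have hz16 := pow_pos hz 16
  have hδΛ : z ^ 16 * Λ ^ 2 ≤ 1 / 10 ^ 30 := by
    have h1 := hP.zpow_mul 15 (m := 2) (by norm_num)
    have h2 : z ^ 15 ≤ 1 := pow_le_one₀ hz.le hP.z1
    nlinarith
  have key := h.y_step ht (k := n + 1) (c := 0) le_rfl (fun s hs ς hς hpos => ?_)
  · rw [wq_up le_rfl]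
    have : (0 : ℝ) < (1 / 2) ^ (n + 1 - n) / 8 := by positivity
    linarith
  · have hbs := hb s hs
    have e : ς * qi g (z ^ 16) rq rr x y (n + 1) s
        = rq * (x (n + 1) s * (ς * y n s)) - x n s * (ς * y (n + 1) s)
          + z ^ 16 * Λ * (x (n + 2) s * (ς * y (n + 1) s) - rr * (x (n + 1) s * (ς * y (n + 2) s))) := by
      have e1 : qi g (z ^ 16) rq rr x y (n + 1) s = g n * (rq * (x (n + 1) s * y n s) - x n s * y (n + 1) s)
        + z ^ 16 * g (n + 1) * (x (n + 2) s * y (n + 1) s - rr * (x (n + 1) s * y (n + 2) s)) := rfl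
      rw [e1, h.g0, h.g1]
      ring
    have hx2 : |x (n + 2) s| ≤ 1 := by
      rw [abs_le]
      have h1 := hbs.c
      have h2 := hq s hs
      have h3 := hbs.bu
      have h4 : z ^ 16 ≤ 1 := pow_le_one₀ hz.le hP.z1
      rw [hqs] at h1 h2
      constructor <;> linarith
    have hx1 : |x (n + 1) s| ≤ 1 / 10 := by
      have h1 := hbs.bl
      have h2 := hbs.bu
      rw [hqs] at h1
      rw [abs_of_pos (by linarith)]
      exact h2
    have s0 := sgn_le hς (hbs.y n)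
    have s1 := sgn_le hς (hbs.y (n + 1))
    have s2 := sgn_le hς (hbs.y (n + 2))
    have b1 : rq * (x (n + 1) s * (ς * y n s)) ≤ 1 * (1 / 10 * 2) := by
      refine (le_abs_self _).trans ?_
      exact abs2 (by rw [abs_of_nonneg h.rq0]; exact h.rq1) (abs2 hx1 (abs_le.2 ⟨s0.2, s0.1⟩))
    have b2 : 9 / 10 ≤ x n s * (ς * y (n + 1) s) := by
      have := hbs.al
      nlinarith
    have b3 : x (n + 2) s * (ς * y (n + 1) s) - rr * (x (n + 1) s * (ς * y (n + 2) s)) ≤ 3 * Λ := by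
      have c1 := abs2 hx2 (abs_le.2 ⟨s1.2, s1.1⟩)
      have c2 := abs2 (show |rr| ≤ Λ by rw [abs_of_nonneg h.rr0]; exact h.rr1) (abs2 hx1 (abs_le.2 ⟨s2.2, s2.1⟩))
      have c3 := le_abs_self (x (n + 2) s * (ς * y (n + 1) s))
      have c4 := neg_abs_le (rr * (x (n + 1) s * (ς * y (n + 2) s)))
      linarith
    have b4 : z ^ 16 * Λ * (x (n + 2) s * (ς * y (n + 1) s) - rr * (x (n + 1) s * (ς * y (n + 2) s))) ≤ 3 / 10 ^ 30 := by
      calc z ^ 16 * Λ * (x (n + 2) s * (ς * y (n + 1) s) - rr * (x (n + 1) s * (ς * y (n + 2) s)))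
          ≤ z ^ 16 * Λ * (3 * Λ) := by gcongr
        _ = 3 * (z ^ 16 * Λ ^ 2) := by ring
        _ ≤ 3 * (1 / 10 ^ 30) := by gcongr
        _ = 3 / 10 ^ 30 := by ring
    have h5 : θ (n + 1) * (ς * qi g (z ^ 16) rq rr x y (n + 1) s) ≤ 0 := by
      refine nonpos_of (h.θ0 _) ?_
      rw [e]
      norm_num at b4 ⊢
      linarith
    have h4 : 0 ≤ 7 / 8 * d (n + 1) * (ς * y (n + 1) s) := by
      have := h.dpos (n + 1)
      have : 0 < ς * y (n + 1) s := by linarith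
      positivity
    linarith

/-- The mode `n+2` of the second family. -/
theorem StageIn.y2 (h : StageIn Λ z n g d η ρ x θ rq rr y) {t : ℝ} (ht : t ∈ Icc 0 5)
    (hb : ∀ s ∈ Ioo 0 t, Bd z n ρ x y s) (hq : ∀ s ∈ Ioo 0 t, x (n + 2) s ≤ qq * x (n + 1) s) :
    |y (n + 2) t| ≤ wq (n + 1) (n + 2) := by
  have hP := h.par
  have hz := hP.hz
  have hΛ := hP.hΛ0
  have hΛ1 := hP.hΛ1
  have hΛ14 := hP.hΛ
  have hqq := qq_pos
  have hqs : qq = 1 / 5000 := rfl
  have hz16 := pow_pos hz 16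
  have hδΛ : z ^ 16 * Λ ^ 3 ≤ 1 / 10 ^ 30 := by
    have h1 := hP.zpow_mul 15 (m := 3) (by norm_num)
    have h2 : z ^ 15 ≤ 1 := pow_le_one₀ hz.le hP.z1
    nlinarith
  have key := h.y_step ht (k := n + 2) (c := 0) le_rfl (fun s hs ς hς hpos => ?_)
  · rw [wq_up (by omega)]
    have : (0 : ℝ) < (1 / 2) ^ (n + 2 - n) / 8 := by positivity
    linarith
  · have hbs := hb s hs
    have hg2 : g (n + 2) = Λ ^ 2 := h.gj 2
    have e : ς * qi g (z ^ 16) rq rr x y (n + 2) s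
        = Λ * (rq * (x (n + 2) s * (ς * y (n + 1) s)) - x (n + 1) s * (ς * y (n + 2) s))
          + z ^ 16 * Λ ^ 2 * (x (n + 3) s * (ς * y (n + 2) s) - rr * (x (n + 2) s * (ς * y (n + 3) s))) := by
      have e1 : qi g (z ^ 16) rq rr x y (n + 2) s
        = g (n + 1) * (rq * (x (n + 2) s * y (n + 1) s) - x (n + 1) s * y (n + 2) s)
        + z ^ 16 * g (n + 2) * (x (n + 3) s * y (n + 2) s - rr * (x (n + 2) s * y (n + 3) s)) := rfl
      rw [e1, h.g1, hg2]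
      ring
    have hbl := hbs.bl
    have hbu := hbs.bu
    have hx1p : 0 < x (n + 1) s := by rw [hqs] at hbl; linarith
    have hx2 : |x (n + 2) s| ≤ qq * x (n + 1) s := by
      rw [abs_le]
      have h1 := hbs.c
      have h2 := hq s hs
      have h4 : z ^ 16 ≤ 1 / 10 ^ 6 := by
        refine (hP.q1 15).trans ?_
        rw [hqs]; norm_num
      have h5 : z ^ 16 * qq / 5 ≤ qq * x (n + 1) s := by
        have h6 : z ^ 16 / 5 ≤ x (n + 1) s := by rw [hqs] at hbl; linarith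
        calc z ^ 16 * qq / 5 = qq * (z ^ 16 / 5) := by ring
          _ ≤ qq * x (n + 1) s := by gcongr
      constructor <;> linarith
    have hx2' : |x (n + 2) s| ≤ 1 := by
      refine hx2.trans ?_
      rw [hqs]; linarith
    have hx3 : |x (n + 3) s| ≤ 1 := by
      have h1 := hbs.f 0
      rw [YY_zero] at h1
      refine h1.trans ?_
      have h2 : z ^ 10 ≤ 1 := pow_le_one₀ hz.le hP.z1
      have h3 := pow_pos hz 10
      rw [hqs]; linarith
    have s1 := sgn_le hς (hbs.y (n + 1))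
    have s2 := sgn_le hς (hbs.y (n + 2))
    have s3 := sgn_le hς (hbs.y (n + 3))
    have b1 : rq * (x (n + 2) s * (ς * y (n + 1) s)) ≤ 1 * (qq * x (n + 1) s * 2) := by
      refine (le_abs_self _).trans ?_
      exact abs2 (by rw [abs_of_nonneg h.rq0]; exact h.rq1) (abs2 hx2 (abs_le.2 ⟨s1.2, s1.1⟩))
    have b2 : x (n + 1) s ≤ x (n + 1) s * (ς * y (n + 2) s) := le_mul_of_one_le_right hx1p.le hpos.le
    have b3 : x (n + 3) s * (ς * y (n + 2) s) - rr * (x (n + 2) s * (ς * y (n + 3) s)) ≤ 4 * Λ := by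
      have c1 := abs2 hx3 (abs_le.2 ⟨s2.2, s2.1⟩)
      have c2 := abs2 (show |rr| ≤ Λ by rw [abs_of_nonneg h.rr0]; exact h.rr1) (abs2 hx2' (abs_le.2 ⟨s3.2, s3.1⟩))
      have c3 := le_abs_self (x (n + 3) s * (ς * y (n + 2) s))
      have c4 := neg_abs_le (rr * (x (n + 2) s * (ς * y (n + 3) s)))
      linarith
    have b4 : z ^ 16 * Λ ^ 2 * (x (n + 3) s * (ς * y (n + 2) s) - rr * (x (n + 2) s * (ς * y (n + 3) s)))
        ≤ 4 / 10 ^ 30 := by
      calc z ^ 16 * Λ ^ 2 * (x (n + 3) s * (ς * y (n + 2) s) - rr * (x (n + 2) s * (ς * y (n + 3) s)))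
          ≤ z ^ 16 * Λ ^ 2 * (4 * Λ) := by gcongr
        _ = 4 * (z ^ 16 * Λ ^ 3) := by ring
        _ ≤ 4 * (1 / 10 ^ 30) := by gcongr
        _ = 4 / 10 ^ 30 := by ring
    have b5 : 1 ≤ Λ * x (n + 1) s := by
      have h1 : 10 ^ 14 * (9 / 10 * qq) ≤ Λ * x (n + 1) s := by gcongr
      refine le_trans ?_ h1
      rw [hqs]; norm_num
    have b6 : Λ * (rq * (x (n + 2) s * (ς * y (n + 1) s)) - x (n + 1) s * (ς * y (n + 2) s))
        ≤ -(1 / 2 * (Λ * x (n + 1) s)) := by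
      have c1 : rq * (x (n + 2) s * (ς * y (n + 1) s)) - x (n + 1) s * (ς * y (n + 2) s)
          ≤ -(1 / 2 * x (n + 1) s) := by
        rw [hqs] at b1
        linarith
      calc Λ * (rq * (x (n + 2) s * (ς * y (n + 1) s)) - x (n + 1) s * (ς * y (n + 2) s))
          ≤ Λ * (-(1 / 2 * x (n + 1) s)) := by gcongr
        _ = _ := by ring
    have h5 : θ (n + 2) * (ς * qi g (z ^ 16) rq rr x y (n + 2) s) ≤ 0 := by
      refine nonpos_of (h.θ0 _) ?_
      rw [e]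
      norm_num at b4 ⊢
      linarith
    have h4 : 0 ≤ 7 / 8 * d (n + 2) * (ς * y (n + 2) s) := by
      have := h.dpos (n + 2)
      have : 0 < ς * y (n + 2) s := by linarith
      positivity
    linarith

/-- The mode `n+3` of the second family. -/
theorem StageIn.y3 (h : StageIn Λ z n g d η ρ x θ rq rr y) {t : ℝ} (ht : t ∈ Icc 0 5)
    (hb : ∀ s ∈ Ioo 0 t, Bd z n ρ x y s) : |y (n + 3) t| ≤ wq (n + 1) (n + 3) := by
  have hP := h.par
  have hz := hP.hz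
  have hΛ := hP.hΛ0
  have hΛ1 := hP.hΛ1
  have hqq := qq_pos
  have hqs : qq = 1 / 5000 := rfl
  have hz16 := pow_pos hz 16
  have hsm : ∀ m j : ℕ, j ≤ 4 → z ^ (m + 1) * Λ ^ j ≤ 1 / 10 ^ 30 := by
    intro m j hj
    have h1 := hP.zpow_mul m hj
    have h2 : z ^ m ≤ 1 := pow_le_one₀ hz.le hP.z1
    nlinarith
  have key := h.y_step ht (k := n + 3) (c := 25 / 10 ^ 30) (by norm_num) (fun s hs ς hς hpos => ?_)
  · rw [wq_up (by omega)]
    have e : n + 3 - n = 3 := by omega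
    rw [e]
    norm_num at key ⊢
    linarith
  · have hbs := hb s hs
    have hg2 : g (n + 2) = Λ ^ 2 := h.gj 2
    have hg3 : g (n + 3) = Λ ^ 3 := h.gj 3
    have e : ς * qi g (z ^ 16) rq rr x y (n + 3) s
        = Λ ^ 2 * (rq * (x (n + 3) s * (ς * y (n + 2) s)) - x (n + 2) s * (ς * y (n + 3) s))
          + z ^ 16 * Λ ^ 3 * (x (n + 4) s * (ς * y (n + 3) s) - rr * (x (n + 3) s * (ς * y (n + 4) s))) := by
      have e1 : qi g (z ^ 16) rq rr x y (n + 3) s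
        = g (n + 2) * (rq * (x (n + 3) s * y (n + 2) s) - x (n + 2) s * y (n + 3) s)
        + z ^ 16 * g (n + 3) * (x (n + 4) s * y (n + 3) s - rr * (x (n + 3) s * y (n + 4) s)) := rfl
      rw [e1, hg2, hg3]
      ring
    have hx3 : |x (n + 3) s| ≤ z ^ 10 := by
      have h1 := hbs.f 0
      rw [YY_zero] at h1
      refine h1.trans ?_
      have h3 := pow_pos hz 10
      rw [hqs]; linarith
    have hx4 : |x (n + 4) s| ≤ 1 := by
      have h1 := hbs.f 1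
      refine (h1.trans (YY_le h.ρp 1)).trans ?_
      have e2 : n + 3 + 1 = n + 4 := rfl
      rw [e2]
      have h2 := h.ρd (n + 3)
      rw [e2] at h2
      have h3 := h.ρ3
      have h5 : z ^ 40 ≤ 1 := pow_le_one₀ hz.le hP.z1
      have h6 : z ^ (10 + 14 * 1) ≤ 1 := pow_le_one₀ hz.le hP.z1
      have h7 : ρ (n + 4) ≤ 1 / 10 ^ 5 := h2.trans (by gcongr; exact h3.trans h5)
      generalize z ^ (10 + 14 * 1) = Z at h6 ⊢
      rw [hqs]
      norm_num at h7
      linarith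
    have s2 := sgn_le hς (hbs.y (n + 2))
    have s3 := sgn_le hς (hbs.y (n + 3))
    have s4 := sgn_le hς (hbs.y (n + 4))
    have b1 : rq * (x (n + 3) s * (ς * y (n + 2) s)) ≤ 1 * (z ^ 10 * 2) := by
      refine (le_abs_self _).trans ?_
      exact abs2 (by rw [abs_of_nonneg h.rq0]; exact h.rq1) (abs2 hx3 (abs_le.2 ⟨s2.2, s2.1⟩))
    have b2 : -(x (n + 2) s * (ς * y (n + 3) s)) ≤ z ^ 16 * 2 := by
      have h1 := hbs.c
      have h2 : -x (n + 2) s ≤ z ^ 16 := by rw [hqs] at h1; linarith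
      have h3 : -(x (n + 2) s * (ς * y (n + 3) s)) = (-x (n + 2) s) * (ς * y (n + 3) s) := by ring
      rw [h3]
      calc (-x (n + 2) s) * (ς * y (n + 3) s) ≤ z ^ 16 * (ς * y (n + 3) s) := by gcongr
        _ ≤ z ^ 16 * 2 := by gcongr; exact s3.1
    have b3 : x (n + 4) s * (ς * y (n + 3) s) - rr * (x (n + 3) s * (ς * y (n + 4) s)) ≤ 4 * Λ := by
      have c1 := abs2 hx4 (abs_le.2 ⟨s3.2, s3.1⟩)
      have c2 := abs2 (show |rr| ≤ Λ by rw [abs_of_nonneg h.rr0]; exact h.rr1) (abs2 (hx3.trans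
        (pow_le_one₀ hz.le hP.z1 : z ^ 10 ≤ 1)) (abs_le.2 ⟨s4.2, s4.1⟩))
      have c3 := le_abs_self (x (n + 4) s * (ς * y (n + 3) s))
      have c4 := neg_abs_le (rr * (x (n + 3) s * (ς * y (n + 4) s)))
      linarith
    have b4 : z ^ 16 * Λ ^ 3 * (x (n + 4) s * (ς * y (n + 3) s) - rr * (x (n + 3) s * (ς * y (n + 4) s)))
        ≤ 4 * (1 / 10 ^ 30) := by
      calc z ^ 16 * Λ ^ 3 * (x (n + 4) s * (ς * y (n + 3) s) - rr * (x (n + 3) s * (ς * y (n + 4) s)))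
          ≤ z ^ 16 * Λ ^ 3 * (4 * Λ) := by gcongr
        _ = 4 * (z ^ 16 * Λ ^ 4) := by ring
        _ ≤ 4 * (1 / 10 ^ 30) := by gcongr; exact hsm 15 4 le_rfl
    have b5 : Λ ^ 2 * (rq * (x (n + 3) s * (ς * y (n + 2) s)) - x (n + 2) s * (ς * y (n + 3) s))
        ≤ 4 * (1 / 10 ^ 30) := by
      have c1 := hsm 9 2 (by norm_num)
      have c2 := hsm 15 2 (by norm_num)
      have c3 : rq * (x (n + 3) s * (ς * y (n + 2) s)) - x (n + 2) s * (ς * y (n + 3) s) ≤ 2 * z ^ 10 + 2 * z ^ 16 := by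
        linarith
      calc Λ ^ 2 * (rq * (x (n + 3) s * (ς * y (n + 2) s)) - x (n + 2) s * (ς * y (n + 3) s))
          ≤ Λ ^ 2 * (2 * z ^ 10 + 2 * z ^ 16) := by gcongr
        _ = 2 * (z ^ (9 + 1) * Λ ^ 2) + 2 * (z ^ (15 + 1) * Λ ^ 2) := by ring
        _ ≤ 2 * (1 / 10 ^ 30) + 2 * (1 / 10 ^ 30) := by gcongr
        _ = 4 * (1 / 10 ^ 30) := by ring
    have h5 : θ (n + 3) * (ς * qi g (z ^ 16) rq rr x y (n + 3) s) ≤ 3 * (8 / 10 ^ 30) := by
      have h6 : ς * qi g (z ^ 16) rq rr x y (n + 3) s ≤ 8 / 10 ^ 30 := by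
        rw [e]; linarith
      have := (h.θ0 (n + 3)).le
      calc θ (n + 3) * (ς * qi g (z ^ 16) rq rr x y (n + 3) s) ≤ θ (n + 3) * (8 / 10 ^ 30) := by gcongr
        _ ≤ 3 * (8 / 10 ^ 30) := by gcongr; exact h.θ1 _
    have h4 : 0 ≤ 7 / 8 * d (n + 3) * (ς * y (n + 3) s) := by
      have := h.dpos (n + 3)
      have : 0 < ς * y (n + 3) s := by linarith
      positivity
    linarith

theorem far_q {θ g g' δ Λ d d' K K1 K2 r r' r'' a b c rq rr y0 y1 y2 w : ℝ} (hθ0 : 0 < θ) (hθ : θ ≤ 3)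
    (hg : 0 < g) (hg' : 0 < g') (hδ0 : 0 < δ) (hΛ1 : 1 ≤ Λ) (hδΛ : δ * Λ ≤ 1 / 1000)
    (hK : 0 < K) (hK1 : 0 < K1) (hK2 : 0 < K2) (hr : 0 < r) (hr' : 0 < r') (hr'' : 0 < r'')
    (ha : |a| ≤ K + 2 * r') (hb : |b| ≤ K1 + 2 * r) (hc : |c| ≤ K2 + 2 * r'')
    (h1 : 64 * g' * r' ≤ d') (h2 : 64 * g * r ≤ d) (h3 : d' ≤ d)
    (h4 : r ≤ r' / 10 ^ 5) (h5 : r'' ≤ r / 10 ^ 5) (hrq0 : 0 ≤ rq) (hrq : rq ≤ 1) (hrr0 : 0 ≤ rr) (hrr : rr ≤ Λ)
    (hy0 : |y0| ≤ 2) (hy1 : |y1| ≤ 2) (hy2 : |y2| ≤ 2) (hw : 1 < w) :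
    θ * (g' * (rq * (b * y0) - a * y1) + δ * g * (c * y1 - rr * (b * y2)))
      ≤ 3 * (g' * (2 * K + 2 * K1) + δ * g * (2 * K2 + 2 * Λ * K1)) + 7 / 8 * d * w := by
  have hd0 : 0 < d := lt_of_lt_of_le (by positivity) h2
  have hΛ0 : 0 < Λ := by linarith
  have a1 : rq * (b * y0) ≤ 1 * ((K1 + 2 * r) * 2) :=
    (le_abs_self _).trans (abs2 (by rw [abs_of_nonneg hrq0]; exact hrq) (abs2 hb hy0))
  have a2 : -(a * y1) ≤ (K + 2 * r') * 2 := by
    have := neg_abs_le (a * y1)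
    have := abs2 ha hy1
    linarith
  have a3 : c * y1 ≤ (K2 + 2 * r'') * 2 := (le_abs_self _).trans (abs2 hc hy1)
  have a4 : -(rr * (b * y2)) ≤ Λ * ((K1 + 2 * r) * 2) := by
    have := neg_abs_le (rr * (b * y2))
    have := abs2 (show |rr| ≤ Λ by rw [abs_of_nonneg hrr0]; exact hrr) (abs2 hb hy2)
    linarith
  have b1 : g' * (rq * (b * y0) - a * y1) ≤ g' * (2 * K + 2 * K1) + d / 15 := by
    have c1 : rq * (b * y0) - a * y1 ≤ (2 * K + 2 * K1) + 4 * r + 4 * r' := by linarith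
    have c2 : g' * (4 * r) ≤ d / 1000 := by
      calc g' * (4 * r) ≤ g' * (4 * (r' / 10 ^ 5)) := by gcongr
        _ = (64 * g' * r') * (1 / (16 * 10 ^ 5)) := by ring
        _ ≤ d * (1 / (16 * 10 ^ 5)) := by gcongr; exact h1.trans h3
        _ ≤ d / 1000 := by rw [mul_one_div]; gcongr; norm_num
    have c3 : g' * (4 * r') ≤ d / 16 := by
      calc g' * (4 * r') = (64 * g' * r') * (1 / 16) := by ring
        _ ≤ d * (1 / 16) := by gcongr; exact h1.trans h3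
        _ = d / 16 := by ring
    calc g' * (rq * (b * y0) - a * y1) ≤ g' * ((2 * K + 2 * K1) + 4 * r + 4 * r') := by gcongr
      _ = g' * (2 * K + 2 * K1) + g' * (4 * r) + g' * (4 * r') := by ring
      _ ≤ g' * (2 * K + 2 * K1) + d / 1000 + d / 16 := by gcongr
      _ ≤ _ := by linarith
  have b2 : δ * g * (c * y1 - rr * (b * y2)) ≤ δ * g * (2 * K2 + 2 * Λ * K1) + d / 1000 := by
    have c1 : c * y1 - rr * (b * y2) ≤ (2 * K2 + 2 * Λ * K1) + 4 * r'' + 4 * (Λ * r) := by linarith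
    have c2 : δ * g * (4 * r'') ≤ d / 10000 := by
      have e1 : r'' ≤ r / 10 ^ 5 := h5
      have e2 : δ ≤ 1 := by nlinarith
      calc δ * g * (4 * r'') ≤ 1 * g * (4 * (r / 10 ^ 5)) := by gcongr
        _ = (64 * g * r) * (1 / (16 * 10 ^ 5)) := by ring
        _ ≤ d * (1 / (16 * 10 ^ 5)) := by gcongr
        _ ≤ d / 10000 := by rw [mul_one_div]; gcongr; norm_num
    have c3 : δ * g * (4 * (Λ * r)) ≤ d / 10000 := by
      calc δ * g * (4 * (Λ * r)) = (δ * Λ) * ((64 * g * r) / 16) := by ring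
        _ ≤ (1 / 1000) * (d / 16) := by gcongr
        _ ≤ d / 10000 := by linarith
    calc δ * g * (c * y1 - rr * (b * y2)) ≤ δ * g * ((2 * K2 + 2 * Λ * K1) + 4 * r'' + 4 * (Λ * r)) := by gcongr
      _ = δ * g * (2 * K2 + 2 * Λ * K1) + δ * g * (4 * r'') + δ * g * (4 * (Λ * r)) := by ring
      _ ≤ δ * g * (2 * K2 + 2 * Λ * K1) + d / 10000 + d / 10000 := by gcongr
      _ ≤ _ := by linarith
  set Z := g' * (2 * K + 2 * K1) + δ * g * (2 * K2 + 2 * Λ * K1) with hZ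
  have hZ0 : 0 < Z := by positivity
  have b3 : g' * (rq * (b * y0) - a * y1) + δ * g * (c * y1 - rr * (b * y2)) ≤ Z + d / 10 := by linarith
  calc θ * (g' * (rq * (b * y0) - a * y1) + δ * g * (c * y1 - rr * (b * y2))) ≤ θ * (Z + d / 10) := by gcongr
    _ ≤ 3 * (Z + d / 10) := by gcongr
    _ ≤ 3 * Z + 7 / 8 * d * w := by nlinarith

/-- The far modes of the second family. -/
theorem StageIn.y_far (h : StageIn Λ z n g d η ρ x θ rq rr y) {t : ℝ} (ht : t ∈ Icc 0 5)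
    (hb : ∀ s ∈ Ioo 0 t, Bd z n ρ x y s) (i : ℕ) : |y (n + 4 + i) t| ≤ wq (n + 1) (n + 4 + i) := by
  have hP := h.par
  have hz := hP.hz
  have hΛ := hP.hΛ0
  have hΛ1 := hP.hΛ1
  have hqq := qq_pos
  have hqs : qq = 1 / 5000 := rfl
  have hq1 : qq ≤ 1 := by rw [hqs]; norm_num
  have hz16 := pow_pos hz 16
  set k := n + 4 + i with hk
  set K := z ^ (10 + 14 * i) * qq / 2 with hK
  set K1 := z ^ (10 + 14 * (i + 1)) * qq / 2 with hK1
  set K2 := z ^ (10 + 14 * (i + 2)) * qq / 2 with hK2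
  have hK0 : 0 < K := by positivity
  have hK10 : 0 < K1 := by positivity
  have hK20 : 0 < K2 := by positivity
  set u := Λ ^ (4 + i) * z ^ (1 + i) with hu
  have hu0 : 0 < u := by positivity
  have hus := hP.small i
  rw [← hu] at hus
  have hg' : g (n + 3 + i) = Λ ^ (3 + i) := by rw [add_assoc, h.gj]
  have hg : g k = Λ ^ (4 + i) := by rw [hk, add_assoc, h.gj]
  have hδΛ : z ^ 16 * Λ ≤ 1 / 10 ^ 30 := by
    have h1 := hP.zpow_mul 15 (m := 1) (by norm_num)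
    have h2 : z ^ 15 ≤ 1 := pow_le_one₀ hz.le hP.z1
    rw [pow_one] at h1
    nlinarith
  have hKK : K1 ≤ K := by
    rw [hK, hK1]
    have : z ^ (10 + 14 * (i + 1)) ≤ z ^ (10 + 14 * i) := hP.zpow_le (by omega)
    gcongr
  have hKK2 : K2 ≤ K := by
    rw [hK, hK2]
    have : z ^ (10 + 14 * (i + 2)) ≤ z ^ (10 + 14 * i) := hP.zpow_le (by omega)
    gcongr
  have hgK : Λ ^ (4 + i) * K ≤ u := by
    rw [hK, hu]
    have h3 : z ^ (10 + 14 * i) ≤ z ^ (1 + i) := hP.zpow_le (by omega)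
    calc Λ ^ (4 + i) * (z ^ (10 + 14 * i) * qq / 2) ≤ Λ ^ (4 + i) * (z ^ (1 + i) * 1 / 1) := by gcongr; norm_num
      _ = Λ ^ (4 + i) * z ^ (1 + i) := by ring
  have hc : 3 * (g (n + 3 + i) * (2 * K + 2 * K1) + z ^ 16 * g k * (2 * K2 + 2 * Λ * K1)) ≤ 24 * u := by
    rw [hg', hg]
    have e1 : Λ ^ (3 + i) ≤ Λ ^ (4 + i) := pow_le_pow_right₀ hΛ1 (by omega)
    have e2 : Λ ^ (3 + i) * (2 * K + 2 * K1) ≤ 4 * u := by
      calc Λ ^ (3 + i) * (2 * K + 2 * K1) ≤ Λ ^ (4 + i) * (2 * K + 2 * K) := by gcongr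
        _ = 4 * (Λ ^ (4 + i) * K) := by ring
        _ ≤ 4 * u := by gcongr
    have e3 : z ^ 16 * Λ ^ (4 + i) * (2 * K2 + 2 * Λ * K1) ≤ 4 * u := by
      have h4 : 2 * K2 + 2 * Λ * K1 ≤ 4 * Λ * K := by
        have : K2 ≤ Λ * K := hKK2.trans (le_mul_of_one_le_left hK0.le hΛ1)
        have : Λ * K1 ≤ Λ * K := by gcongr
        linarith
      calc z ^ 16 * Λ ^ (4 + i) * (2 * K2 + 2 * Λ * K1) ≤ z ^ 16 * Λ ^ (4 + i) * (4 * Λ * K) := by gcongr
        _ = 4 * (z ^ 16 * Λ) * (Λ ^ (4 + i) * K) := by ring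
        _ ≤ 4 * (1 / 10 ^ 30) * u := by gcongr
        _ ≤ 4 * u := by nlinarith
    linarith
  have key := h.y_step ht (k := k) (c := 24 * u) (by positivity) (fun s hs ς hς hpos => ?_)
  · rw [wq_up (by omega)]
    have e : k - n = 4 + i := by omega
    rw [e, pow_add]
    have h1 : (0 : ℝ) < (1 / 2) ^ i := by positivity
    norm_num at key hus ⊢
    nlinarith
  · have hbs := hb s hs
    have e : ς * qi g (z ^ 16) rq rr x y k s
        = g (n + 3 + i) * (rq * (x k s * (ς * y (n + 3 + i) s)) - x (n + 3 + i) s * (ς * y k s))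
          + z ^ 16 * g k * (x (k + 1) s * (ς * y k s) - rr * (x k s * (ς * y (k + 1) s))) := by
      have hk' : k = (n + 3 + i) + 1 := by omega
      rw [hk']
      show ς * (g (n + 3 + i) * (rq * (x (n + 3 + i + 1) s * y (n + 3 + i) s) - x (n + 3 + i) s * y (n + 3 + i + 1) s)
        + z ^ 16 * g (n + 3 + i + 1) * (x (n + 3 + i + 2) s * y (n + 3 + i + 1) s
          - rr * (x (n + 3 + i + 1) s * y (n + 3 + i + 2) s))) = _
      ring
    have s0 := sgn_le hς (hbs.y (n + 3 + i))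
    have s1 := sgn_le hς (hbs.y k)
    have s2 := sgn_le hς (hbs.y (k + 1))
    have f0 : |x (n + 3 + i) s| ≤ K + 2 * ρ (n + 3 + i) := (hbs.f i).trans (YY_le h.ρp i)
    have f1 : |x k s| ≤ K1 + 2 * ρ k := by
      have e3 : n + 3 + (i + 1) = k := by omega
      have := (hbs.f (i + 1)).trans (YY_le h.ρp (i + 1))
      rwa [e3] at this
    have f2 : |x (k + 1) s| ≤ K2 + 2 * ρ (k + 1) := by
      have e3 : n + 3 + (i + 2) = k + 1 := by omega
      have := (hbs.f (i + 2)).trans (YY_le h.ρp (i + 2))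
      rwa [e3] at this
    have hk1 : n + 3 + i + 1 = k := by omega
    have := far_q (w := ς * y k s) (h.θ0 k) (h.θ1 k) (h.gpos k) (h.gpos (n + 3 + i)) hz16 hΛ1
      (hδΛ.trans (by norm_num)) hK0 hK10 hK20 (h.ρp k) (h.ρp (n + 3 + i)) (h.ρp (k + 1)) f0 f1 f2
      (h.far2 (n + 3 + i) (by omega)) (h.far2 k (by omega)) (by have := h.dmono (n + 3 + i); rwa [hk1] at this)
      (by have := h.ρd (n + 3 + i); rwa [hk1] at this) (h.ρd k) h.rq0 h.rq1 h.rr0 h.rr1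
      (abs_le.2 ⟨s0.2, s0.1⟩) (abs_le.2 ⟨s1.2, s1.1⟩) (abs_le.2 ⟨s2.2, s2.1⟩) hpos
    rw [e]
    linarith

/-- All modes of the second family. -/
theorem StageIn.y_bd (h : StageIn Λ z n g d η ρ x θ rq rr y) {t : ℝ} (ht : t ∈ Icc 0 5)
    (hb : ∀ s ∈ Ioo 0 t, Bd z n ρ x y s) (hq : ∀ s ∈ Ioo 0 t, x (n + 2) s ≤ qq * x (n + 1) s) (k : ℕ) :
    |y k t| ≤ wq (n + 1) k := by
  rcases le_or_gt k n with h1 | h1
  · exact h.y_low ht hb h1
  · rcases Nat.lt_or_ge k (n + 4) with h2 | h2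
    · have : k = n + 1 ∨ k = n + 2 ∨ k = n + 3 := by omega
      rcases this with rfl | rfl | rfl
      · exact h.y1 ht hb hq
      · exact h.y2 ht hb hq
      · exact h.y3 ht hb
    · obtain ⟨i, rfl⟩ := Nat.exists_eq_add_of_le h2
      exact h.y_far ht hb i

end Pool.Agent.N980.WQ
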